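import Pool.Agent.Zeros.KDefs
import Pool.Agent.NegLim.Circuit

/-!
# Three-valued evaluation: monotonicity, soundness, and monotone simulation
-/

namespace Pool.Agent.NegLim

open Finset

set_option linter.unusedSectionVars false

/-- The information order. -/
def Inf (a b : Option Bool) : Prop := ∀ c, a = some c → b = some c

lemma Inf.refl (a : Option Bool) : Inf a a := fun _ h => h

lemma Inf.and {a a' b b' : Option Bool} (h : Inf a a') (h' : Inf b b') :
    Inf (kAnd a b) (kAnd a' b') := by
  intro c
  rcases a with _ | _ | _ <;> rcases b with _ | _ | _ <;>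
    simp only [Inf, reduceCtorEq, Option.some.injEq, false_implies, implies_true] at h h' <;>
    (try have h1 := h _ rfl) <;> (try have h2 := h' _ rfl) <;> subst_vars <;>
    cases c <;> simp_all [kAnd]

lemma Inf.or {a a' b b' : Option Bool} (h : Inf a a') (h' : Inf b b') :
    Inf (kOr a b) (kOr a' b') := by
  intro c
  rcases a with _ | _ | _ <;> rcases b with _ | _ | _ <;>
    simp only [Inf, reduceCtorEq, Option.some.injEq, false_implies, implies_true] at h h' <;>
    (try have h1 := h _ rfl) <;> (try have h2 := h' _ rfl) <;> subst_vars <;>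
    cases c <;> simp_all [kOr]

lemma Inf.not {a a' : Option Bool} (h : Inf a a') : Inf (kNot a) (kNot a') := by
  intro c hc
  rcases a with _ | a
  · simp [kNot] at hc
  · rw [h a rfl]
    exact hc

/-- Lists of three-valued values in the information order. -/
def InfL (l l' : List (Option Bool)) : Prop :=
  l.length = l'.length ∧ ∀ i, Inf (l.getD i (some false)) (l'.getD i (some false))

lemma getD_snoc {α : Type} (l : List α) (a d : α) (i : ℕ) :
    (l ++ [a]).getD i d = if i < l.length then l.getD i d else if i = l.length then a else d := by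
  split_ifs with h1 h2
  · rw [List.getD_append _ _ _ _ h1]
  · rw [h2, List.getD_append_right _ _ _ _ le_rfl]; simp
  · rw [List.getD_eq_default _ _ (by simp; omega)]

variable {V : Type}

lemma Wire.kval_inf {ρ ρ' : V → Option Bool} (hρ : ∀ v, Inf (ρ v) (ρ' v))
    {l l' : List (Option Bool)} (hl : InfL l l') (a : Wire V) :
    Inf (a.kval ρ l) (a.kval ρ' l') := by
  cases a with
  | var v => exact hρ v
  | const b => exact Inf.refl _
  | gate i => exact hl.2 i

lemma Gate.kval_inf {ρ ρ' : V → Option Bool} (hρ : ∀ v, Inf (ρ v) (ρ' v))
    {l l' : List (Option Bool)} (hl : InfL l l') (g : Gate V) :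
    Inf (g.kval ρ l) (g.kval ρ' l') := by
  cases g with
  | and a b => exact (Wire.kval_inf hρ hl a).and (Wire.kval_inf hρ hl b)
  | or a b => exact (Wire.kval_inf hρ hl a).or (Wire.kval_inf hρ hl b)
  | not a => exact (Wire.kval_inf hρ hl a).not

lemma gateKvals_inf {ρ ρ' : V → Option Bool} (hρ : ∀ v, Inf (ρ v) (ρ' v)) (C : Circuit V) :
    ∀ l l' : List (Option Bool), InfL l l' → InfL (gateKvals ρ C l) (gateKvals ρ' C l') := by
  induction C with
  | nil => intro l l' h; exact h
  | cons g C ih =>
    intro l l' h
    simp only [gateKvals]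
    apply ih
    refine ⟨by simp [h.1], fun i => ?_⟩
    rw [getD_snoc, getD_snoc, h.1]
    split_ifs
    · exact h.2 i
    · exact Gate.kval_inf hρ h g
    · exact Inf.refl _

/-- More information gives more. -/
theorem Circuit.kval_inf (C : Circuit V) {ρ ρ' : V → Option Bool} (hρ : ∀ v, Inf (ρ v) (ρ' v))
    (a : Wire V) : Inf (C.kval ρ a) (C.kval ρ' a) :=
  Wire.kval_inf hρ (gateKvals_inf hρ C [] [] ⟨rfl, fun _ => Inf.refl _⟩) a

lemma getD_map_some (l : List Bool) (i : ℕ) :
    (l.map some).getD i (some false) = some (l.getD i false) := by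
  rw [List.getD_map]

lemma Wire.kval_total (x : V → Bool) (l : List Bool) (a : Wire V) :
    a.kval (fun v => some (x v)) (l.map some) = some (a.val x l) := by
  cases a with
  | var v => rfl
  | const b => rfl
  | gate i => exact getD_map_some l i

lemma kAnd_some (a b : Bool) : kAnd (some a) (some b) = some (a && b) := by
  cases a <;> cases b <;> rfl

lemma kOr_some (a b : Bool) : kOr (some a) (some b) = some (a || b) := by
  cases a <;> cases b <;> rfl

lemma Gate.kval_total (x : V → Bool) (l : List Bool) (g : Gate V) :
    g.kval (fun v => some (x v)) (l.map some) = some (g.val x l) := by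
  cases g with
  | and a b => simp only [Gate.kval, Gate.val, Wire.kval_total, kAnd_some]
  | or a b => simp only [Gate.kval, Gate.val, Wire.kval_total, kOr_some]
  | not a => simp only [Gate.kval, Gate.val, Wire.kval_total, kNot, Option.map_some]

lemma gateKvals_total (x : V → Bool) (C : Circuit V) :
    ∀ l : List Bool, gateKvals (fun v => some (x v)) C (l.map some) = (gateVals x C l).map some := by
  induction C with
  | nil => intro l; rfl
  | cons g C ih =>
    intro l
    simp only [gateKvals, gateVals]
    rw [Gate.kval_total, ← ih]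
    simp

theorem Circuit.kval_total (C : Circuit V) (x : V → Bool) (a : Wire V) :
    C.kval (fun v => some (x v)) a = some (C.val x a) := by
  unfold Circuit.kval Circuit.val
  have := gateKvals_total x C []
  rw [List.map_nil] at this
  rw [this, Wire.kval_total]

/-- Soundness. -/
theorem Circuit.val_of_kval (C : Circuit V) {ρ : V → Option Bool} {x : V → Bool} {a : Wire V}
    (hρ : ∀ v, Inf (ρ v) (some (x v))) {b : Bool} (h : C.kval ρ a = some b) : C.val x a = b := by
  have h1 := C.kval_inf hρ a b h
  rw [C.kval_total] at h1
  exact Option.some.inj h1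

lemma gateKvals_append (ρ : V → Option Bool) (C D : Circuit V) :
    ∀ l : List (Option Bool), gateKvals ρ (C ++ D) l = gateKvals ρ D (gateKvals ρ C l) := by
  induction C with
  | nil => intro l; rfl
  | cons g C ih => intro l; simp only [List.cons_append, gateKvals]; exact ih _

lemma gateKvals_length (ρ : V → Option Bool) (C : Circuit V) :
    ∀ l : List (Option Bool), (gateKvals ρ C l).length = l.length + C.length := by
  induction C with
  | nil => intro l; rfl
  | cons g C ih =>
    intro l
    simp only [gateKvals]
    rw [ih]
    simp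
    omega

variable {W : Type} [Fintype W] [DecidableEq W]

/-- The partial input given by a set `X`: the variables with `τ v = none` are known to be zero,
the variables with `τ v = some w` are known to be one if `w ∈ X` and unknown otherwise. -/
def partIn (τ : V → Option W) (X : Finset W) (v : V) : Option Bool :=
  match τ v with
  | none => some false
  | some w => if w ∈ X then some true else none

/-- The two rails of a wire. -/
def Wire.rt (τ : V → Option W) (t : ℕ → Set (Finset W)) : Wire V → Set (Finset W)
  | .var v => match τ v with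
    | none => ∅
    | some w => {X | w ∈ X}
  | .const b => if b then Set.univ else ∅
  | .gate i => t i

def Wire.rf (τ : V → Option W) (f : ℕ → Set (Finset W)) : Wire V → Set (Finset W)
  | .var v => match τ v with
    | none => Set.univ
    | some _ => ∅
  | .const b => if b then ∅ else Set.univ
  | .gate i => f i

lemma Wire.rt_mem {C : Set (Set (Finset W))} (hb : baseFns W ⊆ C) {τ : V → Option W}
    {t : ℕ → Set (Finset W)} (ht : ∀ i, t i ∈ C) (a : Wire V) : a.rt τ t ∈ C := by
  cases a with
  | var v =>
    simp only [Wire.rt]
    cases τ v with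
    | none => exact hb (Or.inr (Or.inr rfl))
    | some w => exact hb (Or.inl ⟨w, rfl⟩)
  | const b =>
    cases b with
    | false => exact hb (Or.inr (Or.inr rfl))
    | true => exact hb (Or.inr (Or.inl rfl))
  | gate i => exact ht i

lemma Wire.rf_mem {C : Set (Set (Finset W))} (hb : baseFns W ⊆ C) {τ : V → Option W}
    {f : ℕ → Set (Finset W)} (hf : ∀ i, f i ∈ C) (a : Wire V) : a.rf τ f ∈ C := by
  cases a with
  | var v =>
    simp only [Wire.rf]
    cases τ v with
    | none => exact hb (Or.inr (Or.inl rfl))
    | some w => exact hb (Or.inr (Or.inr rfl))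
  | const b =>
    cases b with
    | false => exact hb (Or.inr (Or.inl rfl))
    | true => exact hb (Or.inr (Or.inr rfl))
  | gate i => exact hf i

/-- The rails describe the values. -/
def RailOK (K : Finset W → Option Bool) (t f : Set (Finset W)) : Prop :=
  ∀ X, (K X = some true ↔ X ∈ t) ∧ (K X = some false ↔ X ∈ f)

lemma Wire.rail {τ : V → Option W} {l : Finset W → List (Option Bool)}
    {t f : ℕ → Set (Finset W)}
    (h : ∀ i, RailOK (fun X => (l X).getD i (some false)) (t i) (f i)) (a : Wire V) :
    RailOK (fun X => a.kval (partIn τ X) (l X)) (a.rt τ t) (a.rf τ f) := by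
  cases a with
  | var v =>
    intro X
    simp only [Wire.kval, Wire.rt, Wire.rf, partIn]
    cases τ v with
    | none => simp
    | some w => by_cases hw : w ∈ X <;> simp [hw]
  | const b => intro X; cases b <;> simp [Wire.kval, Wire.rt, Wire.rf]
  | gate i => exact h i

lemma RailOK.and {K K' : Finset W → Option Bool} {t f t' f' : Set (Finset W)}
    (h : RailOK K t f) (h' : RailOK K' t' f') :
    RailOK (fun X => kAnd (K X) (K' X)) (t ∩ t') (f ∪ f') := by
  intro X
  simp only
  rw [Set.mem_inter_iff, Set.mem_union, ← (h X).1, ← (h X).2, ← (h' X).1, ← (h' X).2]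
  generalize K X = a
  generalize K' X = b
  rcases a with _ | _ | _ <;> rcases b with _ | _ | _ <;> simp [kAnd]

lemma RailOK.or {K K' : Finset W → Option Bool} {t f t' f' : Set (Finset W)}
    (h : RailOK K t f) (h' : RailOK K' t' f') :
    RailOK (fun X => kOr (K X) (K' X)) (t ∪ t') (f ∩ f') := by
  intro X
  simp only
  rw [Set.mem_inter_iff, Set.mem_union, ← (h X).1, ← (h X).2, ← (h' X).1, ← (h' X).2]
  generalize K X = a
  generalize K' X = b
  rcases a with _ | _ | _ <;> rcases b with _ | _ | _ <;> simp [kOr]

lemma RailOK.not {K : Finset W → Option Bool} {t f : Set (Finset W)} (h : RailOK K t f) :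
    RailOK (fun X => kNot (K X)) f t := by
  intro X
  simp only
  rw [← (h X).1, ← (h X).2]
  generalize K X = a
  rcases a with _ | _ | _ <;> simp [kNot]

/-- The monotone simulation. -/
lemma rails (τ : V → Option W) (C : Circuit V) :
    ∃ s' ≤ 2 * C.size, ∃ D : Set (Set (Finset W)), MonComp s' D ∧
      ∃ t f : ℕ → Set (Finset W), (∀ i, t i ∈ D) ∧ (∀ i, f i ∈ D) ∧
        ∀ i, RailOK (fun X => (gateKvals (partIn τ X) C []).getD i (some false)) (t i) (f i) := by
  induction C using List.reverseRecOn with
  | nil =>
    refine ⟨0, Nat.zero_le _, _, MonComp.base, fun _ => ∅, fun _ => Set.univ,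
      fun _ => Or.inr (Or.inr rfl), fun _ => Or.inr (Or.inl rfl), ?_⟩
    intro i X
    simp [gateKvals]
  | append_singleton C g ih =>
    obtain ⟨s, hs, D, hD, t, f, ht, hf, hK⟩ := ih
    have hsz : Circuit.size (C ++ [g]) = Circuit.size C + 1 := by simp [Circuit.size]
    have hrun : ∀ X : Finset W, gateKvals (partIn τ X) (C ++ [g]) []
        = gateKvals (partIn τ X) C [] ++ [g.kval (partIn τ X) (gateKvals (partIn τ X) C [])] := by
      intro X
      rw [gateKvals_append]
      rfl
    have hlen : ∀ X : Finset W, (gateKvals (partIn τ X) C []).length = C.length := by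
      intro X
      rw [gateKvals_length]
      simp
    have key : ∀ (tg fg : Set (Finset W)) (D' : Set (Set (Finset W))) (s' : ℕ),
        s' ≤ 2 * Circuit.size (C ++ [g]) → MonComp s' D' → D ⊆ D' → tg ∈ D' → fg ∈ D' →
        RailOK (fun X => g.kval (partIn τ X) (gateKvals (partIn τ X) C [])) tg fg →
        ∃ s' ≤ 2 * Circuit.size (C ++ [g]), ∃ D : Set (Set (Finset W)), MonComp s' D ∧
        ∃ t f : ℕ → Set (Finset W), (∀ i, t i ∈ D) ∧ (∀ i, f i ∈ D) ∧
        ∀ i, RailOK (fun X => (gateKvals (partIn τ X) (C ++ [g]) []).getD i (some false))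
          (t i) (f i) := by
      intro tg fg D' s' hs' hD' hDD htg hfg hr
      refine ⟨s', hs', D', hD', fun i => if i = C.length then tg else t i,
        fun i => if i = C.length then fg else f i, ?_, ?_, ?_⟩
      · intro i
        simp only
        split_ifs
        · exact htg
        · exact hDD (ht i)
      · intro i
        simp only
        split_ifs
        · exact hfg
        · exact hDD (hf i)
      · intro i X
        simp only
        rw [hrun, getD_snoc, hlen]
        by_cases h1 : i < C.length
        · rw [if_pos h1, if_neg (by omega), if_neg (by omega)]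
          exact hK i X
        · rw [if_neg h1]
          by_cases h2 : i = C.length
          · rw [if_pos h2, if_pos h2, if_pos h2]
            exact hr X
          · rw [if_neg h2, if_neg h2, if_neg h2]
            have h3 := hK i X
            simp only at h3
            rw [List.getD_eq_default _ _ (by rw [hlen]; omega)] at h3
            exact h3
    have hb := hD.base_subset
    cases g with
    | and a b =>
      have h1 : MonComp (s + 1) (insert (a.rt τ t ∩ b.rt τ t) D) :=
        MonComp.and hD (Wire.rt_mem hb ht a) (Wire.rt_mem hb ht b)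
      have h2 : MonComp (s + 2) (insert (a.rf τ f ∪ b.rf τ f)
          (insert (a.rt τ t ∩ b.rt τ t) D)) :=
        MonComp.or h1 (Or.inr (Wire.rf_mem hb hf a)) (Or.inr (Wire.rf_mem hb hf b))
      exact key _ _ _ (s + 2) (by omega) h2 (fun x hx => Or.inr (Or.inr hx))
        (Or.inr (Or.inl rfl)) (Or.inl rfl) ((Wire.rail hK a).and (Wire.rail hK b))
    | or a b =>
      have h1 : MonComp (s + 1) (insert (a.rf τ f ∩ b.rf τ f) D) :=
        MonComp.and hD (Wire.rf_mem hb hf a) (Wire.rf_mem hb hf b)
      have h2 : MonComp (s + 2) (insert (a.rt τ t ∪ b.rt τ t)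
          (insert (a.rf τ f ∩ b.rf τ f) D)) :=
        MonComp.or h1 (Or.inr (Wire.rt_mem hb ht a)) (Or.inr (Wire.rt_mem hb ht b))
      exact key _ _ _ (s + 2) (by omega) h2 (fun x hx => Or.inr (Or.inr hx))
        (Or.inl rfl) (Or.inr (Or.inl rfl)) ((Wire.rail hK a).or (Wire.rail hK b))
    | not a =>
      exact key _ _ D s (by omega) hD (fun x hx => hx) (Wire.rf_mem hb hf a)
        (Wire.rt_mem hb ht a) (Wire.rail hK a).not

/-- The sets at which the three-valued value is `true` form a family of small monotone
complexity. -/
theorem monSize_kval (τ : V → Option W) (C : Circuit V) (out : Wire V) :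
    MonSize (2 * C.size) {X | C.kval (partIn τ X) out = some true} := by
  obtain ⟨s, hs, D, hD, t, f, ht, hf, hK⟩ := rails τ C
  refine ⟨s, hs, D, hD, ?_⟩
  have h := Wire.rail (τ := τ) (l := fun X => gateKvals (partIn τ X) C []) hK out
  have e : {X | C.kval (partIn τ X) out = some true} = out.rt τ t := by
    ext X
    exact (h X).1
  rw [e]
  exact Wire.rt_mem hD.base_subset ht out

end Pool.Agent.NegLim
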