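import Pool.Agent.Zeros.WDefs
import Pool.Agent.Zeros.Rails

/-!
# Circuits of small negation width read few zeros
-/

namespace Pool.Agent.NegLim

open Finset

set_option linter.unusedSectionVars false

variable {V : Type} [DecidableEq V]

/-- A term is true under a partial input. -/
def TOK (ρ : V → Option Bool) (t : Finset V × Finset V) : Prop :=
  (∀ v ∈ t.1, ρ v = some true) ∧ ∀ v ∈ t.2, ρ v = some false

lemma TOK.union {ρ : V → Option Bool} {s s' : Finset V × Finset V} :
    TOK ρ (s.1 ∪ s'.1, s.2 ∪ s'.2) ↔ TOK ρ s ∧ TOK ρ s' := by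
  unfold TOK
  simp only [mem_union]
  constructor
  · rintro ⟨h1, h2⟩
    exact ⟨⟨fun v hv => h1 v (Or.inl hv), fun v hv => h2 v (Or.inl hv)⟩,
      ⟨fun v hv => h1 v (Or.inr hv), fun v hv => h2 v (Or.inr hv)⟩⟩
  · rintro ⟨⟨h1, h2⟩, ⟨h3, h4⟩⟩
    exact ⟨fun v hv => hv.elim (h1 v) (h3 v), fun v hv => hv.elim (h2 v) (h4 v)⟩

/-- The terms produced determine the three-valued value `true`. -/
def TermsOK (ρ : V → Option Bool) (vals : List (Option Bool))
    (ts : List (Set (Finset V × Finset V))) : Prop :=
  ts.length = vals.length ∧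
    ∀ i, (∃ t ∈ ts.getD i ∅, TOK ρ t) → vals.getD i (some false) = some true

lemma Wire.terms_ok {ρ : V → Option Bool} {vals : List (Option Bool)}
    {ts : List (Set (Finset V × Finset V))} (h : TermsOK ρ vals ts) (a : Wire V)
    (ht : ∃ t ∈ a.terms ts, TOK ρ t) : a.kval ρ vals = some true := by
  obtain ⟨t, ht, h1⟩ := ht
  cases a with
  | var v =>
    simp only [Wire.terms, Set.mem_singleton_iff] at ht
    rw [ht] at h1
    exact h1.1 v (mem_singleton_self v)
  | const b =>
    cases b with
    | false => exact absurd ht (by simp [Wire.terms])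
    | true => rfl
  | gate i => exact h.2 i ⟨t, ht, h1⟩

lemma Gate.terms_ok {ρ : V → Option Bool} {vals : List (Option Bool)}
    {ts : List (Set (Finset V × Finset V))} (h : TermsOK ρ vals ts) (g : Gate V)
    (ht : ∃ t ∈ g.terms ts, TOK ρ t) : g.kval ρ vals = some true := by
  obtain ⟨t, ht, h1⟩ := ht
  cases g with
  | and a b =>
    obtain ⟨s, hs, s', hs', rfl⟩ := ht
    rw [TOK.union] at h1
    have e1 := Wire.terms_ok h a ⟨s, hs, h1.1⟩
    have e2 := Wire.terms_ok h b ⟨s', hs', h1.2⟩
    simp only [Gate.kval, e1, e2]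
    rfl
  | or a b =>
    simp only [Gate.kval]
    rcases ht with ht | ht
    · have e1 := Wire.terms_ok h a ⟨t, ht, h1⟩
      simp [kOr, e1]
    · have e1 := Wire.terms_ok h b ⟨t, ht, h1⟩
      simp [kOr, e1]
  | not a =>
    cases a with
    | var v =>
      simp only [Gate.terms, Set.mem_singleton_iff] at ht
      rw [ht] at h1
      have h2 := h1.2 v (mem_singleton_self v)
      simp [Gate.kval, Wire.kval, kNot, h2]
    | const b =>
      cases b with
      | false => rfl
      | true => exact absurd ht (by simp [Gate.terms])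
    | gate i => exact absurd ht (by simp [Gate.terms])

lemma gateTerms_ok {ρ : V → Option Bool} (C : Circuit V) :
    ∀ (vals : List (Option Bool)) (ts : List (Set (Finset V × Finset V))),
      TermsOK ρ vals ts → TermsOK ρ (gateKvals ρ C vals) (gateTerms C ts) := by
  induction C with
  | nil => intro vals ts h; exact h
  | cons g C ih =>
    intro vals ts h
    simp only [gateKvals, gateTerms]
    apply ih
    refine ⟨by simp [h.1], fun i => ?_⟩
    rw [getD_snoc, getD_snoc, h.1]
    split_ifs
    · exact h.2 i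
    · exact Gate.terms_ok h g
    · rintro ⟨t, ht, _⟩
      exact absurd ht (by simp)

/-- The terms produced cover the accepted inputs. -/
def TermsCov (x : V → Bool) (vals : List Bool) (ts : List (Set (Finset V × Finset V))) : Prop :=
  ts.length = vals.length ∧
    ∀ i, vals.getD i false = true → ∃ t ∈ ts.getD i ∅, TOK (fun v => some (x v)) t

lemma Wire.terms_cov {x : V → Bool} {vals : List Bool}
    {ts : List (Set (Finset V × Finset V))} (h : TermsCov x vals ts) (a : Wire V)
    (ha : a.val x vals = true) : ∃ t ∈ a.terms ts, TOK (fun v => some (x v)) t := by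
  cases a with
  | var v =>
    refine ⟨({v}, ∅), rfl, ?_, by simp⟩
    intro v' hv'
    rw [mem_singleton] at hv'
    rw [hv']
    exact congrArg some ha
  | const b =>
    cases b with
    | false => exact absurd ha (by simp [Wire.val])
    | true => exact ⟨(∅, ∅), rfl, by simp, by simp⟩
  | gate i => exact h.2 i ha

lemma Gate.terms_cov {x : V → Bool} {vals : List Bool}
    {ts : List (Set (Finset V × Finset V))} (h : TermsCov x vals ts) (g : Gate V)
    (hg : ∀ a, g = Gate.not a → ∃ v, a = Wire.var v)
    (ha : g.val x vals = true) : ∃ t ∈ g.terms ts, TOK (fun v => some (x v)) t := by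
  cases g with
  | and a b =>
    simp only [Gate.val, Bool.and_eq_true] at ha
    obtain ⟨s, hs, h1⟩ := Wire.terms_cov h a ha.1
    obtain ⟨s', hs', h2⟩ := Wire.terms_cov h b ha.2
    exact ⟨_, ⟨s, hs, s', hs', rfl⟩, TOK.union.mpr ⟨h1, h2⟩⟩
  | or a b =>
    simp only [Gate.val, Bool.or_eq_true] at ha
    rcases ha with ha | ha
    · obtain ⟨s, hs, h1⟩ := Wire.terms_cov h a ha
      exact ⟨s, Or.inl hs, h1⟩
    · obtain ⟨s, hs, h1⟩ := Wire.terms_cov h b ha
      exact ⟨s, Or.inr hs, h1⟩
  | not a =>
    obtain ⟨v, rfl⟩ := hg a rfl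
    refine ⟨(∅, {v}), rfl, by simp, ?_⟩
    intro v' hv'
    rw [mem_singleton] at hv'
    rw [hv']
    simp only [Gate.val, Wire.val, Bool.not_eq_true'] at ha
    exact congrArg some ha

lemma gateTerms_cov {x : V → Bool} (C : Circuit V) (hC : C.DeMorgan) :
    ∀ (vals : List Bool) (ts : List (Set (Finset V × Finset V))),
      TermsCov x vals ts → TermsCov x (gateVals x C vals) (gateTerms C ts) := by
  induction C with
  | nil => intro vals ts h; exact h
  | cons g C ih =>
    intro vals ts h
    simp only [gateVals, gateTerms]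
    apply ih (fun a ha => hC a (List.mem_cons_of_mem _ ha))
    refine ⟨by simp [h.1], fun i => ?_⟩
    rw [getD_snoc, getD_snoc, h.1]
    split_ifs
    · exact h.2 i
    · refine Gate.terms_cov h g (fun a ha => hC a ?_)
      rw [← ha]
      exact List.mem_cons_self
    · intro h1
      exact absurd h1 (by simp)

/-- A De Morgan circuit of negation width at most `k` accepts reading at most `k` zeros. -/
theorem Circuit.acceptsWithZeros_of_negWidth {C : Circuit V} (hC : C.DeMorgan) {out : Wire V}
    {k : ℝ} (hk : C.NegWidthLe out k) {x : V → Bool} (hx : C.val x out = true) :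
    C.AcceptsWithZeros out x k := by
  have h0 : TermsCov x [] ([] : List (Set (Finset V × Finset V))) :=
    ⟨rfl, fun i h => absurd h (by simp)⟩
  obtain ⟨t, ht, h1, h2⟩ := Wire.terms_cov (gateTerms_cov C hC [] [] h0) out hx
  have hd : Disjoint t.1 t.2 := by
    rw [Finset.disjoint_left]
    intro v hv hv'
    have e1 := h1 v hv
    rw [h2 v hv'] at e1
    exact absurd e1 (by simp)
  refine ⟨t.2, hk t ht hd, ?_⟩
  have h3 : TermsOK (onesAnd x t.2) [] ([] : List (Set (Finset V × Finset V))) := by
    refine ⟨rfl, fun i h => ?_⟩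
    obtain ⟨s, hs, _⟩ := h
    exact absurd hs (by simp)
  refine Wire.terms_ok (gateTerms_ok C [] [] h3) out ⟨t, ht, ?_, ?_⟩
  · intro v hv
    have e := Option.some.inj (h1 v hv)
    unfold onesAnd
    rw [if_pos e]
  · intro v hv
    have e := Option.some.inj (h2 v hv)
    unfold onesAnd
    rw [if_neg (by rw [e]; simp), if_pos hv]

end Pool.Agent.NegLim
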