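import Pool.Agent.Zeros.ELang

/-!
# Exponential time from the polynomial-time calculus on padded inputs
-/

namespace Pool.Agent.NegLim.Zeros

open Finset Pool.Agent.PolyTime Pool.Agent.NegLim.Lang Turing

/-- A monomial bound for a polynomial. -/
lemma mono_bound (P : Polynomial ℕ) : ∃ C e : ℕ, ∀ n, 1 ≤ n → P.eval n ≤ C * n ^ e := by
  refine ⟨∑ i ∈ Finset.range (P.natDegree + 1), P.coeff i, P.natDegree, ?_⟩
  intro n hn
  rw [Polynomial.eval_eq_sum_range, Finset.sum_mul]
  refine Finset.sum_le_sum fun i hi => ?_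
  apply Nat.mul_le_mul_left
  exact Nat.pow_le_pow_right hn (by rw [Finset.mem_range] at hi; omega)

lemma polyTime_of_pd (P : List Bool → Prop) [DecidablePred P]
    (hP : PD (fun y (_ : Unit) => P y)) :
    Nonempty (TM2ComputableInPolyTime (id : List Bool → List Bool)
      (id : List Bool → List Bool) (fun y => [decide (P y)])) := by
  apply PFBits.polyTime
  obtain ⟨F, hF, hFP⟩ := hP
  refine ⟨fun _ => 1, fun w _ => F w (), PF.const 1, hF.fst.congr fun _ _ => rfl, ?_⟩
  intro w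
  have h : decide (F w () ≠ 0) = decide (P w) := decide_eq_decide.mpr (hFP w ()).symm
  simp [List.range_succ, h]

theorem exp_pad (P : List Bool → Prop) [DecidablePred P] (hP : PD (fun y (_ : Unit) => P y)) :
    ∃ (M : TM2ComputableAux Bool Bool) (C e : ℕ), ∀ x : List Bool,
      OutIn M x [decide (P (pad x))] (C * (2 ^ x.length) ^ e) := by
  obtain ⟨M1, hM1⟩ := pad_outIn
  obtain ⟨Q⟩ := polyTime_of_pd P hP
  let M2 : TM2ComputableAux Bool Bool :=
    { tm := Q.tm, inputAlphabet := Q.inputAlphabet, outputAlphabet := Q.outputAlphabet }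
  obtain ⟨C, e, hCe⟩ := mono_bound Q.time
  refine ⟨compAux M1 M2, 37 + C * 3 ^ e, e + 1, fun x => ?_⟩
  have hy : OutIn M2 (pad x) [decide (P (pad x))] (Q.time.eval (pad x).length) :=
    ⟨Q.outputsFun (pad x)⟩
  refine (OutIn.comp (hM1 x) hy).mono ?_
  have hlt : x.length < 2 ^ x.length := Nat.lt_two_pow_self
  have hP1 : 1 ≤ 2 ^ x.length := Nat.one_le_two_pow
  have hlen := length_pad x
  set p := 2 ^ x.length with hp
  have h1 : (pad x).length ≤ 3 * p := by omega
  have h2 : Q.time.eval (pad x).length ≤ C * (3 * p) ^ e :=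
    (hCe _ (by omega)).trans (Nat.mul_le_mul_left _ (Nat.pow_le_pow_left h1 e))
  have h3 : C * (3 * p) ^ e ≤ C * 3 ^ e * p ^ (e + 1) := by
    rw [mul_pow, ← mul_assoc]
    exact Nat.mul_le_mul_left _ (Nat.pow_le_pow_right hP1 (by omega))
  have h4 : p ≤ p ^ (e + 1) := by
    calc p = p ^ 1 := (pow_one p).symm
      _ ≤ p ^ (e + 1) := Nat.pow_le_pow_right hP1 (by omega)
  calc 24 * p + 7 + 2 * ((pad x).length + 1) + Q.time.eval (pad x).length
      ≤ 37 * p + C * 3 ^ e * p ^ (e + 1) := by omega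
    _ ≤ 37 * p ^ (e + 1) + C * 3 ^ e * p ^ (e + 1) := by omega
    _ = (37 + C * 3 ^ e) * p ^ (e + 1) := by ring

theorem exp_take (P : List Bool → Prop) [DecidablePred P] (hP : PD (fun y (_ : Unit) => P y)) :
    ∃ d : ℕ, 1 ≤ d ∧ ∃ c : ℕ,
      DecidableInTime (fun x => decide (P (pad (x.take (x.length / d))))) (fun n => c * 2 ^ n) := by
  obtain ⟨M2, C, e, hM2⟩ := exp_pad P hP
  refine ⟨e + 1, by omega, ?_⟩
  obtain ⟨Q⟩ := take_polyTime (e + 1)
  let M1 : TM2ComputableAux Bool Bool :=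
    { tm := Q.tm, inputAlphabet := Q.inputAlphabet, outputAlphabet := Q.outputAlphabet }
  obtain ⟨C1, e1, hCe⟩ := mono_bound Q.time
  obtain ⟨C2, hC2⟩ := pow_le_two_pow e1
  refine ⟨C1 * C2 * 2 + 4 + C, compAux M1 M2, fun x => ?_⟩
  have hy : OutIn M1 x (x.take (x.length / (e + 1))) (Q.time.eval x.length) :=
    ⟨Q.outputsFun x⟩
  refine ((OutIn.comp hy (hM2 (x.take (x.length / (e + 1))))).mono ?_ :
    OutIn (compAux M1 M2) x [decide (P (pad (x.take (x.length / (e + 1)))))] _)
  set n := x.length with hn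
  have hlen : (x.take (n / (e + 1))).length = n / (e + 1) := by
    rw [List.length_take]
    exact min_eq_left (Nat.div_le_self _ _)
  rw [hlen]
  have hlt : n < 2 ^ n := Nat.lt_two_pow_self
  have h1 : Q.time.eval n ≤ C1 * C2 * 2 * 2 ^ n := by
    calc Q.time.eval n ≤ Q.time.eval (n + 1) := PolyTime.eval_mono _ (Nat.le_succ n)
      _ ≤ C1 * (n + 1) ^ e1 := hCe _ (by omega)
      _ ≤ C1 * (C2 * 2 ^ (n + 1)) := Nat.mul_le_mul_left _ (hC2 (n + 1))
      _ = C1 * C2 * 2 * 2 ^ n := by ring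
  have h2 : C * (2 ^ (n / (e + 1))) ^ e ≤ C * 2 ^ n := by
    apply Nat.mul_le_mul_left
    rw [← pow_mul]
    apply Nat.pow_le_pow_right (by norm_num)
    calc n / (e + 1) * e ≤ n / (e + 1) * (e + 1) := Nat.mul_le_mul_left _ (by omega)
      _ ≤ n := Nat.div_mul_le_self _ _
  have h3 : n / (e + 1) ≤ n := Nat.div_le_self _ _
  have h4 : (C1 * C2 * 2 + 4 + C) * 2 ^ n = C1 * C2 * 2 * 2 ^ n + 4 * 2 ^ n + C * 2 ^ n := by ring
  show _ ≤ (C1 * C2 * 2 + 4 + C) * 2 ^ n
  rw [h4]
  omega

open Classical in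
/-- The language: the first `⌊n / d⌋` letters of the word have the property `Sem`. -/
noncomputable def zlang (d : ℕ) (x : List Bool) : Bool :=
  decide (Sem (x.length / d) (fun i => (x.take (x.length / d)).getD i false))

open Classical in
lemma zlang_iff (d : ℕ) (x : List Bool) : zlang d x = true ↔
    Sem (x.length / d) (fun i => (x.take (x.length / d)).getD i false) := by
  unfold zlang
  exact decide_eq_true_iff

open Classical in
theorem zlang_time : ∃ d : ℕ, 1 ≤ d ∧ ∃ c : ℕ,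
    DecidableInTime (zlang d) (fun n => c * 2 ^ n) := by
  obtain ⟨d, hd, c, hc⟩ := exp_take PLV pd_plv
  refine ⟨d, hd, c, ?_⟩
  have h : zlang d = fun x => decide (PLV (pad (x.take (x.length / d)))) := by
    funext x
    rw [Bool.eq_iff_iff, zlang_iff, decide_eq_true_iff, plv_pad, List.length_take,
      min_eq_left (Nat.div_le_self _ _)]
  rw [h]
  exact hc

end Pool.Agent.NegLim.Zeros
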