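import Pool.Agent.Zeros.Lines

/-!
# The lower bound, with parameters
-/

namespace Pool.Agent.NegLim.Zeros

open Finset
open scoped BigOperators

set_option linter.unusedSectionVars false

variable {p : ℕ} [Fact p.Prime] {c N r : ℕ}
variable {V : Type} [Fintype V] [DecidableEq V] (pos : Fin N × (Fin r → ZMod p) ↪ V)

open Classical in
/-- The part of the graph of `y` on the lines through the graph of `g`, if all of it is there. -/
noncomputable def onLines (g : Fin c → Fin r → ZMod p) (e : Fin r → ZMod p)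
    (y : Fin c → Fin r → ZMod p) : Finset (Fin N × ZMod p) :=
  if h : ∀ i : Fin N, ∃ a : ZMod p, ev g (i : ℕ) + a • e = ev y (i : ℕ) then
    univ.image (fun i : Fin N => (i, (h i).choose)) else univ

lemma card_onLines (g : Fin c → Fin r → ZMod p) (e : Fin r → ZMod p)
    (y : Fin c → Fin r → ZMod p) : N ≤ (onLines (N := N) g e y).card := by
  classical
  unfold onLines
  split_ifs with h
  · rw [card_image_of_injective _ (fun i j hij => (Prod.ext_iff.mp hij).1), Finset.card_univ,
      Fintype.card_fin]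
  · rw [Finset.card_univ, Fintype.card_prod, Fintype.card_fin, ZMod.card]
    exact Nat.le_mul_of_pos_right _ (Fact.out : p.Prime).pos

lemma onLines_subset {g : Fin c → Fin r → ZMod p} {e : Fin r → ZMod p} (he : e ≠ 0)
    {y : Fin c → Fin r → ZMod p} {X : Finset (Fin N × ZMod p)}
    (h : ∀ i : Fin N, zin pos g e X (pos (i, ev y (i : ℕ))) = true) : onLines g e y ⊆ X := by
  classical
  have h1 : ∀ i : Fin N, ∃ a : ZMod p, ev g (i : ℕ) + a • e = ev y (i : ℕ) ∧ (i, a) ∈ X := by
    intro i
    obtain ⟨q, hq, hqv⟩ := (zin_iff pos).mp (h i)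
    have h2 := pos.injective hqv
    have h3 : q.1 = i := (Prod.ext_iff.mp h2).1
    have h4 := (Prod.ext_iff.mp h2).2
    simp only at h4
    rw [h3] at h4
    refine ⟨q.2, h4, ?_⟩
    rw [← h3]
    exact hq
  have h2 : ∀ i : Fin N, ∃ a : ZMod p, ev g (i : ℕ) + a • e = ev y (i : ℕ) :=
    fun i => ⟨(h1 i).choose, (h1 i).choose_spec.1⟩
  unfold onLines
  rw [dif_pos h2]
  intro q hq
  rw [mem_image] at hq
  obtain ⟨i, _, rfl⟩ := hq
  have h3 := (h2 i).choose_spec
  obtain ⟨a, ha, haX⟩ := h1 i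
  have h4 : (h2 i).choose = a := by
    have h5 : (h2 i).choose • e = a • e := add_left_cancel (h3.trans ha.symm)
    have h6 : ((h2 i).choose - a) • e = 0 := by rw [sub_smul, h5, sub_self]
    rcases smul_eq_zero.mp h6 with h7 | h7
    · exact sub_eq_zero.mp h7
    · exact absurd h7 he
  rw [h4]
  exact haX

/-- The bound on one family of lines, for a fixed set of zeros read. -/
lemma line_bound (w M L k : ℕ) (hw : 1 ≤ w) (hN : 2 * w ≤ N) (hNp : N ≤ p)
    (hM : 256 * (M + 1) ≤ p) (hL : 2 * w < 2 ^ L) (hLk : 1 ≤ L * k)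
    (hk : (N * p + 1) ^ (2 * w) * 4 ^ w ≤ 4 ^ k) (hr : 2 * (L * k) ≤ M + 1)
    {La : (V → Bool) → Prop}
    (hLa : ∀ x : V → Bool, (∀ v, (∀ q, pos q ≠ v) → x v = false) → La x →
      ∃ y : Fin (2 * w) → Fin r → ZMod p, ∀ i : Fin N, x (pos (i, ev y (i : ℕ))) = true)
    (C : Circuit V) (out : Wire V) (hC : ∀ x, C.val x out = true → La x)
    (g : Fin (2 * w) → Fin r → ZMod p) {e : Fin r → ZMod p} (he : e ≠ 0)
    (S : Finset (Fin N × ZMod p)) :
    (𝔼 u : Fin (2 * w) → ZMod p,
        ind {X | C.kval (partIn (tau pos g e S) X) out = some true} (graph N u)) ≤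
      (Fintype.card (Fin (2 * w) → Fin r → ZMod p) : ℝ) * (1 / 2) ^ N
        + ((2 * C.size : ℕ) : ℝ) * (2 * (1 / 4 : ℝ) ^ w) := by
  classical
  have hq0 : (0 : ℝ) < p := by exact_mod_cast (Fact.out : p.Prime).pos
  have h1 := domination2 (fun u : Fin (2 * w) → ZMod p => graph N u) M L k w (p : ℝ) hq0 hLk hw
    (by exact_mod_cast hM) hL (spread_graph w hN hNp)
    (by
      rw [Fintype.card_prod, Fintype.card_fin, ZMod.card]
      have h1 : (((N * p : ℕ) : ℝ) + 1) ^ (2 * w) * 4 ^ w ≤ 4 ^ k := by exact_mod_cast hk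
      have h2 : (1 / 4 : ℝ) ^ k = 1 / 4 ^ k := by rw [one_div, inv_pow, one_div]
      have h3 : (1 / 4 : ℝ) ^ w = 1 / 4 ^ w := by rw [one_div, inv_pow, one_div]
      rw [h2, h3, mul_one_div, div_le_div_iff₀ (by positivity) (by positivity)]
      linarith)
    (monSize_kval (tau pos g e S) C out) ∅
  simp only [empty_union] at h1
  refine h1.trans ?_
  have h2 : ind {X | C.kval (partIn (tau pos g e S) X) out = some true} ≤
      ind (upFam (fun y : Fin (2 * w) → Fin r → ZMod p => onLines (N := N) g e y)) := by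
    apply ind_mono
    intro X hX
    have h3 : C.val (zin pos g e (X \ S)) out = true :=
      C.val_of_kval (fun v => partIn_sound pos S X v) hX
    obtain ⟨y, hy⟩ := hLa _ (by
      intro v hv
      rw [← Bool.not_eq_true, zin_iff]
      rintro ⟨q, _, hq⟩
      exact hv _ hq) (hC _ h3)
    exact ⟨y, (onLines_subset pos he hy).trans sdiff_subset⟩
  have h3 := nz_pow_mono M (L * k) h2 ∅
  have h4 := upFam_prob (fun y : Fin (2 * w) → Fin r → ZMod p => onLines (N := N) g e y)
    M (L * k) N hr (fun y => card_onLines g e y)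
  linarith

/-- The number of subsets with at most `m` elements. -/
lemma card_small_subsets {A : Type} [Fintype A] [DecidableEq A] (m : ℕ) :
    ((univ : Finset (Finset A)).filter (fun S => S.card ≤ m)).card ≤
      (Fintype.card A + 1) ^ m := by
  classical
  have h : (univ : Finset (Finset A)).filter (fun S => S.card ≤ m) ⊆
      (univ : Finset (Fin m → Option A)).image
        (fun f => univ.filter (fun a => ∃ i, f i = some a)) := by
    intro S hS
    rw [mem_filter] at hS
    rw [mem_image]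
    refine ⟨fun i => if h : (i : ℕ) < S.card then some (S.equivFin.symm ⟨i, h⟩).val else none,
      mem_univ _, ?_⟩
    ext a
    rw [mem_filter]
    constructor
    · rintro ⟨_, i, hi⟩
      beta_reduce at hi
      split_ifs at hi with h
      rw [← Option.some.inj hi]
      exact (S.equivFin.symm ⟨i, h⟩).property
    · intro ha
      refine ⟨mem_univ _, ⟨(S.equivFin ⟨a, ha⟩ : ℕ), lt_of_lt_of_le (Fin.is_lt _) hS.2⟩, ?_⟩
      simp
  refine (card_le_card h).trans (card_image_le.trans ?_)
  rw [Finset.card_univ, Fintype.card_fun, Fintype.card_option, Fintype.card_fin]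

lemma card_eq_expect {U : Type} [Fintype U] [Nonempty U] {W : Type} [Fintype W] [DecidableEq W]
    (cw : U → Finset W) (G : Set (Finset W)) [DecidablePred (fun u => cw u ∈ G)] :
    (((univ : Finset U).filter (fun u => cw u ∈ G)).card : ℝ) =
      Fintype.card U * 𝔼 u : U, ind G (cw u) := by
  rw [Fintype.expect_eq_sum_div_card, mul_div_cancel₀ _ (by
    have : 0 < Fintype.card U := Fintype.card_pos
    positivity), Finset.card_filter]
  push_cast
  refine Finset.sum_congr rfl fun u _ => ?_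
  by_cases h : cw u ∈ G
  · rw [if_pos h, ind_of_mem h]
  · rw [if_neg h, ind_of_notMem h]

/-- Some set of at most `m` zeros on the lines suffices. -/
def BadU (m : ℕ) (C : Circuit V) (out : Wire V) (g : Fin c → Fin r → ZMod p)
    (e : Fin r → ZMod p) (u : Fin c → ZMod p) : Prop :=
  ∃ S : Finset (Fin N × ZMod p), S.card ≤ m ∧
    C.kval (partIn (tau pos g e S) (graph N u)) out = some true

open Classical in
lemma card_bad (w m : ℕ) (η : ℝ) (C : Circuit V) (out : Wire V)
    (g : Fin (2 * w) → Fin r → ZMod p) (e : Fin r → ZMod p) (hη : 0 ≤ η)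
    (h : ∀ S : Finset (Fin N × ZMod p), (𝔼 u : Fin (2 * w) → ZMod p,
        ind {X | C.kval (partIn (tau pos g e S) X) out = some true} (graph N u)) ≤ η) :
    (((univ : Finset (Fin (2 * w) → ZMod p)).filter (fun u => BadU pos m C out g e u)).card : ℝ)
      ≤ (p : ℝ) ^ (2 * w) * (((N * p + 1 : ℕ) : ℝ) ^ m * η) := by
  have h1 : (univ : Finset (Fin (2 * w) → ZMod p)).filter (fun u => BadU pos m C out g e u) ⊆
      ((univ : Finset (Finset (Fin N × ZMod p))).filter (fun S => S.card ≤ m)).biUnion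
        (fun S => univ.filter (fun u => graph N u ∈
          {X | C.kval (partIn (tau pos g e S) X) out = some true})) := by
    intro u hu
    rw [mem_filter] at hu
    obtain ⟨S, hS, hk⟩ := hu.2
    rw [mem_biUnion]
    exact ⟨S, by rw [mem_filter]; exact ⟨mem_univ _, hS⟩, by
      rw [mem_filter]; exact ⟨mem_univ _, hk⟩⟩
  have h2 := (card_le_card h1).trans card_biUnion_le
  have hU : (Fintype.card (Fin (2 * w) → ZMod p) : ℝ) = (p : ℝ) ^ (2 * w) := by
    rw [Fintype.card_fun, ZMod.card, Fintype.card_fin]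
    push_cast
    rfl
  have h3 : ∀ S ∈ (univ : Finset (Finset (Fin N × ZMod p))).filter (fun S => S.card ≤ m),
      (((univ : Finset (Fin (2 * w) → ZMod p)).filter (fun u => graph N u ∈
          {X | C.kval (partIn (tau pos g e S) X) out = some true})).card : ℝ)
        ≤ (p : ℝ) ^ (2 * w) * η := by
    intro S _
    rw [card_eq_expect (fun u : Fin (2 * w) → ZMod p => graph N u), hU]
    exact mul_le_mul_of_nonneg_left (h S) (by positivity)
  have h4 : (((univ : Finset (Fin (2 * w) → ZMod p)).filter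
      (fun u => BadU pos m C out g e u)).card : ℝ) ≤
      ∑ S ∈ (univ : Finset (Finset (Fin N × ZMod p))).filter (fun S => S.card ≤ m),
        (((univ : Finset (Fin (2 * w) → ZMod p)).filter (fun u => graph N u ∈
          {X | C.kval (partIn (tau pos g e S) X) out = some true})).card : ℝ) := by
    exact_mod_cast h2
  refine h4.trans ((Finset.sum_le_sum h3).trans ?_)
  rw [Finset.sum_const, nsmul_eq_mul]
  have h5 : ((((univ : Finset (Finset (Fin N × ZMod p))).filter
      (fun S => S.card ≤ m)).card : ℕ) : ℝ) ≤ ((N * p + 1 : ℕ) : ℝ) ^ m := by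
    have := card_small_subsets (A := Fin N × ZMod p) m
    rw [Fintype.card_prod, Fintype.card_fin, ZMod.card] at this
    exact_mod_cast this
  calc _ ≤ ((N * p + 1 : ℕ) : ℝ) ^ m * ((p : ℝ) ^ (2 * w) * η) :=
        mul_le_mul_of_nonneg_right h5 (by positivity)
    _ = _ := by ring

/-- The zeros read on the lines through the graph of `y` in the direction `e`. -/
noncomputable def onDir (y : Fin c → Fin r → ZMod p) (e : Fin r → ZMod p) (S0 : Finset V) :
    Finset V :=
  open Classical in S0.filter (fun v => xg pos y v = false ∧ ∃ q, emb pos y e q = v)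

lemma lin_lin_neg (y : Fin c → Fin r → ZMod p) (u : Fin c → ZMod p) (e : Fin r → ZMod p) :
    lin (lin y (-u) e) u e = y := by
  funext j
  simp [lin]

lemma readS_card {y : Fin c → Fin r → ZMod p} {e : Fin r → ZMod p} (he : e ≠ 0)
    (u : Fin c → ZMod p) (S0 : Finset V) :
    (readS pos (lin y (-u) e) u e S0 : Finset (Fin N × ZMod p)).card ≤
      (onDir pos y e S0).card := by
  classical
  refine Finset.card_le_card_of_injOn (emb pos (lin y (-u) e) e) ?_
    ((emb_inj pos _ he).injOn)
  intro q hq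
  unfold readS at hq
  rw [Finset.mem_coe, mem_filter, lin_lin_neg] at hq
  obtain ⟨_, h1, h2⟩ := hq
  unfold onDir
  rw [Finset.mem_coe, mem_filter]
  refine ⟨h1, h2, (q.1, pval (-u) (q.1 : ℕ) + q.2), ?_⟩
  unfold emb
  simp only
  rw [ev_lin, add_smul, add_assoc]

/-- For every zero there are few directions. -/
lemma card_dirs (y : Fin c → Fin r → ZMod p) {v : V} (hv : xg pos y v = false)
    [DecidablePred (fun e : Fin r → ZMod p => e ≠ 0 ∧ ∃ q, emb pos y e q = v)] :
    ((univ : Finset (Fin r → ZMod p)).filter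
      (fun e => e ≠ 0 ∧ ∃ q, emb pos y e q = v)).card ≤ p - 1 := by
  classical
  by_cases h : ∃ (i : Fin N) (b : Fin r → ZMod p), pos (i, b) = v
  · obtain ⟨i, b, hib⟩ := h
    have h1 : (univ : Finset (Fin r → ZMod p)).filter
        (fun e => e ≠ 0 ∧ ∃ q, emb pos y e q = v) ⊆
        ((univ : Finset (ZMod p)).erase 0).image (fun μ => μ • (b - ev y (i : ℕ))) := by
      intro e he
      rw [mem_filter] at he
      obtain ⟨_, he0, q, hq⟩ := he
      have h2 : pos (q.1, ev y (q.1 : ℕ) + q.2 • e) = pos (i, b) := hq.trans hib.symm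
      have h3 := pos.injective h2
      have h4 : q.1 = i := (Prod.ext_iff.mp h3).1
      have h5 := (Prod.ext_iff.mp h3).2
      simp only at h5
      rw [h4] at h5
      have h6 : q.2 ≠ 0 := by
        intro h0
        rw [h0, zero_smul, add_zero] at h5
        have h7 : xg pos y v = true := (xg_iff pos y v).mpr ⟨i, by rw [h5]; exact hib⟩
        rw [h7] at hv
        exact absurd hv (by simp)
      rw [mem_image]
      refine ⟨q.2⁻¹, ?_, ?_⟩
      · rw [mem_erase]
        exact ⟨inv_ne_zero h6, mem_univ _⟩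
      · rw [← h5, add_sub_cancel_left, smul_smul, inv_mul_cancel₀ h6, one_smul]
    refine (card_le_card h1).trans (card_image_le.trans ?_)
    rw [card_erase_of_mem (mem_univ _), Finset.card_univ, ZMod.card]
  · have h1 : (univ : Finset (Fin r → ZMod p)).filter
        (fun e => e ≠ 0 ∧ ∃ q, emb pos y e q = v) = ∅ := by
      rw [Finset.filter_eq_empty_iff]
      rintro e _ ⟨_, q, hq⟩
      exact h ⟨q.1, _, hq⟩
    rw [h1]
    simp

open Classical in
/-- The directions for which few zeros are read on the lines. -/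
lemma good_dirs (m K : ℕ) (hK : 2 * (K * (p - 1)) ≤ (m + 1) * (p ^ r - 1))
    (y : Fin c → Fin r → ZMod p) (S0 : Finset V) (hS0 : S0.card ≤ K) :
    p ^ r - 1 ≤ 2 * ((univ : Finset (Fin r → ZMod p)).filter
      (fun e => e ≠ 0 ∧ (onDir pos y e S0).card ≤ m)).card := by
  set E0 : Finset (Fin r → ZMod p) := univ.filter (fun e => e ≠ 0) with hE0
  have hE0c : E0.card = p ^ r - 1 := by
    rw [hE0, Finset.filter_ne' , card_erase_of_mem (mem_univ _), Finset.card_univ,
      Fintype.card_fun, ZMod.card, Fintype.card_fin]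
  set Bd := E0.filter (fun e => ¬ (onDir pos y e S0).card ≤ m) with hBd
  have hsplit : ((univ : Finset (Fin r → ZMod p)).filter
      (fun e => e ≠ 0 ∧ (onDir pos y e S0).card ≤ m)).card + Bd.card = p ^ r - 1 := by
    rw [← hE0c, ← Finset.filter_filter, ← hE0, hBd]
    exact Finset.card_filter_add_card_filter_not (fun e => (onDir pos y e S0).card ≤ m)
  have h1 : Bd.card * (m + 1) ≤ ∑ e ∈ E0, (onDir pos y e S0).card := by
    calc Bd.card * (m + 1) = ∑ _e ∈ Bd, (m + 1) := by rw [Finset.sum_const, smul_eq_mul]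
      _ ≤ ∑ e ∈ Bd, (onDir pos y e S0).card := by
          apply Finset.sum_le_sum
          intro e he
          rw [hBd, mem_filter] at he
          omega
      _ ≤ ∑ e ∈ E0, (onDir pos y e S0).card :=
          Finset.sum_le_sum_of_subset (filter_subset _ _)
  have h2 : ∑ e ∈ E0, (onDir pos y e S0).card ≤ K * (p - 1) := by
    have h3 : ∀ e ∈ E0, (onDir pos y e S0).card =
        ∑ v ∈ S0, if (xg pos y v = false ∧ ∃ q, emb pos y e q = v) then 1 else 0 := by
      intro e _
      unfold onDir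
      rw [Finset.card_filter]
    rw [Finset.sum_congr rfl h3, Finset.sum_comm]
    have h4 : ∀ v ∈ S0, ∑ e ∈ E0, (if (xg pos y v = false ∧ ∃ q, emb pos y e q = v) then 1 else 0)
        ≤ p - 1 := by
      intro v _
      rw [← Finset.card_filter, hE0, Finset.filter_filter]
      by_cases hv : xg pos y v = false
      · have h5 := card_dirs pos y hv
        refine le_trans (card_le_card ?_) h5
        intro e he
        rw [mem_filter] at he ⊢
        exact ⟨he.1, he.2.1, he.2.2.2⟩
      · have h6 : (univ : Finset (Fin r → ZMod p)).filter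
            (fun e => e ≠ 0 ∧ (xg pos y v = false ∧ ∃ q, emb pos y e q = v)) = ∅ := by
          rw [Finset.filter_eq_empty_iff]
          rintro e _ ⟨_, h7, _⟩
          exact hv h7
        rw [h6]
        simp
    refine (Finset.sum_le_sum h4).trans ?_
    rw [Finset.sum_const, smul_eq_mul]
    exact Nat.mul_le_mul_right _ hS0
  have h3 : 2 * Bd.card ≤ p ^ r - 1 := by
    have h4 : (2 * Bd.card) * (m + 1) ≤ (p ^ r - 1) * (m + 1) := by
      calc (2 * Bd.card) * (m + 1) = 2 * (Bd.card * (m + 1)) := by ring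
        _ ≤ 2 * (K * (p - 1)) := Nat.mul_le_mul_left _ (h1.trans h2)
        _ ≤ (m + 1) * (p ^ r - 1) := hK
        _ = (p ^ r - 1) * (m + 1) := mul_comm _ _
    exact Nat.le_of_mul_le_mul_right h4 (Nat.succ_pos m)
  omega

open Classical in
/-- **The lower bound, with parameters.** -/
theorem few_zeros (w M L k m K : ℕ) (hw : 1 ≤ w) (hN : 2 * w ≤ N) (hNp : N ≤ p)
    (hM : 256 * (M + 1) ≤ p) (hL : 2 * w < 2 ^ L) (hLk : 1 ≤ L * k)
    (hk : (N * p + 1) ^ (2 * w) * 4 ^ w ≤ 4 ^ k) (hr : 2 * (L * k) ≤ M + 1) (hr1 : 1 ≤ r)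
    (hK : 2 * (K * (p - 1)) ≤ (m + 1) * (p ^ r - 1))
    {La : (V → Bool) → Prop}
    (hLa : ∀ x : V → Bool, (∀ v, (∀ q, pos q ≠ v) → x v = false) → La x →
      ∃ y : Fin (2 * w) → Fin r → ZMod p, ∀ i : Fin N, x (pos (i, ev y (i : ℕ))) = true)
    (C : Circuit V) (out : Wire V) (hC : ∀ x, C.val x out = true → La x) :
    (((univ : Finset (Fin (2 * w) → Fin r → ZMod p)).filter (fun y =>
        ∃ S0 : Finset V, S0.card ≤ K ∧ C.kval (onesAnd (xg pos y) S0) out = some true)).card : ℝ)
      ≤ 2 * Fintype.card (Fin (2 * w) → Fin r → ZMod p) * (((N * p + 1 : ℕ) : ℝ) ^ m *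
        ((Fintype.card (Fin (2 * w) → Fin r → ZMod p) : ℝ) * (1 / 2) ^ N
        + ((2 * C.size : ℕ) : ℝ) * (2 * (1 / 4 : ℝ) ^ w))) := by
  set η : ℝ := (Fintype.card (Fin (2 * w) → Fin r → ZMod p) : ℝ) * (1 / 2) ^ N
        + ((2 * C.size : ℕ) : ℝ) * (2 * (1 / 4 : ℝ) ^ w) with hη
  have hη0 : 0 ≤ η := by positivity
  set B := (univ : Finset (Fin (2 * w) → Fin r → ZMod p)).filter (fun y =>
        ∃ S0 : Finset V, S0.card ≤ K ∧ C.kval (onesAnd (xg pos y) S0) out = some true) with hB
  have hex : ∀ y : Fin (2 * w) → Fin r → ZMod p, ∃ S0 : Finset V, y ∈ B →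
      (S0.card ≤ K ∧ C.kval (onesAnd (xg pos y) S0) out = some true) := by
    intro y
    by_cases hy : y ∈ B
    · rw [hB, mem_filter] at hy
      obtain ⟨S0, hS0⟩ := hy.2
      exact ⟨S0, fun _ => hS0⟩
    · exact ⟨∅, fun h => absurd h hy⟩
  choose S0 hS0 using hex
  set E0 : Finset (Fin r → ZMod p) := univ.filter (fun e => e ≠ 0) with hE0
  have hE0c : E0.card = p ^ r - 1 := by
    rw [hE0, Finset.filter_ne' , card_erase_of_mem (mem_univ _), Finset.card_univ,
      Fintype.card_fun, ZMod.card, Fintype.card_fin]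
  have hp2 : 2 ≤ p := (Fact.out : p.Prime).two_le
  have hpr : 2 ≤ p ^ r := by
    calc 2 ≤ p := hp2
      _ = p ^ 1 := (pow_one p).symm
      _ ≤ p ^ r := Nat.pow_le_pow_right (by omega) hr1
  have hE0pos : (0 : ℝ) < E0.card := by
    have : 0 < E0.card := by omega
    exact_mod_cast this
  let Gd : (Fin (2 * w) → Fin r → ZMod p) → Finset (Fin r → ZMod p) :=
    fun y => univ.filter (fun e => e ≠ 0 ∧ (onDir pos y e (S0 y)).card ≤ m)
  have hGd : ∀ y ∈ B, E0.card ≤ 2 * (Gd y).card := by
    intro y hy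
    rw [hE0c]
    exact good_dirs pos m K hK y (S0 y) (hS0 y hy).1
  let T1 := B.sigma (fun y => Gd y ×ˢ (univ : Finset (Fin (2 * w) → ZMod p)))
  let T2 := ((univ : Finset (Fin (2 * w) → Fin r → ZMod p)) ×ˢ E0).sigma
    (fun ge => (univ : Finset (Fin (2 * w) → ZMod p)).filter
      (fun u => BadU pos m C out ge.1 ge.2 u))
  have hT : T1.card ≤ T2.card := by
    refine Finset.card_le_card_of_injOn
      (fun t => ⟨(lin t.1 (-t.2.2) t.2.1, t.2.1), t.2.2⟩) ?_ ?_
    · rintro ⟨y, e, u⟩ ht
      rw [Finset.mem_coe, mem_sigma, mem_product] at ht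
      obtain ⟨hy, hG, _⟩ := ht
      have hG' : e ∈ Gd y := hG
      simp only [Gd, mem_filter, mem_univ, true_and] at hG'
      obtain ⟨he, hcard⟩ := hG'
      simp only at hy
      rw [Finset.mem_coe, mem_sigma, mem_product, mem_filter, mem_filter]
      refine ⟨⟨mem_univ _, mem_univ _, he⟩, mem_univ _, ?_⟩
      refine ⟨readS pos (lin y (-u) e) u e (S0 y), (readS_card pos he u (S0 y)).trans hcard, ?_⟩
      have h1 := (hS0 y hy).2
      have h2 := C.kval_inf (fun v => onesAnd_inf pos he u (g := lin y (-u) e) (S0 y) v) out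
      rw [lin_lin_neg] at h2
      exact h2 _ h1
    · rintro ⟨y, e, u⟩ _ ⟨y', e', u'⟩ _ h
      simp only [Sigma.mk.injEq, Prod.mk.injEq] at h
      obtain ⟨⟨h1, h2⟩, h3⟩ := h
      have h4 : u = u' := eq_of_heq h3
      subst h2
      subst h4
      have h5 : y = y' := by
        have h6 := congrArg (fun g => lin g u e) h1
        simp only [lin_lin_neg] at h6
        exact h6
      rw [h5]
  have hU : (Fintype.card (Fin (2 * w) → ZMod p) : ℝ) = (p : ℝ) ^ (2 * w) := by
    rw [Fintype.card_fun, ZMod.card, Fintype.card_fin]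
    push_cast
    rfl
  have hU0 : (0 : ℝ) < (p : ℝ) ^ (2 * w) := by
    have : (0 : ℝ) < p := by exact_mod_cast (Fact.out : p.Prime).pos
    positivity
  have hT1 : (B.card : ℝ) * E0.card * (p : ℝ) ^ (2 * w) ≤ 2 * T1.card := by
    have h1 : (T1.card : ℝ) = ∑ y ∈ B, ((Gd y).card : ℝ) * (p : ℝ) ^ (2 * w) := by
      simp only [T1]
      rw [Finset.card_sigma]
      push_cast
      refine Finset.sum_congr rfl fun y _ => ?_
      rw [Finset.card_product, Finset.card_univ]
      push_cast [hU]
      rw [← hU]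
    rw [h1, Finset.mul_sum]
    have h2 : (B.card : ℝ) * E0.card * (p : ℝ) ^ (2 * w)
        = ∑ _y ∈ B, (E0.card : ℝ) * (p : ℝ) ^ (2 * w) := by
      rw [Finset.sum_const, nsmul_eq_mul]
      ring
    rw [h2]
    apply Finset.sum_le_sum
    intro y hy
    have h3 : (E0.card : ℝ) ≤ 2 * (Gd y).card := by exact_mod_cast hGd y hy
    calc (E0.card : ℝ) * (p : ℝ) ^ (2 * w) ≤ (2 * (Gd y).card) * (p : ℝ) ^ (2 * w) :=
          mul_le_mul_of_nonneg_right h3 hU0.le
      _ = 2 * (((Gd y).card : ℝ) * (p : ℝ) ^ (2 * w)) := by ring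
  have hT2 : (T2.card : ℝ) ≤ Fintype.card (Fin (2 * w) → Fin r → ZMod p) * E0.card *
      ((p : ℝ) ^ (2 * w) * (((N * p + 1 : ℕ) : ℝ) ^ m * η)) := by
    simp only [T2]
    rw [Finset.card_sigma]
    push_cast
    have h1 : ∀ ge ∈ (univ : Finset (Fin (2 * w) → Fin r → ZMod p)) ×ˢ E0,
        (((univ : Finset (Fin (2 * w) → ZMod p)).filter
          (fun u => BadU pos m C out ge.1 ge.2 u)).card : ℝ) ≤
          (p : ℝ) ^ (2 * w) * (((N * p + 1 : ℕ) : ℝ) ^ m * η) := by
      intro ge hge
      rw [mem_product, hE0, mem_filter] at hge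
      exact card_bad pos w m η C out ge.1 ge.2 hη0 (fun S =>
        line_bound pos w M L k hw hN hNp hM hL hLk hk hr hLa C out hC ge.1 hge.2.2 S)
    refine (Finset.sum_le_sum h1).trans (le_of_eq ?_)
    rw [Finset.sum_const, nsmul_eq_mul, Finset.card_product, Finset.card_univ]
    push_cast
    ring
  have hfin : (B.card : ℝ) * E0.card * (p : ℝ) ^ (2 * w) ≤
      2 * (Fintype.card (Fin (2 * w) → Fin r → ZMod p) * E0.card *
      ((p : ℝ) ^ (2 * w) * (((N * p + 1 : ℕ) : ℝ) ^ m * η))) := by
    have h1 : (T1.card : ℝ) ≤ T2.card := by exact_mod_cast hT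
    linarith
  have h3 : (B.card : ℝ) * (E0.card * (p : ℝ) ^ (2 * w)) ≤
      (2 * Fintype.card (Fin (2 * w) → Fin r → ZMod p) * (((N * p + 1 : ℕ) : ℝ) ^ m * η)) *
        (E0.card * (p : ℝ) ^ (2 * w)) := by
    calc _ = (B.card : ℝ) * E0.card * (p : ℝ) ^ (2 * w) := by ring
      _ ≤ _ := hfin
      _ = _ := by ring
  exact le_of_mul_le_mul_right h3 (mul_pos hE0pos hU0)

end Pool.Agent.NegLim.Zeros
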