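import Pool.Agent.Zeros.Lang
import Pool.Agent.Zeros.Hard

/-!
# One section of the language
-/

namespace Pool.Agent.NegLim.Zeros

open Finset Pool.Agent.NegLim.Lang
open scoped BigOperators

lemma digits_eq {q : ℕ} [Fact q.Prime] {r : ℕ} (b : Fin r → ZMod q) :
    ∑ t : Fin r, (b t).val * q ^ (t : ℕ) =
      (finFunctionFinEquiv (fun t => (⟨(b t).val, ZMod.val_lt _⟩ : Fin q)) : Fin (q ^ r)) := by
  rw [finFunctionFinEquiv_apply]

lemma digits_lt' {q : ℕ} [Fact q.Prime] {r : ℕ} (b : Fin r → ZMod q) :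
    ∑ t : Fin r, (b t).val * q ^ (t : ℕ) < q ^ r := by
  rw [digits_eq]
  exact Fin.is_lt _

/-- The position of the variable `(i, b)` of the section which starts at `off`. -/
def posG (N q r n off : ℕ) [Fact q.Prime] (h : off + N * q ^ r ≤ n) :
    Fin N × (Fin r → ZMod q) ↪ Fin n where
  toFun p := ⟨off + ((p.1 : ℕ) * q ^ r + ∑ t : Fin r, (p.2 t).val * q ^ (t : ℕ)), by
    have h1 := digits_lt' p.2
    have h2 : ((p.1 : ℕ) + 1) * q ^ r ≤ N * q ^ r := Nat.mul_le_mul_right _ p.1.isLt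
    have h3 : ((p.1 : ℕ) + 1) * q ^ r = (p.1 : ℕ) * q ^ r + q ^ r := by ring
    omega⟩
  inj' := by
    intro p p' hpp
    have h0 := Fin.ext_iff.mp hpp
    simp only at h0
    have h1 := digits_lt' p.2
    have h2 := digits_lt' p'.2
    have hq : 0 < q ^ r := Nat.pow_pos (Fact.out : q.Prime).pos
    have h5 : (p.1 : ℕ) * q ^ r + ∑ t : Fin r, (p.2 t).val * q ^ (t : ℕ) =
      (p'.1 : ℕ) * q ^ r + ∑ t : Fin r, (p'.2 t).val * q ^ (t : ℕ) := by omega
    have h3 : (p.1 : ℕ) = p'.1 := by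
      have e1 : ((p.1 : ℕ) * q ^ r + ∑ t : Fin r, (p.2 t).val * q ^ (t : ℕ)) / q ^ r = p.1 := by
        rw [mul_comm, Nat.mul_add_div hq, Nat.div_eq_of_lt h1, add_zero]
      have e2 : ((p'.1 : ℕ) * q ^ r + ∑ t : Fin r, (p'.2 t).val * q ^ (t : ℕ)) / q ^ r
          = p'.1 := by
        rw [mul_comm, Nat.mul_add_div hq, Nat.div_eq_of_lt h2, add_zero]
      rw [← e1, ← e2, h5]
    have h4 : ∑ t : Fin r, (p.2 t).val * q ^ (t : ℕ) = ∑ t : Fin r, (p'.2 t).val * q ^ (t : ℕ) := by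
      rw [h3] at h5
      omega
    rw [digits_eq, digits_eq] at h4
    have h6 := finFunctionFinEquiv.injective (Fin.ext h4)
    refine Prod.ext (Fin.ext h3) (funext fun t => ?_)
    have h7 := Fin.ext_iff.mp (congrFun h6 t)
    exact ZMod.val_injective q h7

lemma posG_val (N q r n off : ℕ) [Fact q.Prime] (h : off + N * q ^ r ≤ n)
    (p : Fin N × (Fin r → ZMod q)) :
    (posG N q r n off h p : ℕ) = off + ((p.1 : ℕ) * q ^ r + ∑ t : Fin r, (p.2 t).val * q ^ (t : ℕ)) :=
  rfl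

/-- The first `n'` bits of an input. -/
def bitsOf (n' : ℕ) {n : ℕ} (x : Fin n → Bool) (i : ℕ) : Bool :=
  ((List.ofFn x).take n').getD i false

lemma bitsOf_val {n' n : ℕ} (x : Fin n → Bool) (v : Fin n) (hv : (v : ℕ) < n') :
    bitsOf n' x (v : ℕ) = x v := by
  unfold bitsOf
  have hv2 := v.isLt
  rw [List.getD_eq_getElem _ _ (by rw [List.length_take, List.length_ofFn]; omega),
    List.getElem_take, List.getElem_ofFn]

lemma bitsOf_true {n' n : ℕ} {x : Fin n → Bool} {i : ℕ} (h : bitsOf n' x i = true) :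
    ∃ hi : i < n, x ⟨i, hi⟩ = true := by
  unfold bitsOf at h
  by_cases hi : i < min n' n
  · rw [List.getD_eq_getElem _ _ (by rw [List.length_take, List.length_ofFn]; exact hi),
      List.getElem_take, List.getElem_ofFn] at h
    exact ⟨by omega, h⟩
  · rw [List.getD_eq_default _ _ (by rw [List.length_take, List.length_ofFn]; omega)] at h
    exact absurd h (by simp)

lemma sem_mono {n : ℕ} {bit bit' : ℕ → Bool} (h : ∀ i, bit i = true → bit' i = true)
    (hs : Sem n bit) : Sem n bit' := by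
  obtain ⟨j, hj, h1, h2, h3⟩ := hs
  exact ⟨j, hj, h1, h2, hasGraph_mono (fun i hi => h _ hi) h3⟩

lemma sect_fit {n l j : ℕ} (hj : j < l) (hlg : 3 ≤ lgp (prj j) (n / l)) :
    j * (n / l) + prj j * prj j ^ (lgp (prj j) (n / l) - 2) ≤ n ∧
      prj j * prj j ^ (lgp (prj j) (n / l) - 2) ≤ n / l := by
  have hp := (prj_spec j).1
  have hm : 1 ≤ n / l := by
    rcases Nat.eq_zero_or_pos (n / l) with h1 | h1
    · rw [h1] at hlg
      classical
      have h2 : lgp (prj j) 0 ≤ 1 := by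
        unfold lgp
        refine (card_filter_le _ _).trans ?_
        simp
      omega
    · exact h1
  obtain ⟨h1, h2, _⟩ := lgp_spec hp hm
  have h3 : prj j * prj j ^ (lgp (prj j) (n / l) - 2) = prj j ^ (lgp (prj j) (n / l) - 1) := by
    rw [← pow_succ']
    congr 1
    omega
  rw [h3]
  refine ⟨?_, h2⟩
  have h4 : (j + 1) * (n / l) ≤ l * (n / l) := Nat.mul_le_mul_right _ hj
  have h5 : l * (n / l) ≤ n := Nat.mul_div_le n l
  have h6 : (j + 1) * (n / l) = j * (n / l) + n / l := by ring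
  omega

section

variable {N n l j : ℕ}

/-- The inputs containing the graph in section `j` are in the language. -/
lemma sem_of_graph (hnN : n ≤ N) (hl : l = lgc n) (hj : j < l) (h3 : l ^ 3 ≤ prj j)
    (hlg : 3 ≤ lgp (prj j) (n / l)) [Fact (prj j).Prime] (x : Fin N → Bool)
    (y : Fin (2 * (prj j / l ^ 3)) → Fin (lgp (prj j) (n / l) - 2) → ZMod (prj j))
    (h : ∀ i : Fin (prj j), x (posG (prj j) (prj j) (lgp (prj j) (n / l) - 2) N (j * (n / l))
      ((sect_fit hj hlg).1.trans hnN) (i, ev y (i : ℕ))) = true) :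
    Sem n (bitsOf n x) := by
  refine ⟨j, by rw [← hl]; exact hj, by rw [← hl]; exact h3, by rw [← hl]; exact hlg, ?_⟩
  rw [← hl, hasGraph_iff]
  refine ⟨y, fun i hi => ?_⟩
  have h1 := h ⟨i, hi⟩
  have h2 : ((posG (prj j) (prj j) (lgp (prj j) (n / l) - 2) N (j * (n / l))
      ((sect_fit hj hlg).1.trans hnN) (⟨i, hi⟩, ev y i) : Fin N) : ℕ) < n := by
    rw [posG_val]
    have h4 := digits_lt' (ev y i)
    have h5 : (i + 1) * prj j ^ (lgp (prj j) (n / l) - 2) ≤
          prj j * prj j ^ (lgp (prj j) (n / l) - 2) := Nat.mul_le_mul_right _ hi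
    have h6 : (i + 1) * prj j ^ (lgp (prj j) (n / l) - 2) =
        i * prj j ^ (lgp (prj j) (n / l) - 2) + prj j ^ (lgp (prj j) (n / l) - 2) := by
      ring
    have h7 := (sect_fit hj hlg).1
    simp only
    omega
  rw [← bitsOf_val x _ h2, posG_val] at h1
  exact h1

/-- The converse, for inputs which are zero outside section `j`. -/
lemma graph_of_sem (hnN : n ≤ N) (hl : l = lgc n) (hj : j < l)
    (hlg : 3 ≤ lgp (prj j) (n / l)) [Fact (prj j).Prime] (x : Fin N → Bool)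
    (hx : ∀ v, (∀ q, posG (prj j) (prj j) (lgp (prj j) (n / l) - 2) N (j * (n / l))
      ((sect_fit hj hlg).1.trans hnN) q ≠ v) → x v = false)
    (h : Sem n (bitsOf n x)) :
    ∃ y : Fin (2 * (prj j / l ^ 3)) → Fin (lgp (prj j) (n / l) - 2) → ZMod (prj j),
      ∀ i : Fin (prj j), x (posG (prj j) (prj j) (lgp (prj j) (n / l) - 2) N (j * (n / l))
      ((sect_fit hj hlg).1.trans hnN) (i, ev y (i : ℕ))) = true := by
  obtain ⟨j', hj', h3', hlg', hg⟩ := h
  rw [← hl] at hj' h3' hlg' hg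
  have hjj : j' = j := by
    have hp' := (prj_spec j').1
    obtain ⟨f, hf, h1⟩ := hg
    have h2 := h1 0 hp'.pos
    obtain ⟨hi, h4⟩ := bitsOf_true h2
    have h5 : pcode (prj j') (lgp (prj j') (n / l) - 2) 0
        (fun t => hor (prj j') 0 (f t) (2 * (prj j' / l ^ 3))) < n / l := by
      refine lt_of_lt_of_le (pcode_lt hp'.pos ?_) (sect_fit hj' hlg').2
      intro t _
      exact hor_lt hp'.one_lt.le _ _ _
    have h6 : ∃ q, posG (prj j) (prj j) (lgp (prj j) (n / l) - 2) N (j * (n / l))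
      ((sect_fit hj hlg).1.trans hnN) q = ⟨_, hi⟩ := by
      by_contra hcon
      push Not at hcon
      have := hx _ hcon
      rw [this] at h4
      exact absurd h4 (by simp)
    obtain ⟨q, hq⟩ := h6
    have h7 := Fin.ext_iff.mp hq
    rw [posG_val] at h7
    simp only at h7
    have h8 := digits_lt' q.2
    have h9 : (q.1 : ℕ) * prj j ^ (lgp (prj j) (n / l) - 2) +
        ∑ t, (q.2 t).val * prj j ^ (t : ℕ) < n / l := by
      refine lt_of_lt_of_le ?_ (sect_fit hj hlg).2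
      have h2 : ((q.1 : ℕ) + 1) * prj j ^ (lgp (prj j) (n / l) - 2) ≤
          prj j * prj j ^ (lgp (prj j) (n / l) - 2) := Nat.mul_le_mul_right _ q.1.isLt
      have h3 : ((q.1 : ℕ) + 1) * prj j ^ (lgp (prj j) (n / l) - 2) =
        (q.1 : ℕ) * prj j ^ (lgp (prj j) (n / l) - 2) + prj j ^ (lgp (prj j) (n / l) - 2) := by
        ring
      omega
    have hm : 0 < n / l := by omega
    have e1 := congrArg (fun z => z / (n / l)) h7
    beta_reduce at e1
    rw [Nat.add_comm, Nat.add_mul_div_right _ _ hm, Nat.div_eq_of_lt h9, zero_add,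
      Nat.add_comm (j' * (n / l)), Nat.add_mul_div_right _ _ hm, Nat.div_eq_of_lt h5,
      zero_add] at e1
    exact e1.symm
  subst hjj
  rw [hasGraph_iff] at hg
  obtain ⟨y, hy⟩ := hg
  refine ⟨y, fun i => ?_⟩
  obtain ⟨hi, h4⟩ := bitsOf_true (hy (i : ℕ) i.isLt)
  rw [← h4]
  congr 1

end

lemma xg_inj {p : ℕ} [Fact p.Prime] {c N r : ℕ} {V : Type} [Fintype V] [DecidableEq V]
    (pos : Fin N × (Fin r → ZMod p) ↪ V) (hc : c ≤ N) (hN : N ≤ p) :
    Function.Injective (xg pos : (Fin c → Fin r → ZMod p) → V → Bool) := by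
  intro y y' h
  have h1 : ∀ i : Fin N, ev y (i : ℕ) = ev y' (i : ℕ) := by
    intro i
    have h2 : xg pos y (pos (i, ev y (i : ℕ))) = true := (xg_iff pos _ _).mpr ⟨i, rfl⟩
    rw [h] at h2
    obtain ⟨i', hi'⟩ := (xg_iff pos _ _).mp h2
    have h3 := pos.injective hi'
    have h4 := (Prod.ext_iff.mp h3).1
    have h5 := (Prod.ext_iff.mp h3).2
    simp only at h4 h5
    rw [← h5, h4]
  obtain ⟨I, _, hI⟩ := Finset.exists_subset_card_eq
    (show c ≤ (univ : Finset (Fin N)).card by rw [Finset.card_univ, Fintype.card_fin]; exact hc)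
  funext j t
  have h2 : (fun j => y j t) = fun j => y' j t := by
    apply pval_inj hN hI
    intro i _
    exact congrFun (h1 i) t
  exact congrFun h2 j

end Pool.Agent.NegLim.Zeros
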