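import Pool.Agent.Zeros.ZNP
import Pool.Agent.Zeros.Sect

/-!
# The language is in NP and monotone
-/

namespace Pool.Agent.NegLim.Zeros

open Finset Pool.Agent.PolyTime Pool.Agent.NegLim.Lang

lemma hasGraph_mono' {c N q r : ℕ} (hq : q.Prime) {bit bit' : ℕ → Bool}
    (h : ∀ i < N * q ^ r, bit i = true → bit' i = true) (hg : HasGraph c N q r bit) :
    HasGraph c N q r bit' := by
  obtain ⟨f, hf, h1⟩ := hg
  exact ⟨f, hf, fun i hi => h _ (pcode_lt hi (fun t _ => hor_lt hq.one_lt.le _ _ _)) (h1 i hi)⟩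

lemma vaccV_mono {c N q r S : ℕ} (hq : q.Prime) (hr : q ^ r < S) {xb xb' wb : ℕ → Bool}
    (h : ∀ i < N * q ^ r, xb i = true → xb' i = true) (hv : VAccV c N q r S xb wb) :
    VAccV c N q r S xb' wb := by
  have hpwt : ∀ t ≤ r, pw q S t = q ^ t := by
    intro t ht
    apply pw_eq hq
    exact lt_of_le_of_lt (Nat.pow_le_pow_right hq.pos ht) hr
  intro i hi
  obtain ⟨h0, h1, h2⟩ := hv i hi
  refine ⟨h0, h1, h _ ?_ h2⟩
  have e : i * pw q S r +
      ∑ t ∈ range r, NPL.tval wb q (c * r + i * ((c + 1) * r) + (c * r + t)) * pw q S t =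
      pcode q r i (fun t => NPL.tval wb q (c * r + i * ((c + 1) * r) + (c * r + t))) := by
    unfold pcode
    rw [hpwt r le_rfl]
    congr 1
    refine Finset.sum_congr rfl fun t ht => ?_
    rw [hpwt t (mem_range.mp ht).le]
  rw [e]
  exact pcode_lt hi (fun t _ => NPL.tval_lt _ hq.pos _)

lemma nsect_eq {n j : ℕ} (hj : j < lgc n) (xb wb : ℕ → Bool) :
    NSect n (lgc n) j xb wb ↔ lgc n ^ 3 ≤ prj j ∧ 3 ≤ lgp (prj j) (n / lgc n) ∧
      VAccV (2 * (prj j / lgc n ^ 3)) (prj j) (prj j) (lgp (prj j) (n / lgc n) - 2) (n + 1)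
        (fun i => xb (j * (n / lgc n) + i)) wb := by
  have hg : gp (pw 2 (2 * n + 3) (j + 1)) = prj j := by
    rw [pw_two hj]
    rfl
  unfold NSect
  rw [hg]

lemma poly_bound (m N : ℕ) (h : m ≤ N) : (m * m + m * ((m + 1) * m)) * m ≤ N ^ 6 + 6 := by
  have h1 : (m * m + m * ((m + 1) * m)) * m ≤ (N * N + N * ((N + 1) * N)) * N := by
    gcongr
  refine h1.trans ?_
  rcases Nat.lt_or_ge N 2 with h2 | h2
  · interval_cases N <;> norm_num
  · have e1 : (N * N + N * ((N + 1) * N)) * N = N ^ 4 + 2 * N ^ 3 := by ring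
    rw [e1]
    have h3 : 2 * N ^ 3 ≤ N ^ 4 := by
      have : N ^ 4 = N * N ^ 3 := by ring
      rw [this]
      exact Nat.mul_le_mul_right _ h2
    have h4 : 2 * N ^ 4 ≤ N ^ 5 := by
      have : N ^ 5 = N * N ^ 4 := by ring
      rw [this]
      exact Nat.mul_le_mul_right _ h2
    have h5 : N ^ 5 ≤ N ^ 6 := Nat.pow_le_pow_right (by omega) (by omega)
    omega

lemma zlang_nver (d : ℕ) (x : List Bool) : zlang d x = true ↔
    ∃ w : List Bool, w.length ≤ x.length ^ 6 + 6 ∧ NVer d (pairWord x w) := by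
  rw [zlang_iff]
  set n := x.length / d with hn
  have hnx : n ≤ x.length := Nat.div_le_self _ _
  have hbits : ∀ i < n, (x.take n).getD i false = x.getD i false := by
    intro i hi
    rw [List.getD_eq_getElem _ _ (by rw [List.length_take]; omega),
      List.getD_eq_getElem _ _ (by omega), List.getElem_take]
  have hx : ∀ (w : List Bool) (i : ℕ), i < n →
      NPL.xbit (pairWord x w) i = (x.take n).getD i false := by
    intro w i hi
    rw [NPL.xbit_pair _ _ _ (by omega), hbits i hi]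
  have hs : ∀ w : List Bool, NPL.sbit (pairWord x w) = fun i => w.getD i false := by
    intro w
    funext i
    exact NPL.sbit_pair _ _ _
  -- the section fits
  have hfit : ∀ j < lgc n, 3 ≤ lgp (prj j) (n / lgc n) →
      ∀ i < prj j * prj j ^ (lgp (prj j) (n / lgc n) - 2), j * (n / lgc n) + i < n := by
    intro j hj hlg i hi
    have := (sect_fit (n := n) hj hlg).1
    omega
  have hSlt : ∀ j < lgc n, 3 ≤ lgp (prj j) (n / lgc n) →
      prj j ^ (lgp (prj j) (n / lgc n) - 2) < n + 1 := by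
    intro j hj hlg
    have h1 := (sect_fit (n := n) hj hlg).1
    have h2 := (prj_spec j).1.pos
    have h3 : prj j ^ (lgp (prj j) (n / lgc n) - 2) ≤
      prj j * prj j ^ (lgp (prj j) (n / lgc n) - 2) := Nat.le_mul_of_pos_left _ h2
    omega
  constructor
  · rintro ⟨j, hj, h1, h2, h3⟩
    have hp := (prj_spec j).1
    obtain ⟨w, hw, hv⟩ := vaccV_complete hp (hSlt j hj h2) (by omega) h3
    refine ⟨w, ?_, j, ?_, ?_⟩
    · rw [hw]
      have hq1 : prj j ≤ n := by
        have h4 := (sect_fit (n := n) hj h2).1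
        have h5 : prj j ≤ prj j * prj j ^ (lgp (prj j) (n / lgc n) - 2) :=
          Nat.le_mul_of_pos_right _ (Nat.pow_pos hp.pos)
        omega
      have hl8 : 2 ≤ lgc n := by
        rw [lgc_eq]
        have h4 : 1 ≤ n := by
          have := hp.pos
          omega
        have : 1 ≤ Nat.log 2 (n + 1) := Nat.le_log_of_pow_le (by norm_num) (by omega)
        omega
      have hc : 2 * (prj j / lgc n ^ 3) ≤ n := by
        have h4 : prj j / lgc n ^ 3 * lgc n ^ 3 ≤ prj j := Nat.div_mul_le_self _ _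
        have h5 : 2 ≤ lgc n ^ 3 := by
          calc 2 ≤ 2 ^ 3 := by norm_num
            _ ≤ lgc n ^ 3 := Nat.pow_le_pow_left hl8 3
        have h6 : prj j / lgc n ^ 3 * 2 ≤ prj j / lgc n ^ 3 * lgc n ^ 3 :=
          Nat.mul_le_mul_left _ h5
        omega
      have hr : lgp (prj j) (n / lgc n) - 2 ≤ n := by
        have h4 := hSlt j hj h2
        have h5 : lgp (prj j) (n / lgc n) - 2 < prj j ^ (lgp (prj j) (n / lgc n) - 2) :=
          Nat.lt_pow_self hp.one_lt
        omega
      refine le_trans ?_ (poly_bound n x.length hnx)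
      gcongr
    · rw [NPL.plen_pair]
      exact hj
    · rw [NPL.plen_pair, ← hn, nsect_eq hj]
      refine ⟨h1, h2, ?_⟩
      rw [hs]
      refine vaccV_mono hp (hSlt j hj h2) (fun i hi hi1 => ?_) hv
      rw [hx w _ (hfit j hj h2 i hi)]
      exact hi1
  · rintro ⟨w, _, j, hj, hv⟩
    rw [NPL.plen_pair, ← hn] at hj hv
    rw [nsect_eq hj] at hv
    obtain ⟨h1, h2, h3⟩ := hv
    have hp := (prj_spec j).1
    refine ⟨j, hj, h1, h2, ?_⟩
    refine hasGraph_mono' hp (fun i hi hi1 => ?_) (vaccV_sound hp (hSlt j hj h2) h3)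
    rw [hx w _ (hfit j hj h2 i hi)] at hi1
    exact hi1

open Classical in
/-- **The language is in NP.** -/
theorem zlang_inNP (d : ℕ) : InNP (zlang d) := by
  refine ⟨fun y => decide (NVer d y), 6, polyTime_of_pd _ (pd_nver d), fun x => ?_⟩
  rw [zlang_nver]
  refine exists_congr fun w => ?_
  rw [decide_eq_true_iff]

/-- The language is monotone on the words of each length. -/
theorem zlang_mono (d n : ℕ) : Monotone fun x : Fin n → Bool => zlang d (List.ofFn x) := by
  intro x y hxy
  rw [Bool.le_iff_imp]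
  simp only
  intro hx
  rw [zlang_iff] at hx ⊢
  rw [List.length_ofFn] at hx ⊢
  refine sem_mono (fun i hi => ?_) hx
  by_cases hlt : i < min (n / d) n
  · rw [List.getD_eq_getElem _ _ (by rw [List.length_take, List.length_ofFn]; exact hlt),
      List.getElem_take, List.getElem_ofFn] at hi ⊢
    exact (Bool.le_iff_imp.mp (hxy _)) hi
  · rw [List.getD_eq_default _ _ (by rw [List.length_take, List.length_ofFn]; omega)] at hi
    exact absurd hi (by simp)

end Pool.Agent.NegLim.Zeros
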