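import Pool.Agent.Zeros.SectHard
import Pool.Agent.Zeros.ZNP2

/-!
# Asymptotics
-/

namespace Pool.Agent.NegLim.Zeros

open Finset Pool.Agent.NegLim.Lang
open scoped BigOperators

lemma lgc_mono {a b : ℕ} (h : a ≤ b) : lgc a ≤ lgc b := by
  rw [lgc_eq, lgc_eq]
  have := Nat.log_mono_right (b := 2) (show a + 1 ≤ b + 1 by omega)
  omega

lemma lgc_le_log {n : ℕ} (hn : 2 ≤ n) : (lgc n : ℝ) ≤ 5 * Real.log n := by
  rw [lgc_eq]
  push_cast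
  have hn2 : (2 : ℝ) ≤ n := by exact_mod_cast hn
  have hl2 : (69 / 100 : ℝ) < Real.log 2 := by
    have := Real.log_two_gt_d9
    linarith
  have hlog2 : Real.log 2 ≤ Real.log n := Real.log_le_log (by norm_num) hn2
  have h1 : (Nat.log 2 (n + 1) : ℝ) * Real.log 2 ≤ Real.log (n + 1) := by
    have h2 : (2 : ℝ) ^ (Nat.log 2 (n + 1)) ≤ ((n + 1 : ℕ) : ℝ) := by
      exact_mod_cast Nat.pow_log_le_self 2 (show n + 1 ≠ 0 by omega)
    have h3 := Real.log_le_log (by positivity) h2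
    rw [Real.log_pow] at h3
    push_cast at h3
    exact h3
  have h4 : Real.log (n + 1) ≤ 2 * Real.log n := by
    have h5 : (n : ℝ) + 1 ≤ (n : ℝ) ^ 2 := by nlinarith
    have h6 := Real.log_le_log (by positivity) h5
    rw [Real.log_pow] at h6
    push_cast at h6
    exact h6
  have h7 : (Nat.log 2 (n + 1) : ℝ) * (69 / 100) ≤ (Nat.log 2 (n + 1) : ℝ) * Real.log 2 :=
    mul_le_mul_of_nonneg_left hl2.le (Nat.cast_nonneg _)
  linarith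

/-- Polylogarithmic functions grow more slowly than powers. -/
lemma polylog (K0 : ℝ) (e : ℕ) (ε : ℝ) (hε : 0 < ε) : ∃ n0 : ℕ, ∀ n ≥ n0,
    K0 * (lgc n : ℝ) ^ e ≤ (n : ℝ) ^ ε := by
  have h1 := isLittleO_log_rpow_rpow_atTop (e : ℝ) hε
  have h2 := h1.bound (c := 1 / ((|K0| + 1) * 5 ^ e)) (by positivity)
  rw [Filter.eventually_atTop] at h2
  obtain ⟨a, ha⟩ := h2
  refine ⟨max 2 ⌈a⌉₊, fun n hn => ?_⟩
  have hn2 : 2 ≤ n := le_trans (le_max_left _ _) hn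
  have hna : a ≤ n := by
    have h3 : ⌈a⌉₊ ≤ n := le_trans (le_max_right _ _) hn
    exact (Nat.le_ceil a).trans (by exact_mod_cast h3)
  have hn2' : (2 : ℝ) ≤ n := by exact_mod_cast hn2
  have hlog : 0 ≤ Real.log n := Real.log_nonneg (by linarith)
  have h3 := ha n hna
  rw [Real.rpow_natCast, Real.norm_of_nonneg (by positivity),
    Real.norm_of_nonneg (by positivity)] at h3
  have h4 : (lgc n : ℝ) ^ e ≤ 5 ^ e * Real.log n ^ e := by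
    rw [← mul_pow]
    exact pow_le_pow_left₀ (Nat.cast_nonneg _) (lgc_le_log hn2) e
  calc K0 * (lgc n : ℝ) ^ e ≤ (|K0| + 1) * (lgc n : ℝ) ^ e := by
        apply mul_le_mul_of_nonneg_right _ (by positivity)
        linarith [le_abs_self K0]
    _ ≤ (|K0| + 1) * (5 ^ e * Real.log n ^ e) := mul_le_mul_of_nonneg_left h4 (by positivity)
    _ = ((|K0| + 1) * 5 ^ e) * Real.log n ^ e := by ring
    _ ≤ ((|K0| + 1) * 5 ^ e) * (1 / ((|K0| + 1) * 5 ^ e) * (n : ℝ) ^ ε) :=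
        mul_le_mul_of_nonneg_left h3 (by positivity)
    _ = (n : ℝ) ^ ε := by field_simp

lemma lgc_large (d B : ℕ) (hd : 1 ≤ d) : ∃ n0 : ℕ, ∀ n ≥ n0, B ≤ lgc (n / d) := by
  refine ⟨d * 2 ^ B, fun n hn => ?_⟩
  rw [lgc_eq]
  have h1 : 2 ^ B ≤ n / d := by
    rw [Nat.le_div_iff_mul_le (by omega), mul_comm]
    exact hn
  have h2 : B ≤ Nat.log 2 (n / d + 1) := Nat.le_log_of_pow_le (by norm_num) (by omega)
  omega

/-- The choice of the section for the exponent `1 / t`. -/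
lemma pick (d t n : ℕ) (hd : 1 ≤ d) (ht : 2 ≤ t) (hm : 2 ^ t ≤ n / d / lgc (n / d)) :
    ∃ j < lgc (n / d), t + 1 ≤ lgp (prj j) (n / d / lgc (n / d)) ∧
      n ≤ d * 4 ^ t * lgc (n / d) * (2 ^ j) ^ t := by
  set n' := n / d with hn'
  set l := lgc n' with hl
  set m := n' / l with hmdef
  have hl1 : 1 ≤ l := by rw [hl, lgc_eq]; omega
  have hm1 : 1 ≤ m := le_trans Nat.one_le_two_pow hm
  have hlogt : t ≤ Nat.log 2 m := Nat.le_log_of_pow_le (by norm_num) hm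
  obtain ⟨j, hj⟩ : ∃ j, Nat.log 2 m / t = j + 1 := by
    have h1 : 1 ≤ Nat.log 2 m / t := (Nat.one_le_div_iff (by omega)).mpr hlogt
    exact ⟨Nat.log 2 m / t - 1, by omega⟩
  have hdiv1 : (j + 1) * t ≤ Nat.log 2 m := by rw [← hj]; exact Nat.div_mul_le_self _ _
  have hdiv2 : Nat.log 2 m < (j + 2) * t := by
    have h1 := Nat.lt_mul_div_succ (Nat.log 2 m) (show 0 < t by omega)
    rw [hj, mul_comm] at h1
    exact h1
  have hmle : m ≤ n' := Nat.div_le_self _ _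
  obtain ⟨hp, hple, hplt⟩ := prj_spec j
  refine ⟨j, ?_, ?_, ?_⟩
  · have h1 : j + 1 ≤ Nat.log 2 m := by
      calc j + 1 = (j + 1) * 1 := (mul_one _).symm
        _ ≤ (j + 1) * t := Nat.mul_le_mul_left _ (by omega)
        _ ≤ _ := hdiv1
    have h2 : Nat.log 2 m ≤ Nat.log 2 (n' + 1) := Nat.log_mono_right (by omega)
    rw [hl, lgc_eq]
    omega
  · have h1 : prj j ^ t ≤ m := by
      calc prj j ^ t ≤ (2 ^ (j + 1)) ^ t := Nat.pow_le_pow_left hple t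
        _ = 2 ^ ((j + 1) * t) := (pow_mul _ _ _).symm
        _ ≤ 2 ^ Nat.log 2 m := Nat.pow_le_pow_right (by norm_num) hdiv1
        _ ≤ m := Nat.pow_log_le_self 2 (by omega)
    obtain ⟨_, _, h2⟩ := lgp_spec hp hm1
    exact (Nat.pow_lt_pow_iff_right hp.one_lt).mp (lt_of_le_of_lt h1 h2)
  · have h1 : m + 1 ≤ 2 ^ ((j + 2) * t) := by
      calc m + 1 ≤ 2 ^ (Nat.log 2 m + 1) := Nat.lt_pow_succ_log_self (by norm_num) m
        _ ≤ 2 ^ ((j + 2) * t) := Nat.pow_le_pow_right (by norm_num) hdiv2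
    have h2 : n' + 1 ≤ l * (m + 1) := Nat.lt_mul_div_succ n' hl1
    have h3 : n ≤ d * (n' + 1) := (Nat.lt_mul_div_succ n hd).le
    have h4 : 2 ^ ((j + 2) * t) = 4 ^ t * (2 ^ j) ^ t := by
      rw [← mul_pow, pow_mul]
      congr 1
      rw [pow_add]
      ring
    calc n ≤ d * (n' + 1) := h3
      _ ≤ d * (l * (m + 1)) := Nat.mul_le_mul_left _ h2
      _ ≤ d * (l * 2 ^ ((j + 2) * t)) := Nat.mul_le_mul_left _ (Nat.mul_le_mul_left _ h1)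
      _ = d * 4 ^ t * l * (2 ^ j) ^ t := by rw [h4]; ring

/-- The real inequalities for the exponent `1 / t`. -/
lemma real_ineq (t l n x : ℕ) (C ε : ℝ) (ht : 1 ≤ t) (hl : 1 ≤ l) (hn1 : 1 ≤ n)
    (hC : 1 ≤ C) (hn : (n : ℝ) ≤ C * l * (x : ℝ) ^ t)
    (hlog : 32 * C * (l : ℝ) ^ 5 ≤ (n : ℝ) ^ ε) :
    (n : ℝ) ^ ((1 : ℝ) / t - ε) ≤ x / (8 * (l : ℝ) ^ 3) ∧
      (n : ℝ) ^ (1 - (1 : ℝ) / t - ε) ≤ (x : ℝ) ^ (t - 1) / (32 * (l : ℝ) ^ 4) := by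
  have hl0 : (1 : ℝ) ≤ l := by exact_mod_cast hl
  have hn0 : (0 : ℝ) < n := by exact_mod_cast hn1
  have ht0 : (1 : ℝ) ≤ t := by exact_mod_cast ht
  have hx0 : (0 : ℝ) ≤ x := Nat.cast_nonneg _
  have hCl : 1 ≤ C * l := by nlinarith
  have h1t : (1 : ℝ) / t ≤ 1 := by rw [div_le_one (by linarith)]; exact ht0
  have h1t0 : (0 : ℝ) ≤ 1 / t := by positivity
  have hε0 : (0 : ℝ) < (n : ℝ) ^ ε := Real.rpow_pos_of_pos hn0 _
  have key : ∀ s : ℝ, 0 ≤ s → s ≤ 1 → (n : ℝ) ^ s ≤ C * l * ((x : ℝ) ^ t) ^ s := by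
    intro s hs0 hs1
    calc (n : ℝ) ^ s ≤ (C * l * (x : ℝ) ^ t) ^ s := Real.rpow_le_rpow hn0.le hn hs0
      _ = (C * l) ^ s * ((x : ℝ) ^ t) ^ s := Real.mul_rpow (by positivity) (by positivity)
      _ ≤ (C * l) ^ (1 : ℝ) * ((x : ℝ) ^ t) ^ s := by
          apply mul_le_mul_of_nonneg_right _ (by positivity)
          exact Real.rpow_le_rpow_of_exponent_le hCl hs1
      _ = C * l * ((x : ℝ) ^ t) ^ s := by rw [Real.rpow_one]
  have e1 : ((x : ℝ) ^ t) ^ ((1 : ℝ) / t) = x := by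
    rw [one_div]
    exact Real.pow_rpow_inv_natCast hx0 (by omega)
  have e2 : ((x : ℝ) ^ t) ^ (1 - (1 : ℝ) / t) = (x : ℝ) ^ (t - 1) := by
    rw [← Real.rpow_natCast, ← Real.rpow_mul hx0, ← Real.rpow_natCast]
    congr 1
    rw [Nat.cast_sub ht, mul_sub, mul_one_div_cancel (by linarith)]
    push_cast
    ring
  constructor
  · rw [Real.rpow_sub hn0, div_le_div_iff₀ hε0 (by positivity)]
    have h1 := key (1 / t) h1t0 h1t
    rw [e1] at h1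
    have h2 : C * l * (8 * (l : ℝ) ^ 3) ≤ (n : ℝ) ^ ε := by
      refine le_trans ?_ hlog
      have h3 : (l : ℝ) ^ 4 ≤ (l : ℝ) ^ 5 := pow_le_pow_right₀ hl0 (by omega)
      have h4 : (0 : ℝ) ≤ (l : ℝ) ^ 4 := by positivity
      nlinarith
    calc (n : ℝ) ^ ((1 : ℝ) / t) * (8 * (l : ℝ) ^ 3) ≤ (C * l * x) * (8 * (l : ℝ) ^ 3) :=
          mul_le_mul_of_nonneg_right h1 (by positivity)
      _ = x * (C * l * (8 * (l : ℝ) ^ 3)) := by ring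
      _ ≤ x * (n : ℝ) ^ ε := mul_le_mul_of_nonneg_left h2 hx0
  · rw [Real.rpow_sub hn0, div_le_div_iff₀ hε0 (by positivity)]
    have h1 := key (1 - 1 / t) (by linarith) (by linarith)
    rw [e2] at h1
    have hxt : (0 : ℝ) ≤ (x : ℝ) ^ (t - 1) := by positivity
    calc (n : ℝ) ^ (1 - (1 : ℝ) / t) * (32 * (l : ℝ) ^ 4)
        ≤ (C * l * (x : ℝ) ^ (t - 1)) * (32 * (l : ℝ) ^ 4) :=
          mul_le_mul_of_nonneg_right h1 (by positivity)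
      _ = (x : ℝ) ^ (t - 1) * (32 * C * (l : ℝ) ^ 5) := by ring
      _ ≤ (x : ℝ) ^ (t - 1) * (n : ℝ) ^ ε := mul_le_mul_of_nonneg_left hlog hxt

/-- Rounding. -/
lemma round_ineq (q x l g : ℕ) (hl : 1 ≤ l) (hx : 32 * l ^ 4 ≤ x) (hq : x ≤ q)
    {t : ℕ} (ht : 2 ≤ t) (hg : t + 1 ≤ g) :
    (x : ℝ) / (8 * (l : ℝ) ^ 3) ≤ ((q / l ^ 3 / 4 : ℕ) : ℝ) ∧
      (x : ℝ) ^ (t - 1) / (32 * (l : ℝ) ^ 4) ≤
        ((q / l ^ 3 / 4 / l * q ^ (g - 3) / 2 : ℕ) : ℝ) := by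
  have hl0 : (1 : ℝ) ≤ l := by exact_mod_cast hl
  have hx' : 32 * (l : ℝ) ^ 4 ≤ x := by exact_mod_cast hx
  have hq' : (x : ℝ) ≤ q := by exact_mod_cast hq
  have hfl : ∀ a b : ℕ, 0 < b → (a : ℝ) / b - 1 ≤ ((a / b : ℕ) : ℝ) := by
    intro a b hb
    have h1 : a < b * (a / b + 1) := Nat.lt_mul_div_succ a hb
    have h2 : (a : ℝ) ≤ b * (((a / b : ℕ) : ℝ) + 1) := by exact_mod_cast h1.le
    have h3 : (0 : ℝ) < b := by exact_mod_cast hb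
    rw [sub_le_iff_le_add, div_le_iff₀ h3]
    linarith
  have e1 : q / l ^ 3 / 4 = q / (l ^ 3 * 4) := Nat.div_div_eq_div_mul _ _ _
  have e2 : q / l ^ 3 / 4 / l = q / (l ^ 3 * 4 * l) := by
    rw [e1, Nat.div_div_eq_div_mul]
  have hx1 : (1 : ℝ) ≤ x := by
    have : (1 : ℝ) ≤ (l : ℝ) ^ 4 := one_le_pow₀ hl0
    linarith
  constructor
  · rw [e1]
    refine le_trans ?_ (hfl q (l ^ 3 * 4) (by positivity))
    push_cast
    have h1 : (x : ℝ) / ((l : ℝ) ^ 3 * 4) ≤ q / ((l : ℝ) ^ 3 * 4) :=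
      div_le_div_of_nonneg_right hq' (by positivity)
    have h2 : (1 : ℝ) ≤ x / (8 * (l : ℝ) ^ 3) := by
      rw [one_le_div (by positivity)]
      have h3 : (l : ℝ) ^ 3 ≤ (l : ℝ) ^ 4 := pow_le_pow_right₀ hl0 (by omega)
      have h4 : (0 : ℝ) ≤ (l : ℝ) ^ 3 := by positivity
      linarith
    have h3 : (x : ℝ) / ((l : ℝ) ^ 3 * 4) = 2 * (x / (8 * (l : ℝ) ^ 3)) := by field_simp; ring
    linarith
  · have h1 : (x : ℝ) / (8 * (l : ℝ) ^ 4) ≤ ((q / l ^ 3 / 4 / l : ℕ) : ℝ) := by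
      rw [e2]
      refine le_trans ?_ (hfl q (l ^ 3 * 4 * l) (by positivity))
      push_cast
      have h1 : (x : ℝ) / ((l : ℝ) ^ 3 * 4 * l) ≤ q / ((l : ℝ) ^ 3 * 4 * l) :=
        div_le_div_of_nonneg_right hq' (by positivity)
      have h2 : (1 : ℝ) ≤ x / (8 * (l : ℝ) ^ 4) := by
        rw [one_le_div (by positivity)]
        have h4 : (0 : ℝ) ≤ (l : ℝ) ^ 4 := by positivity
        linarith
      have h3 : (x : ℝ) / ((l : ℝ) ^ 3 * 4 * l) = 2 * (x / (8 * (l : ℝ) ^ 4)) := by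
        field_simp; ring
      linarith
    have h2 : (x : ℝ) ^ (t - 2) ≤ ((q ^ (g - 3) : ℕ) : ℝ) := by
      push_cast
      calc (x : ℝ) ^ (t - 2) ≤ (x : ℝ) ^ (g - 3) := pow_le_pow_right₀ hx1 (by omega)
        _ ≤ (q : ℝ) ^ (g - 3) := pow_le_pow_left₀ (by linarith) hq' _
    have hxt : (x : ℝ) ^ (t - 1) = x * (x : ℝ) ^ (t - 2) := by
      rw [← pow_succ']
      congr 1
      omega
    have h3 : (x : ℝ) ^ (t - 1) / (8 * (l : ℝ) ^ 4) ≤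
        ((q / l ^ 3 / 4 / l * q ^ (g - 3) : ℕ) : ℝ) := by
      rw [Nat.cast_mul, hxt]
      calc (x : ℝ) * (x : ℝ) ^ (t - 2) / (8 * (l : ℝ) ^ 4)
          = (x / (8 * (l : ℝ) ^ 4)) * (x : ℝ) ^ (t - 2) := by ring
        _ ≤ ((q / l ^ 3 / 4 / l : ℕ) : ℝ) * ((q ^ (g - 3) : ℕ) : ℝ) :=
            mul_le_mul h1 h2 (by positivity) (Nat.cast_nonneg _)
    have h4 := hfl (q / l ^ 3 / 4 / l * q ^ (g - 3)) 2 (by norm_num)
    refine le_trans ?_ h4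
    have h5 : (1 : ℝ) ≤ (x : ℝ) ^ (t - 1) / (32 * (l : ℝ) ^ 4) := by
      rw [one_le_div (by positivity)]
      calc 32 * (l : ℝ) ^ 4 ≤ x := hx'
        _ = (x : ℝ) ^ 1 := (pow_one _).symm
        _ ≤ (x : ℝ) ^ (t - 1) := pow_le_pow_right₀ hx1 (by omega)
    have h6 : (x : ℝ) ^ (t - 1) / (8 * (l : ℝ) ^ 4) = 4 * ((x : ℝ) ^ (t - 1) / (32 * (l : ℝ) ^ 4)) := by
      field_simp; ring
    push_cast
    push_cast at h3
    linarith

end Pool.Agent.NegLim.Zeros
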