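import Pool.Agent.Zeros.Lang
import Pool.Agent.NegLim.ExpTime
import Pool.Agent.NegLim.NPLang

/-!
# The language is decidable in exponential time
-/

namespace Pool.Agent.NegLim.Zeros

open Finset Pool.Agent.PolyTime Pool.Agent.NegLim.Lang Turing

/-- `HasGraph`, with the digits of numbers less than `S` as witnesses. -/
def AccV (c N q r S : ℕ) (bit : ℕ → Bool) : Prop :=
  ∃ u < S, ∀ i < N, ∃ s < S, (∀ t < r, dig q S s t = 0) ∧
    (∀ j < c, ∀ t < r, dig q S s ((j + 1) * r + t)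
      = (dig q S s (j * r + t) * i + dig q S u (j * r + t)) % q) ∧
    bit (i * pw q S r + ∑ t ∈ range r, dig q S s (c * r + t) * pw q S t) = true

lemma idx_lt {c r j t : ℕ} (hj : j < c) (ht : t < r) : j * r + t < c * r := by
  have h1 : (j + 1) * r ≤ c * r := Nat.mul_le_mul_right _ hj
  have h2 : (j + 1) * r = j * r + r := by ring
  omega

lemma accV_iff {c N q r S : ℕ} (hq : q.Prime) (hS : q ^ ((c + 1) * r) ≤ S) (hr : q ^ r < S)
    (hr0 : 0 < r) (bit : ℕ → Bool) : AccV c N q r S bit ↔ HasGraph c N q r bit := by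
  have hpw : ∀ j, j < (c + 1) * r → pw q S j = q ^ j := by
    intro j hj
    apply pw_eq hq
    exact lt_of_lt_of_le (Nat.pow_lt_pow_right hq.one_lt hj) hS
  have hpwt : ∀ t ≤ r, pw q S t = q ^ t := by
    intro t ht
    apply pw_eq hq
    exact lt_of_le_of_lt (Nat.pow_le_pow_right hq.pos ht) hr
  have hdig : ∀ s j, j < (c + 1) * r → dig q S s j = s / q ^ j % q := by
    intro s j hj
    unfold dig
    rw [hpw j hj]
  have hle : c * r ≤ (c + 1) * r := Nat.mul_le_mul_right _ (by omega)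
  have hcode : ∀ (i : ℕ) (b : ℕ → ℕ),
      i * pw q S r + ∑ t ∈ range r, b t * pw q S t = pcode q r i b := by
    intro i b
    unfold pcode
    rw [hpwt r le_rfl]
    congr 1
    refine Finset.sum_congr rfl fun t ht => ?_
    rw [hpwt t (mem_range.mp ht).le]
  constructor
  · rintro ⟨u, _, h⟩
    refine ⟨fun t j => u / q ^ (j * r + t) % q, fun t j => Nat.mod_lt _ hq.pos, ?_⟩
    intro i hi
    obtain ⟨s, _, h0, h1, h2⟩ := h i hi
    have key : ∀ j ≤ c, ∀ t < r, dig q S s (j * r + t) =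
        hor q i (fun j => u / q ^ (j * r + t) % q) j := by
      intro j
      induction j with
      | zero => intro _ t ht; rw [zero_mul, zero_add, h0 t ht]; rfl
      | succ j ih =>
        intro hj t ht
        rw [h1 j (by omega) t ht, ih (by omega) t ht,
          hdig u _ (lt_of_lt_of_le (idx_lt (by omega) ht) hle)]
        rfl
    rw [hcode] at h2
    rw [← h2]
    congr 1
    unfold pcode
    congr 1
    refine Finset.sum_congr rfl fun t ht => ?_
    beta_reduce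
    rw [key c le_rfl t (mem_range.mp ht)]
  · rintro ⟨f, hf, h⟩
    obtain ⟨u, hu, hud⟩ := exists_digits q hq.one_lt.le (fun a => f (a % r) (a / r))
      (fun a => hf _ _) (c * r)
    have hidx1 : ∀ j t, t < r → (j * r + t) % r = t := by
      intro j t ht
      rw [mul_comm, Nat.mul_add_mod, Nat.mod_eq_of_lt ht]
    have hidx2 : ∀ j t, t < r → (j * r + t) / r = j := by
      intro j t ht
      rw [mul_comm, Nat.mul_add_div hr0, Nat.div_eq_of_lt ht, add_zero]
    refine ⟨u, lt_of_lt_of_le hu ((Nat.pow_le_pow_right hq.pos hle).trans hS), ?_⟩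
    intro i hi
    obtain ⟨s, hs, hsd⟩ := exists_digits q hq.one_lt.le (fun a => hor q i (f (a % r)) (a / r))
      (fun a => hor_lt hq.one_lt.le _ _ _) ((c + 1) * r)
    have hs' : ∀ j ≤ c, ∀ t < r, dig q S s (j * r + t) = hor q i (f t) j := by
      intro j hj t ht
      rw [hdig s _ (idx_lt (by omega) ht), hsd _ (idx_lt (by omega) ht), hidx1 j t ht,
        hidx2 j t ht]
    refine ⟨s, lt_of_lt_of_le hs hS, ?_, ?_, ?_⟩
    · intro t ht
      have := hs' 0 (by omega) t ht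
      rw [zero_mul, zero_add] at this
      rw [this]
      rfl
    · intro j hj t ht
      rw [hs' (j + 1) hj t ht, hs' j hj.le t ht,
        hdig u _ (lt_of_lt_of_le (idx_lt hj ht) hle), hud _ (idx_lt hj ht), hidx1 j t ht,
        hidx2 j t ht]
      rfl
    · rw [hcode]
      rw [← h i hi]
      congr 1
      unfold pcode
      congr 1
      refine Finset.sum_congr rfl fun t ht => ?_
      beta_reduce
      rw [hs' c le_rfl t (mem_range.mp ht)]

/-- One section, on padded inputs. -/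
def PSect (n l j S : ℕ) (bit : ℕ → Bool) : Prop :=
  l ^ 3 ≤ gp (pw 2 (2 * n + 3) (j + 1)) ∧ 3 ≤ lgp (gp (pw 2 (2 * n + 3) (j + 1))) (n / l) ∧
    AccV (2 * (gp (pw 2 (2 * n + 3) (j + 1)) / l ^ 3)) (gp (pw 2 (2 * n + 3) (j + 1)))
      (gp (pw 2 (2 * n + 3) (j + 1))) (lgp (gp (pw 2 (2 * n + 3) (j + 1))) (n / l) - 2) S
      (fun i => bit (j * (n / l) + i))

lemma pw_two {n j : ℕ} (hj : j < lgc n) : pw 2 (2 * n + 3) (j + 1) = 2 ^ (j + 1) := by
  apply pw_eq Nat.prime_two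
  rw [lgc_eq] at hj
  have h1 : 2 ^ (j + 1) ≤ 2 ^ (Nat.log 2 (n + 1) + 1) := Nat.pow_le_pow_right (by norm_num) hj
  have h2 := Nat.pow_log_le_self 2 (show n + 1 ≠ 0 by omega)
  rw [pow_succ 2 (Nat.log 2 (n + 1))] at h1
  omega

lemma psect_iff {n j S : ℕ} (hj : j < lgc n) (hS : 2 ^ n + n < S) (bit : ℕ → Bool) :
    PSect n (lgc n) j S bit ↔ Sect n (lgc n) j bit := by
  have hg : gp (pw 2 (2 * n + 3) (j + 1)) = prj j := by
    rw [pw_two hj]
    rfl
  unfold PSect Sect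
  rw [hg]
  refine and_congr_right fun h1 => and_congr_right fun h2 => ?_
  have hp := (prj_spec j).1
  set l := lgc n with hl
  set q := prj j with hq
  set r := lgp q (n / l) - 2 with hr
  have hn0 : 1 ≤ n / l := by
    rcases Nat.eq_zero_or_pos (n / l) with h | h
    · exfalso
      have h2' : 3 ≤ lgp q (n / l) := h2
      rw [h] at h2'
      classical
      have h3 : lgp q 0 ≤ 1 := by
        unfold lgp
        refine (card_filter_le _ _).trans ?_
        simp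
      omega
    · exact h
  have hnn : n / l ≤ n := Nat.div_le_self _ _
  have hl2 : 2 ≤ l := by
    rw [hl, lgc_eq]
    have : 1 ≤ Nat.log 2 (n + 1) := Nat.le_log_of_pow_le (by norm_num) (by omega)
    omega
  obtain ⟨_, h3, _⟩ := lgp_spec hp hn0
  have hr1 : 1 ≤ r := by
    have : 3 ≤ lgp q (n / l) := h2
    omega
  have h4 : q ^ (r + 1) ≤ n := by
    have e : r + 1 = lgp q (n / l) - 1 := by
      have : 3 ≤ lgp q (n / l) := h2
      omega
    rw [e]
    exact h3.trans hnn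
  have h5 : q * q ≤ n := by
    refine le_trans ?_ h4
    calc q * q = q ^ 2 := (sq q).symm
      _ ≤ q ^ (r + 1) := Nat.pow_le_pow_right hp.pos (by omega)
  have h6 : q ^ r ≤ n := (Nat.pow_le_pow_right hp.pos (by omega)).trans h4
  have hlt : n + 1 < 2 ^ l := by
    rw [hl, lgc_eq]
    exact Nat.lt_pow_succ_log_self (by norm_num) _
  have hwq : q / l ^ 3 * l ^ 3 ≤ q := Nat.div_mul_le_self q (l ^ 3)
  have hw1 : 1 ≤ q / l ^ 3 := (Nat.one_le_div_iff (by positivity)).mpr h1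
  have h7 : (2 * (q / l ^ 3) + 1) * l ≤ q := by
    refine le_trans ?_ hwq
    set w := q / l ^ 3 with hw
    have e : w * l ^ 3 = (w * (l * l)) * l := by ring
    rw [e]
    apply Nat.mul_le_mul_right
    have h8 : 4 ≤ l * l := Nat.mul_le_mul hl2 hl2
    have h9 : w * 4 ≤ w * (l * l) := Nat.mul_le_mul_left w h8
    omega
  have hqn : q ≤ n := (Nat.le_mul_of_pos_left q hp.pos).trans h5
  have h2n : 1 ≤ 2 ^ n := Nat.one_le_two_pow
  apply accV_iff hp _ (by omega) hr1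
  calc q ^ ((2 * (q / l ^ 3) + 1) * r) = (q ^ r) ^ (2 * (q / l ^ 3) + 1) := by
        rw [← pow_mul]; congr 1; ring
    _ ≤ (2 ^ l) ^ (2 * (q / l ^ 3) + 1) := Nat.pow_le_pow_left (by omega) _
    _ = 2 ^ ((2 * (q / l ^ 3) + 1) * l) := by rw [← pow_mul]; congr 1; ring
    _ ≤ 2 ^ n := Nat.pow_le_pow_right (by norm_num) (h7.trans hqn)
    _ ≤ S := by omega

/-- The language, on padded inputs. -/
def PLV (y : List Bool) : Prop := ∃ j < lgc (wlen y), PSect (wlen y) (lgc (wlen y)) j y.length (wbit y)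

lemma plv_pad (x : List Bool) : PLV (pad x) ↔ Sem x.length (fun i => x.getD i false) := by
  unfold PLV Sem
  rw [wlen_pad]
  refine exists_congr fun j => and_congr_right fun hj => ?_
  rw [psect_iff hj (by rw [length_pad]; omega)]
  have : wbit (pad x) = fun i => x.getD i false := by
    funext i
    exact wbit_pad x i
  rw [this]

/-! ### Polynomial time in the length of the padded input -/

variable {α : Type} [Ctx α]

lemma pf_lgc {A : List Bool → α → ℕ} (hA : PF A) : PF (fun x a => lgc (A x a)) := by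
  classical
  have h := PF.count (P := fun _ (p : α × ℕ) => IsPow 2 p.2) (hA.add (PF.const 2))
    (pd_isPow (PF.const 2) PF.snd)
  refine h.congr fun x a => ?_
  unfold lgc
  congr

lemma pf_lgp {Q M : List Bool → α → ℕ} (hQ : PF Q) (hM : PF M) :
    PF (fun x a => lgp (Q x a) (M x a)) := by
  classical
  have h := PF.count (P := fun x (p : α × ℕ) => IsPow (Q x p.1) p.2) (hM.add (PF.const 1))
    (pd_isPow hQ.fst PF.snd)
  refine h.congr fun x a => ?_
  unfold lgp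
  congr

lemma pd_accV {C N Q R S O : List Bool → α → ℕ} (hC : PF C) (hN : PF N) (hQ : PF Q)
    (hR : PF R) (hS : PF S) (hO : PF O) :
    PD (fun y a => AccV (C y a) (N y a) (Q y a) (R y a) (S y a)
      (fun i => wbit y (O y a + i))) := by
  -- contexts: α, u, i, s
  have hu : PF (fun (_ : List Bool) (e : ((α × ℕ) × ℕ) × ℕ) => e.1.1.2) := PF.snd.fst.fst
  have hi : PF (fun (_ : List Bool) (e : ((α × ℕ) × ℕ) × ℕ) => e.1.2) := PF.snd.fst
  have hs : PF (fun (_ : List Bool) (e : ((α × ℕ) × ℕ) × ℕ) => e.2) := PF.snd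
  have hQ3 : PF (fun y (e : ((α × ℕ) × ℕ) × ℕ) => Q y e.1.1.1) := hQ.fst.fst.fst
  have hS3 : PF (fun y (e : ((α × ℕ) × ℕ) × ℕ) => S y e.1.1.1) := hS.fst.fst.fst
  have hC3 : PF (fun y (e : ((α × ℕ) × ℕ) × ℕ) => C y e.1.1.1) := hC.fst.fst.fst
  have hR3 : PF (fun y (e : ((α × ℕ) × ℕ) × ℕ) => R y e.1.1.1) := hR.fst.fst.fst
  have hO3 : PF (fun y (e : ((α × ℕ) × ℕ) × ℕ) => O y e.1.1.1) := hO.fst.fst.fst
  have c1 : PD (fun y (e : ((α × ℕ) × ℕ) × ℕ) => ∀ t < R y e.1.1.1,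
      dig (Q y e.1.1.1) (S y e.1.1.1) e.2 t = 0) :=
    PD.forall_lt (P := fun y (d : (((α × ℕ) × ℕ) × ℕ) × ℕ) =>
      dig (Q y d.1.1.1.1) (S y d.1.1.1.1) d.1.2 d.2 = 0) hR3
      (PD.eq (pf_dig hQ3.fst hS3.fst hs.fst PF.snd) (PF.const 0))
  have c2' : PD (fun y (d : (((α × ℕ) × ℕ) × ℕ) × ℕ) => ∀ t < R y d.1.1.1.1,
      dig (Q y d.1.1.1.1) (S y d.1.1.1.1) d.1.2 ((d.2 + 1) * R y d.1.1.1.1 + t)
        = (dig (Q y d.1.1.1.1) (S y d.1.1.1.1) d.1.2 (d.2 * R y d.1.1.1.1 + t) * d.1.1.2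
            + dig (Q y d.1.1.1.1) (S y d.1.1.1.1) d.1.1.1.2 (d.2 * R y d.1.1.1.1 + t))
          % Q y d.1.1.1.1) :=
    PD.forall_lt (P := fun y (b : ((((α × ℕ) × ℕ) × ℕ) × ℕ) × ℕ) =>
      dig (Q y b.1.1.1.1.1) (S y b.1.1.1.1.1) b.1.1.2 ((b.1.2 + 1) * R y b.1.1.1.1.1 + b.2)
        = (dig (Q y b.1.1.1.1.1) (S y b.1.1.1.1.1) b.1.1.2
              (b.1.2 * R y b.1.1.1.1.1 + b.2) * b.1.1.1.2
            + dig (Q y b.1.1.1.1.1) (S y b.1.1.1.1.1) b.1.1.1.1.2
              (b.1.2 * R y b.1.1.1.1.1 + b.2)) % Q y b.1.1.1.1.1) hR3.fst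
      (PD.eq (pf_dig hQ3.fst.fst hS3.fst.fst hs.fst.fst
          (((PF.snd.fst.add (PF.const 1)).mul hR3.fst.fst).add PF.snd))
        ((((pf_dig hQ3.fst.fst hS3.fst.fst hs.fst.fst
            ((PF.snd.fst.mul hR3.fst.fst).add PF.snd)).mul hi.fst.fst).add
          (pf_dig hQ3.fst.fst hS3.fst.fst hu.fst.fst
            ((PF.snd.fst.mul hR3.fst.fst).add PF.snd))).mod hQ3.fst.fst))
  have c2 : PD (fun y (e : ((α × ℕ) × ℕ) × ℕ) => ∀ j < C y e.1.1.1, ∀ t < R y e.1.1.1,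
      dig (Q y e.1.1.1) (S y e.1.1.1) e.2 ((j + 1) * R y e.1.1.1 + t)
        = (dig (Q y e.1.1.1) (S y e.1.1.1) e.2 (j * R y e.1.1.1 + t) * e.1.2
            + dig (Q y e.1.1.1) (S y e.1.1.1) e.1.1.2 (j * R y e.1.1.1 + t))
          % Q y e.1.1.1) := PD.forall_lt hC3 c2'
  have c3' : PF (fun y (e : ((α × ℕ) × ℕ) × ℕ) => ∑ t ∈ range (R y e.1.1.1),
      dig (Q y e.1.1.1) (S y e.1.1.1) e.2 (C y e.1.1.1 * R y e.1.1.1 + t) *
        pw (Q y e.1.1.1) (S y e.1.1.1) t) :=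
    PF.sum (F := fun y (d : (((α × ℕ) × ℕ) × ℕ) × ℕ) =>
      dig (Q y d.1.1.1.1) (S y d.1.1.1.1) d.1.2 (C y d.1.1.1.1 * R y d.1.1.1.1 + d.2) *
        pw (Q y d.1.1.1.1) (S y d.1.1.1.1) d.2) hR3
      ((pf_dig hQ3.fst hS3.fst hs.fst ((hC3.fst.mul hR3.fst).add PF.snd)).mul
        (pf_pw hQ3.fst hS3.fst PF.snd))
  have c3 : PD (fun y (e : ((α × ℕ) × ℕ) × ℕ) =>
      wbit y (O y e.1.1.1 + (e.1.2 * pw (Q y e.1.1.1) (S y e.1.1.1) (R y e.1.1.1) +
        ∑ t ∈ range (R y e.1.1.1),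
          dig (Q y e.1.1.1) (S y e.1.1.1) e.2 (C y e.1.1.1 * R y e.1.1.1 + t) *
            pw (Q y e.1.1.1) (S y e.1.1.1) t)) = true) :=
    pd_wbit (hO3.add ((hi.mul (pf_pw hQ3 hS3 hR3)).add c3'))
  exact PD.exists_lt hS (PD.forall_lt hN.fst (PD.exists_lt hS.fst.fst (c1.and (c2.and c3))))

theorem pd_plv : PD (fun y (_ : α) => PLV y) := by
  have hn : ∀ {β : Type} [Ctx β], PF (fun y (_ : β) => wlen y) := pf_wlen
  have hl : ∀ {β : Type} [Ctx β], PF (fun y (_ : β) => lgc (wlen y)) := pf_lgc pf_wlen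
  have hq : PF (fun y (e : α × ℕ) => gp (pw 2 (2 * wlen y + 3) (e.2 + 1))) :=
    pf_gp (pf_pw (PF.const 2) (((PF.const 2).mul hn).add (PF.const 3)) (PF.snd.add (PF.const 1)))
  have hlg : PF (fun y (e : α × ℕ) =>
      lgp (gp (pw 2 (2 * wlen y + 3) (e.2 + 1))) (wlen y / lgc (wlen y))) :=
    pf_lgp hq (hn.div hl)
  have h1 : PD (fun y (e : α × ℕ) => PSect (wlen y) (lgc (wlen y)) e.2 y.length (wbit y)) :=
    (PD.le (hl.pow 3) hq).and ((PD.le (PF.const 3) hlg).and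
      (pd_accV ((PF.const 2).mul (hq.div (hl.pow 3))) hq hq (hlg.sub (PF.const 2)) PF.len
        (PF.snd.mul (hn.div hl))))
  exact PD.exists_lt hl h1

end Pool.Agent.NegLim.Zeros
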