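import Pool.Agent.NegLim.Defs

/-!
# Three-valued evaluation of circuits, and circuits which accept reading few zeros
-/

namespace Pool.Agent.NegLim

/-- Three-valued AND (`none` is the unknown value). -/
def kAnd (a b : Option Bool) : Option Bool :=
  if a = some false ∨ b = some false then some false
  else if a = some true ∧ b = some true then some true else none

/-- Three-valued OR. -/
def kOr (a b : Option Bool) : Option Bool :=
  if a = some true ∨ b = some true then some true
  else if a = some false ∧ b = some false then some false else none

/-- Three-valued NOT. -/
def kNot (a : Option Bool) : Option Bool := a.map (fun b => !b)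

/-- The three-valued value of a wire at the partial input `ρ`. -/
def Wire.kval {V : Type} (ρ : V → Option Bool) (vals : List (Option Bool)) :
    Wire V → Option Bool
  | .var v => ρ v
  | .const b => some b
  | .gate i => vals.getD i (some false)

/-- The three-valued value of a gate. -/
def Gate.kval {V : Type} (ρ : V → Option Bool) (vals : List (Option Bool)) :
    Gate V → Option Bool
  | .and a b => kAnd (a.kval ρ vals) (b.kval ρ vals)
  | .or a b => kOr (a.kval ρ vals) (b.kval ρ vals)
  | .not a => kNot (a.kval ρ vals)

/-- The three-valued values of the gates of a circuit. -/
def gateKvals {V : Type} (ρ : V → Option Bool) : Circuit V → List (Option Bool) →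
    List (Option Bool)
  | [], vals => vals
  | g :: C, vals => gateKvals ρ C (vals ++ [g.kval ρ vals])

/-- The three-valued value of the wire `a` of the circuit `C` at the partial input `ρ`. -/
def Circuit.kval {V : Type} (C : Circuit V) (ρ : V → Option Bool) (a : Wire V) : Option Bool :=
  a.kval ρ (gateKvals ρ C [])

/-- What is known of the input `x` if all its ones are known, but only the zeros in `S`. -/
def onesAnd {V : Type} [DecidableEq V] (x : V → Bool) (S : Finset V) (v : V) : Option Bool :=
  if x v = true then some true else if v ∈ S then some false else none

/-- The circuit accepts `x` reading at most `k` zeros: for some set `S` of at most `k` variables,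
the ones of `x` and the zeros of `x` in `S` already force, in three-valued logic, the output
to be true. -/
def Circuit.AcceptsWithZeros {V : Type} [DecidableEq V] (C : Circuit V) (out : Wire V)
    (x : V → Bool) (k : ℝ) : Prop :=
  ∃ S : Finset V, (S.card : ℝ) ≤ k ∧ C.kval (onesAnd x S) out = some true

end Pool.Agent.NegLim
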