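import Pool.Agent.Zeros.Rails
import Pool.Agent.NegLim.Poly
import Pool.Agent.NegLim.Dom
import Pool.Agent.NegLim.Abstract

/-!
# Vector-valued polynomials, and their restriction to random lines
-/

namespace Pool.Agent.NegLim.Zeros

open Finset
open scoped BigOperators

set_option linter.unusedSectionVars false

variable {p : ℕ} [Fact p.Prime] {c N r : ℕ}

/-- The value at the point `i` of the polynomial with coefficients in the vector space
`(ZMod p)^r`. -/
def ev (y : Fin c → Fin r → ZMod p) (i : ℕ) : Fin r → ZMod p := fun t => pval (fun j => y j t) i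

/-- The polynomial `g + u e`. -/
def lin (g : Fin c → Fin r → ZMod p) (u : Fin c → ZMod p) (e : Fin r → ZMod p) :
    Fin c → Fin r → ZMod p := fun j => g j + u j • e

lemma ev_lin (g : Fin c → Fin r → ZMod p) (u : Fin c → ZMod p) (e : Fin r → ZMod p) (i : ℕ) :
    ev (lin g u e) i = ev g i + pval u i • e := by
  funext t
  simp only [ev, lin, pval, Pi.add_apply, Pi.smul_apply, smul_eq_mul]
  rw [Finset.sum_mul, ← Finset.sum_add_distrib]
  exact Finset.sum_congr rfl fun j _ => by ring

variable {V : Type} [Fintype V] [DecidableEq V] (pos : Fin N × (Fin r → ZMod p) ↪ V)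

/-- The input with ones exactly at the points of the graph of `y`. -/
def xg (y : Fin c → Fin r → ZMod p) (v : V) : Bool :=
  decide (∃ i : Fin N, pos (i, ev y (i : ℕ)) = v)

lemma xg_iff (y : Fin c → Fin r → ZMod p) (v : V) :
    xg pos y v = true ↔ ∃ i : Fin N, pos (i, ev y (i : ℕ)) = v := by
  simp [xg]

/-- The variables on the lines through the graph of `g` in the direction `e`. -/
def emb (g : Fin c → Fin r → ZMod p) (e : Fin r → ZMod p) (q : Fin N × ZMod p) : V :=
  pos (q.1, ev g (q.1 : ℕ) + q.2 • e)

lemma emb_inj (g : Fin c → Fin r → ZMod p) {e : Fin r → ZMod p} (he : e ≠ 0) :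
    Function.Injective (emb pos g e) := by
  intro q q' h
  have h1 := pos.injective h
  have h2 : q.1 = q'.1 := (Prod.ext_iff.mp h1).1
  have h3 := (Prod.ext_iff.mp h1).2
  simp only at h3
  rw [h2] at h3
  have h4 : q.2 • e = q'.2 • e := add_left_cancel h3
  have h5 : (q.2 - q'.2) • e = 0 := by rw [sub_smul, h4, sub_self]
  rcases smul_eq_zero.mp h5 with h6 | h6
  · exact Prod.ext h2 (sub_eq_zero.mp h6)
  · exact absurd h6 he

open Classical in
/-- The variables which are not known to be zero, as elements of the scalar ground set. -/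
noncomputable def tau (g : Fin c → Fin r → ZMod p) (e : Fin r → ZMod p)
    (S : Finset (Fin N × ZMod p)) (v : V) : Option (Fin N × ZMod p) :=
  if h : ∃ q, emb pos g e q = v ∧ q ∉ S then some h.choose else none

lemma tau_some {g : Fin c → Fin r → ZMod p} {e : Fin r → ZMod p} (he : e ≠ 0)
    {S : Finset (Fin N × ZMod p)} {q : Fin N × ZMod p} (hq : q ∉ S) :
    tau pos g e S (emb pos g e q) = some q := by
  have h : ∃ q', emb pos g e q' = emb pos g e q ∧ q' ∉ S := ⟨q, rfl, hq⟩
  unfold tau
  rw [dif_pos h]
  congr 1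
  exact emb_inj pos g he h.choose_spec.1

lemma tau_spec {g : Fin c → Fin r → ZMod p} {e : Fin r → ZMod p}
    {S : Finset (Fin N × ZMod p)} {v : V} {q : Fin N × ZMod p} (h : tau pos g e S v = some q) :
    emb pos g e q = v ∧ q ∉ S := by
  unfold tau at h
  split_ifs at h with h1
  rw [← Option.some.inj h]
  exact h1.choose_spec

lemma tau_none {g : Fin c → Fin r → ZMod p} {e : Fin r → ZMod p}
    {S : Finset (Fin N × ZMod p)} {v : V} (h : tau pos g e S v = none) {q : Fin N × ZMod p}
    (hq : emb pos g e q = v) : q ∈ S := by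
  unfold tau at h
  split_ifs at h with h1
  by_contra h2
  exact h1 ⟨q, hq, h2⟩

/-- The input with ones exactly at the points of `X`. -/
def zin (g : Fin c → Fin r → ZMod p) (e : Fin r → ZMod p) (X : Finset (Fin N × ZMod p))
    (v : V) : Bool := decide (∃ q ∈ X, emb pos g e q = v)

lemma zin_iff {g : Fin c → Fin r → ZMod p} {e : Fin r → ZMod p} {X : Finset (Fin N × ZMod p)}
    {v : V} : zin pos g e X v = true ↔ ∃ q ∈ X, emb pos g e q = v := by
  simp [zin]

lemma partIn_sound {g : Fin c → Fin r → ZMod p} {e : Fin r → ZMod p}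
    (S X : Finset (Fin N × ZMod p)) (v : V) :
    Inf (partIn (tau pos g e S) X v) (some (zin pos g e (X \ S) v)) := by
  intro b hb
  unfold partIn at hb
  cases ht : tau pos g e S v with
  | none =>
    rw [ht] at hb
    simp only at hb
    have hz : zin pos g e (X \ S) v = false := by
      rw [← Bool.not_eq_true, zin_iff]
      rintro ⟨q, hq, hqv⟩
      rw [mem_sdiff] at hq
      exact hq.2 (tau_none pos ht hqv)
    rw [hz]
    exact hb
  | some q =>
    rw [ht] at hb
    simp only at hb
    obtain ⟨h1, h2⟩ := tau_spec pos ht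
    split_ifs at hb with hX
    have hz : zin pos g e (X \ S) v = true :=
      (zin_iff pos).mpr ⟨q, mem_sdiff.mpr ⟨hX, h2⟩, h1⟩
    rw [hz]
    exact hb

/-- The zeros read on the lines, as elements of the scalar ground set. -/
def readS (g : Fin c → Fin r → ZMod p) (u : Fin c → ZMod p) (e : Fin r → ZMod p)
    (S0 : Finset V) : Finset (Fin N × ZMod p) :=
  univ.filter (fun q => emb pos g e q ∈ S0 ∧ xg pos (lin g u e) (emb pos g e q) = false)

lemma onesAnd_inf {g : Fin c → Fin r → ZMod p} {e : Fin r → ZMod p} (he : e ≠ 0)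
    (u : Fin c → ZMod p) (S0 : Finset V) (v : V) :
    Inf (onesAnd (xg pos (lin g u e)) S0 v)
      (partIn (tau pos g e (readS pos g u e S0)) (graph N u) v) := by
  intro b hb
  unfold onesAnd at hb
  unfold partIn
  split_ifs at hb with h1 h2
  · obtain ⟨i, hi⟩ := (xg_iff pos _ _).mp h1
    have h3 : emb pos g e (i, pval u (i : ℕ)) = v := by
      rw [← hi, ev_lin]
      rfl
    have h4 : (i, pval u (i : ℕ)) ∉ readS pos g u e S0 := by
      unfold readS
      rw [mem_filter]
      rintro ⟨_, _, h5⟩
      rw [h3, h1] at h5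
      exact absurd h5 (by simp)
    have h5 := tau_some pos (g := g) he h4
    rw [h3] at h5
    rw [h5]
    simp only
    rw [if_pos (mem_graph.mpr rfl)]
    exact hb
  · cases ht : tau pos g e (readS pos g u e S0) v with
    | none => simp only; exact hb
    | some q =>
      exfalso
      obtain ⟨h3, h4⟩ := tau_spec pos ht
      apply h4
      unfold readS
      rw [mem_filter]
      refine ⟨mem_univ _, ?_, ?_⟩
      · rw [h3]; exact h2
      · rw [h3, ← Bool.not_eq_true]; exact h1

end Pool.Agent.NegLim.Zeros
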