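import Pool.Agent.NegLim.LangSem
import Pool.Agent.Zeros.Lines

/-!
# The language: words containing the graph of a vector-valued polynomial of low degree
-/

namespace Pool.Agent.NegLim.Zeros

open Finset Pool.Agent.PolyTime Pool.Agent.NegLim.Lang

/-! ### Horner's rule and polynomials -/

lemma hor_pval {q : ℕ} [Fact q.Prime] (c : ℕ) (f : ℕ → ℕ) (i : ℕ) :
    hor q i f c = (pval (fun j : Fin c => ((f (c - 1 - j) : ℕ) : ZMod q)) i).val := by
  have hq : q.Prime := Fact.out
  have h1 := hor_cast q i f c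
  rw [← Finset.sum_range_reflect] at h1
  have h2 : pval (fun j : Fin c => ((f (c - 1 - j) : ℕ) : ZMod q)) i
      = ((hor q i f c : ℕ) : ZMod q) := by
    rw [h1]
    unfold pval
    rw [Finset.sum_range]
    refine Finset.sum_congr rfl fun j _ => ?_
    congr 2
    have := j.isLt
    omega
  rw [h2, ZMod.val_cast_of_lt (hor_lt hq.one_lt.le i f c)]

lemma exists_hor {q : ℕ} [Fact q.Prime] {c : ℕ} (a : Fin c → ZMod q) :
    ∃ f : ℕ → ℕ, (∀ j, f j < q) ∧ ∀ i, hor q i f c = (pval a i).val := by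
  have hq : q.Prime := Fact.out
  let f : ℕ → ℕ := fun j => if hj : c - 1 - j < c then (a ⟨c - 1 - j, hj⟩).val else 0
  refine ⟨f, ?_, ?_⟩
  · intro j
    simp only [f]
    split_ifs
    · exact ZMod.val_lt _
    · exact hq.pos
  · intro i
    rw [hor_pval]
    have : (fun j : Fin c => ((f (c - 1 - j) : ℕ) : ZMod q)) = a := by
      funext j
      have hj := j.isLt
      have e : c - 1 - (c - 1 - (j : ℕ)) = j := by omega
      simp only [f]
      rw [dif_pos (by omega)]
      have e2 : (⟨c - 1 - (c - 1 - (j : ℕ)), by omega⟩ : Fin c) = j := Fin.ext e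
      rw [e2, ZMod.natCast_val, ZMod.cast_id', id]
    rw [this]

/-- The position of a point of the graph. -/
def pcode (q r : ℕ) (i : ℕ) (b : ℕ → ℕ) : ℕ := i * q ^ r + ∑ t ∈ range r, b t * q ^ t

lemma digits_lt {q : ℕ} (r : ℕ) {b : ℕ → ℕ} (hb : ∀ t < r, b t < q) :
    ∑ t ∈ range r, b t * q ^ t < q ^ r := by
  induction r with
  | zero => simp
  | succ r ih =>
    rw [Finset.sum_range_succ]
    have h1 := ih (fun t ht => hb t (by omega))
    have h2 := hb r (by omega)
    calc ∑ t ∈ range r, b t * q ^ t + b r * q ^ r < q ^ r + b r * q ^ r := by omega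
      _ = (b r + 1) * q ^ r := by ring
      _ ≤ q * q ^ r := Nat.mul_le_mul_right _ h2
      _ = q ^ (r + 1) := by ring

lemma pcode_lt {q r i N : ℕ} {b : ℕ → ℕ} (hi : i < N) (hb : ∀ t < r, b t < q) :
    pcode q r i b < N * q ^ r := by
  unfold pcode
  have h1 := digits_lt r hb
  have h2 : (i + 1) * q ^ r ≤ N * q ^ r := Nat.mul_le_mul_right _ hi
  have h3 : (i + 1) * q ^ r = i * q ^ r + q ^ r := by ring
  omega

/-- The set given by `bit` contains the graph, over the points `0, ..., N - 1`, of a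
polynomial with `c` coefficients in `(ℤ/q)^r`. -/
def HasGraph (c N q r : ℕ) (bit : ℕ → Bool) : Prop :=
  ∃ f : ℕ → ℕ → ℕ, (∀ t j, f t j < q) ∧
    ∀ i < N, bit (pcode q r i (fun t => hor q i (f t) c)) = true

lemma hasGraph_iff {c N q r : ℕ} [Fact q.Prime] (bit : ℕ → Bool) :
    HasGraph c N q r bit ↔ ∃ y : Fin c → Fin r → ZMod q,
      ∀ i < N, bit (i * q ^ r + ∑ t : Fin r, (ev y i t).val * q ^ (t : ℕ)) = true := by
  constructor
  · rintro ⟨f, _, h⟩
    refine ⟨fun j t => ((f t (c - 1 - j) : ℕ) : ZMod q), fun i hi => ?_⟩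
    have h1 := h i hi
    unfold pcode at h1
    rw [Finset.sum_range] at h1
    rw [← h1]
    congr 2
    refine Finset.sum_congr rfl fun t _ => ?_
    beta_reduce
    rw [hor_pval]
    rfl
  · rintro ⟨y, h⟩
    have h1 : ∀ t : ℕ, ∃ f : ℕ → ℕ, (∀ j, f j < q) ∧
        ∀ ht : t < r, ∀ i, hor q i f c = (ev y i ⟨t, ht⟩).val := by
      intro t
      by_cases ht : t < r
      · obtain ⟨f, hf, hfi⟩ := exists_hor (fun j => y j ⟨t, ht⟩)
        exact ⟨f, hf, fun _ i => hfi i⟩
      · exact ⟨fun _ => 0, fun _ => (Fact.out : q.Prime).pos, fun h => absurd h ht⟩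
    choose f hf hfi using h1
    refine ⟨f, hf, fun i hi => ?_⟩
    have h2 := h i hi
    unfold pcode
    rw [Finset.sum_range, ← h2]
    congr 2
    refine Finset.sum_congr rfl fun t _ => ?_
    beta_reduce
    rw [hfi t t.isLt i]

lemma hasGraph_mono {c N q r : ℕ} {bit bit' : ℕ → Bool}
    (h : ∀ i, bit i = true → bit' i = true) (hg : HasGraph c N q r bit) :
    HasGraph c N q r bit' := by
  obtain ⟨f, hf, h1⟩ := hg
  exact ⟨f, hf, fun i hi => h _ (h1 i hi)⟩

/-! ### The parameters of a section -/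

open Classical in
/-- The number of powers of `q` which are at most `m`. -/
noncomputable def lgp (q m : ℕ) : ℕ := ((range (m + 1)).filter (fun P => IsPow q P)).card

lemma lgp_spec {q : ℕ} (hq : q.Prime) {m : ℕ} (hm : 1 ≤ m) :
    1 ≤ lgp q m ∧ q ^ (lgp q m - 1) ≤ m ∧ m < q ^ lgp q m := by
  classical
  have h : lgp q m = Nat.log q m + 1 := by
    unfold lgp
    have e : (range (m + 1)).filter (fun P => IsPow q P) =
        (range (Nat.log q m + 1)).image (fun i => q ^ i) := by
      ext P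
      rw [mem_filter, mem_range, isPow_iff hq, mem_image]
      constructor
      · rintro ⟨h1, i, rfl⟩
        refine ⟨i, mem_range.mpr ?_, rfl⟩
        have := Nat.le_log_of_pow_le hq.one_lt (show q ^ i ≤ m by omega)
        omega
      · rintro ⟨i, hi, rfl⟩
        rw [mem_range] at hi
        refine ⟨?_, i, rfl⟩
        have h1 : q ^ i ≤ q ^ Nat.log q m := Nat.pow_le_pow_right hq.pos (by omega)
        have h2 := Nat.pow_log_le_self q (show m ≠ 0 by omega)
        omega
    convert congrArg Finset.card e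
    rw [card_image_of_injective _ (Nat.pow_right_injective hq.two_le), card_range]
  rw [h]
  refine ⟨by omega, ?_, Nat.lt_pow_succ_log_self hq.one_lt m⟩
  rw [Nat.add_sub_cancel]
  exact Nat.pow_log_le_self q (by omega)

/-- The prime of the section `j`. -/
noncomputable def prj (j : ℕ) : ℕ := gp (2 ^ (j + 1))

lemma prj_spec (j : ℕ) : (prj j).Prime ∧ prj j ≤ 2 ^ (j + 1) ∧ 2 ^ j < prj j := by
  have h1 : 2 ≤ 2 ^ (j + 1) := by
    calc 2 = 2 ^ 1 := (pow_one 2).symm
      _ ≤ 2 ^ (j + 1) := Nat.pow_le_pow_right (by norm_num) (by omega)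
  obtain ⟨h2, h3, h4⟩ := gp_spec _ h1
  refine ⟨h2, h3, ?_⟩
  unfold prj
  rw [pow_succ] at h4 ⊢
  omega

/-- Section number `j` of a word of length `n`, divided in `l` sections, contains a graph. -/
def Sect (n l j : ℕ) (bit : ℕ → Bool) : Prop :=
  l ^ 3 ≤ prj j ∧ 3 ≤ lgp (prj j) (n / l) ∧
    HasGraph (2 * (prj j / l ^ 3)) (prj j) (prj j) (lgp (prj j) (n / l) - 2)
      (fun i => bit (j * (n / l) + i))

open Classical in
/-- The number of powers of two which are at most `n + 1`. -/
noncomputable def lgc (n : ℕ) : ℕ := ((range (n + 2)).filter (fun P => IsPow 2 P)).card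

lemma lgc_eq (n : ℕ) : lgc n = Nat.log 2 (n + 1) + 1 := by
  classical
  have h1 := lgp_spec Nat.prime_two (m := n + 1) (by omega)
  have h2 : lgc n = lgp 2 (n + 1) := by
    unfold lgc lgp
    congr
  rw [h2]
  have h3 := Nat.pow_log_le_self 2 (show n + 1 ≠ 0 by omega)
  have h4 := Nat.lt_pow_succ_log_self (b := 2) (by norm_num) (n + 1)
  obtain ⟨h5, h6, h7⟩ := h1
  have h8 : lgp 2 (n + 1) - 1 < Nat.log 2 (n + 1) + 1 :=
    (Nat.pow_lt_pow_iff_right (by norm_num)).mp (lt_of_le_of_lt h6 h4)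
  have h9 : Nat.log 2 (n + 1) < lgp 2 (n + 1) :=
    (Nat.pow_lt_pow_iff_right (by norm_num)).mp (lt_of_le_of_lt h3 h7)
  omega

/-- The language: one of the sections contains a graph. -/
def Sem (n : ℕ) (bit : ℕ → Bool) : Prop := ∃ j < lgc n, Sect n (lgc n) j bit

end Pool.Agent.NegLim.Zeros
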