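import Pool.Agent.Zeros.Asym

/-!
# Circuits which read few zeros: main theorem
-/

namespace Pool.Agent.NegLim.Zeros

open Finset Pool.Agent.NegLim.Lang
open scoped BigOperators

lemma zlang_ofFn (d n : ℕ) (x : Fin n → Bool) :
    zlang d (List.ofFn x) = true ↔ Sem (n / d) (bitsOf (n / d) x) := by
  rw [zlang_iff, List.length_ofFn]
  rfl

lemma awz_mono {V : Type} [DecidableEq V] {C : Circuit V} {out : Wire V} {x : V → Bool}
    {k k' : ℝ} (h : k ≤ k') (hx : C.AcceptsWithZeros out x k) : C.AcceptsWithZeros out x k' := by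
  obtain ⟨S, hS, h1⟩ := hx
  exact ⟨S, hS.trans h, h1⟩

open Classical in
/-- The final step: from a good section to the real form. -/
lemma finish (d n j : ℕ) (a b : ℝ) (hl10 : 2 ^ 10 ≤ lgc (n / d))
    (hj : j < lgc (n / d)) (h3 : 8 * lgc (n / d) ^ 3 ≤ prj j)
    (hlg : 3 ≤ lgp (prj j) (n / d / lgc (n / d)))
    (ha : a ≤ ((prj j / lgc (n / d) ^ 3 / 4 : ℕ) : ℝ))
    (hb : b ≤ ((prj j / lgc (n / d) ^ 3 / 4 / lgc (n / d) *
      prj j ^ (lgp (prj j) (n / d / lgc (n / d)) - 3) / 2 : ℕ) : ℝ)) :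
    ∃ A : Finset (Fin n → Bool), A.Nonempty ∧ (∀ x ∈ A, zlang d (List.ofFn x) = true) ∧
      ∀ (C : Circuit (Fin n)) (out : Wire (Fin n)),
        (∀ x, C.val x out = true → zlang d (List.ofFn x) = true) →
        (C.size : ℝ) ≤ 2 ^ a →
        ((A.filter (fun x => C.AcceptsWithZeros out x b)).card : ℝ) ≤ 2 ^ (-a) * A.card := by
  obtain ⟨A, hA, hAL, hmain⟩ := sect_hard n (n / d) (lgc (n / d)) j (Nat.div_le_self _ _) rfl
    hl10 hj h3 hlg
  refine ⟨A, hA, fun x hx => (zlang_ofFn d n x).mpr (hAL x hx), ?_⟩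
  intro C out hC hsz
  set w := prj j / lgc (n / d) ^ 3 with hw
  set K := w / 4 / lgc (n / d) * prj j ^ (lgp (prj j) (n / d / lgc (n / d)) - 3) / 2 with hK
  have hsz' : C.size ≤ 2 ^ (w / 4) := by
    have h1 : (C.size : ℝ) ≤ 2 ^ (((w / 4 : ℕ) : ℝ)) :=
      hsz.trans (Real.rpow_le_rpow_of_exponent_le (by norm_num) ha)
    rw [Real.rpow_natCast] at h1
    exact_mod_cast h1
  have h1 := hmain C out (fun x hx => (zlang_ofFn d n x).mp (hC x hx)) hsz'
  have h2 : (A.filter (fun x => C.AcceptsWithZeros out x b)).card ≤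
      (A.filter (fun x => C.AcceptsWithZeros out x (K : ℝ))).card := by
    apply card_le_card
    intro x hx
    rw [mem_filter] at hx ⊢
    exact ⟨hx.1, awz_mono hb hx.2⟩
  have h3 : ((A.filter (fun x => C.AcceptsWithZeros out x b)).card : ℝ) * 2 ^ a ≤ A.card := by
    have h4 : 2 ^ w * (A.filter (fun x => C.AcceptsWithZeros out x b)).card ≤ A.card :=
      (Nat.mul_le_mul_left _ h2).trans h1
    have h5 : (2 : ℝ) ^ w * ((A.filter (fun x => C.AcceptsWithZeros out x b)).card : ℝ) ≤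
        A.card := by exact_mod_cast h4
    have h6 : (2 : ℝ) ^ a ≤ 2 ^ w := by
      rw [← Real.rpow_natCast]
      apply Real.rpow_le_rpow_of_exponent_le (by norm_num)
      refine ha.trans ?_
      exact_mod_cast Nat.div_le_self _ _
    calc _ ≤ ((A.filter (fun x => C.AcceptsWithZeros out x b)).card : ℝ) * 2 ^ w :=
          mul_le_mul_of_nonneg_left h6 (Nat.cast_nonneg _)
      _ = 2 ^ w * ((A.filter (fun x => C.AcceptsWithZeros out x b)).card : ℝ) := mul_comm _ _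
      _ ≤ _ := h5
  rw [Real.rpow_neg (by norm_num), inv_mul_eq_div, le_div_iff₀ (by positivity)]
  exact h3

open Classical in
/-- **Circuits which read few zeros**, exponents `1 / t` and `1 - 1 / t`. -/
theorem z_main (d : ℕ) (hd : 1 ≤ d) (t : ℕ) (ht : 2 ≤ t) (ε : ℝ) (hε : 0 < ε) :
    ∃ n₀ : ℕ, ∀ n ≥ n₀, ∃ A : Finset (Fin n → Bool), A.Nonempty ∧
      (∀ x ∈ A, zlang d (List.ofFn x) = true) ∧
      ∀ (C : Circuit (Fin n)) (out : Wire (Fin n)),
        (∀ x, C.val x out = true → zlang d (List.ofFn x) = true) →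
        (C.size : ℝ) ≤ 2 ^ ((n : ℝ) ^ ((1 : ℝ) / t - ε)) →
        ((A.filter (fun x =>
            C.AcceptsWithZeros out x ((n : ℝ) ^ (1 - (1 : ℝ) / t - ε)))).card : ℝ)
          ≤ 2 ^ (-(n : ℝ) ^ ((1 : ℝ) / t - ε)) * A.card := by
  obtain ⟨n1, hn1⟩ := lgc_large d (2 ^ 10) hd
  obtain ⟨n2, hn2⟩ := polylog (32 * ((d * 4 ^ t : ℕ) : ℝ)) 5 ε hε
  obtain ⟨n3, hn3⟩ := polylog ((2 ^ t * d : ℕ) : ℝ) 1 1 (by norm_num)
  obtain ⟨n4, hn4⟩ := polylog ((d * 4 ^ t * 32 ^ t + 1 : ℕ) : ℝ) (4 * t + 1) 1 (by norm_num)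
  refine ⟨max (max n1 n2) (max (max n3 n4) 1), fun n hn => ?_⟩
  have hn1' : n1 ≤ n := le_trans (le_trans (le_max_left _ _) (le_max_left _ _)) hn
  have hn2' : n2 ≤ n := le_trans (le_trans (le_max_right _ _) (le_max_left _ _)) hn
  have hn3' : n3 ≤ n := le_trans (le_trans (le_trans (le_max_left _ _) (le_max_left _ _))
    (le_max_right _ _)) hn
  have hn4' : n4 ≤ n := le_trans (le_trans (le_trans (le_max_right _ _) (le_max_left _ _))
    (le_max_right _ _)) hn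
  have hnpos : 1 ≤ n := le_trans (le_trans (le_max_right _ _) (le_max_right _ _)) hn
  have hl10 := hn1 n hn1'
  set l := lgc (n / d) with hl
  have hll : l ≤ lgc n := lgc_mono (Nat.div_le_self _ _)
  have hl1 : 1 ≤ l := le_trans (by norm_num) hl10
  have hln : ∀ e : ℕ, (l : ℝ) ^ e ≤ (lgc n : ℝ) ^ e := fun e =>
    pow_le_pow_left₀ (Nat.cast_nonneg _) (by exact_mod_cast hll) e
  have hm : 2 ^ t ≤ n / d / l := by
    rw [Nat.le_div_iff_mul_le (by omega), Nat.le_div_iff_mul_le (by omega)]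
    have h1 := hn3 n hn3'
    rw [Real.rpow_one] at h1
    have h2 : ((2 ^ t * d : ℕ) : ℝ) * (l : ℝ) ^ 1 ≤ n :=
      (mul_le_mul_of_nonneg_left (hln 1) (Nat.cast_nonneg _)).trans h1
    rw [pow_one] at h2
    have h3 : 2 ^ t * d * l ≤ n := by exact_mod_cast h2
    calc 2 ^ t * l * d = 2 ^ t * d * l := by ring
      _ ≤ n := h3
  obtain ⟨j, hj, hg, hnx⟩ := pick d t n hd ht hm
  have hx : 32 * l ^ 4 ≤ 2 ^ j := by
    by_contra hcon
    rw [not_le] at hcon
    have h1 : (2 ^ j) ^ t ≤ (32 * l ^ 4) ^ t := Nat.pow_le_pow_left hcon.le t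
    have h2 : n ≤ d * 4 ^ t * 32 ^ t * l ^ (4 * t + 1) := by
      calc n ≤ d * 4 ^ t * l * (2 ^ j) ^ t := hnx
        _ ≤ d * 4 ^ t * l * (32 * l ^ 4) ^ t := Nat.mul_le_mul_left _ h1
        _ = d * 4 ^ t * 32 ^ t * l ^ (4 * t + 1) := by
            rw [mul_pow, ← pow_mul, pow_succ l (4 * t)]; ring
    have h3 := hn4 n hn4'
    rw [Real.rpow_one] at h3
    have h4 : ((d * 4 ^ t * 32 ^ t + 1 : ℕ) : ℝ) * (l : ℝ) ^ (4 * t + 1) ≤ n :=
      (mul_le_mul_of_nonneg_left (hln _) (Nat.cast_nonneg _)).trans h3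
    have h5 : (d * 4 ^ t * 32 ^ t + 1) * l ^ (4 * t + 1) ≤ n := by exact_mod_cast h4
    have h6 : 1 ≤ l ^ (4 * t + 1) := Nat.one_le_pow _ _ hl1
    rw [add_mul, one_mul] at h5
    omega
  obtain ⟨hp, hple, hplt⟩ := prj_spec j
  have hC1 : (1 : ℝ) ≤ ((d * 4 ^ t : ℕ) : ℝ) := by
    have : 1 ≤ d * 4 ^ t := Nat.mul_pos hd (by positivity)
    exact_mod_cast this
  have hreal := real_ineq t l n (2 ^ j) ((d * 4 ^ t : ℕ) : ℝ) ε (by omega) hl1 hnpos hC1
    (by exact_mod_cast hnx)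
    ((mul_le_mul_of_nonneg_left (hln 5) (by positivity)).trans (hn2 n hn2'))
  have hround := round_ineq (prj j) (2 ^ j) l (lgp (prj j) (n / d / l)) hl1 hx hplt.le ht hg
  have h8 : 8 * l ^ 3 ≤ prj j := by
    have h1 : l ^ 3 ≤ l ^ 4 := Nat.pow_le_pow_right hl1 (by omega)
    omega
  exact finish d n j _ _ hl10 hj h8 (by omega) (hreal.1.trans hround.1)
    (hreal.2.trans hround.2)

end Pool.Agent.NegLim.Zeros
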