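import Pool.Agent.Zeros.Sect

/-!
# Hardness of one section
-/

namespace Pool.Agent.NegLim.Zeros

open Finset Pool.Agent.NegLim.Lang
open scoped BigOperators

lemma real_bound (w u : ℕ) (hu : 4 * u ≤ w) (hw8 : 8 ≤ w) (hu2 : 2 ≤ u) (Yc X1 a b sz : ℝ) (hY : 0 ≤ Yc)
    (hX0 : 0 ≤ X1) (hX1 : X1 ≤ 2 ^ u) (ha : a ≤ (1 / 2) ^ (4 * w))
    (hsz : sz ≤ 2 ^ u) (hb : b = (2 * sz) * (2 * (1 / 4) ^ w)) :
    2 * Yc * (X1 * (a + b)) * 2 ^ w ≤ Yc := by
  set s : ℝ := 2 ^ u with hs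
  have hs4 : 4 ≤ s := by
    rw [hs]
    calc (4 : ℝ) = 2 ^ 2 := by norm_num
      _ ≤ 2 ^ u := pow_le_pow_right₀ (by norm_num) hu2
  have hh : (1 / 2 : ℝ) ^ w ≤ 1 / s ^ 4 := by
    have h1 : s ^ 4 ≤ 2 ^ w := by
      rw [hs, ← pow_mul]
      exact pow_le_pow_right₀ (by norm_num) (by omega)
    rw [one_div, inv_pow, one_div]
    exact inv_anti₀ (by positivity) h1
  have hw1 : (1 / 2 : ℝ) ^ w * 2 ^ w = 1 := by rw [← mul_pow]; norm_num
  have h0 : (0 : ℝ) ≤ (1 / 2) ^ w := by positivity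
  have hle1 : (1 / 2 : ℝ) ^ w ≤ 1 := pow_le_one₀ (by norm_num) (by norm_num)
  have h4 : (1 / 4 : ℝ) ^ w = (1 / 2) ^ w * (1 / 2) ^ w := by rw [← mul_pow]; norm_num
  have ha' : a ≤ (1 / 2) ^ w * (1 / 2) ^ w := by
    refine ha.trans ?_
    rw [← pow_add]
    exact pow_le_pow_of_le_one (by norm_num) (by norm_num) (by omega)
  have hb' : b ≤ 4 * s * ((1 / 2) ^ w * (1 / 2) ^ w) := by
    rw [hb, h4]
    have : (0 : ℝ) ≤ (1 / 2) ^ w * (1 / 2) ^ w := by positivity
    nlinarith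
  have hab : a + b ≤ 5 * s * ((1 / 2) ^ w * (1 / 2) ^ w) := by
    have : (0 : ℝ) ≤ (1 / 2) ^ w * (1 / 2) ^ w := by positivity
    nlinarith
  have hX : X1 * (a + b) ≤ s * (5 * s * ((1 / 2) ^ w * (1 / 2) ^ w)) := by
    have h5 : 0 ≤ 5 * s * ((1 / 2 : ℝ) ^ w * (1 / 2) ^ w) := by positivity
    calc X1 * (a + b) ≤ X1 * (5 * s * ((1 / 2) ^ w * (1 / 2) ^ w)) :=
          mul_le_mul_of_nonneg_left hab hX0
      _ ≤ s * (5 * s * ((1 / 2) ^ w * (1 / 2) ^ w)) := mul_le_mul_of_nonneg_right hX1 h5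
  have hfin : 10 * s ^ 2 * (1 / 2 : ℝ) ^ w ≤ 1 := by
    have h6 : 10 * s ^ 2 * (1 / 2 : ℝ) ^ w ≤ 10 * s ^ 2 * (1 / s ^ 4) :=
      mul_le_mul_of_nonneg_left hh (by positivity)
    have h7 : 10 * s ^ 2 * (1 / s ^ 4) = 10 / s ^ 2 := by
      field_simp
    rw [h7] at h6
    refine h6.trans ?_
    rw [div_le_one (by positivity)]
    nlinarith
  have h8 : 2 * Yc * (X1 * (a + b)) * 2 ^ w ≤
      2 * Yc * (s * (5 * s * ((1 / 2) ^ w * (1 / 2) ^ w))) * 2 ^ w := by
    apply mul_le_mul_of_nonneg_right _ (by positivity)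
    exact mul_le_mul_of_nonneg_left hX (by positivity)
  refine h8.trans ?_
  have h9 : 2 * Yc * (s * (5 * s * ((1 / 2 : ℝ) ^ w * (1 / 2) ^ w))) * 2 ^ w
      = Yc * (10 * s ^ 2 * (1 / 2) ^ w) * ((1 / 2) ^ w * 2 ^ w) := by ring
  rw [h9, hw1, mul_one]
  calc Yc * (10 * s ^ 2 * (1 / 2) ^ w) ≤ Yc * 1 := mul_le_mul_of_nonneg_left hfin hY
    _ = Yc := mul_one _

open Classical in
/-- **Hardness of one section.** -/
theorem sect_hard (N n l j : ℕ) (hnN : n ≤ N) (hl : l = lgc n) (hl10 : 2 ^ 10 ≤ l) (hj : j < l)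
    (h3 : 8 * l ^ 3 ≤ prj j) (hlg : 3 ≤ lgp (prj j) (n / l)) :
    ∃ A : Finset (Fin N → Bool), A.Nonempty ∧ (∀ x ∈ A, Sem n (bitsOf n x)) ∧
      ∀ (C : Circuit (Fin N)) (out : Wire (Fin N)),
        (∀ x, C.val x out = true → Sem n (bitsOf n x)) →
        C.size ≤ 2 ^ (prj j / l ^ 3 / 4) →
        2 ^ (prj j / l ^ 3) * (A.filter (fun x => C.AcceptsWithZeros out x
          ((prj j / l ^ 3 / 4 / l * prj j ^ (lgp (prj j) (n / l) - 3) / 2 : ℕ) : ℝ))).card
          ≤ A.card := by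
  have hp := (prj_spec j).1
  have : Fact (prj j).Prime := ⟨hp⟩
  set q := prj j with hq
  set r := lgp q (n / l) - 2 with hr
  set w := q / l ^ 3 with hw
  have hl0 : 0 < l := by omega
  have hl3 : 0 < l ^ 3 := by positivity
  have hr1 : 1 ≤ r := by omega
  have hr3 : lgp q (n / l) - 3 = r - 1 := by omega
  rw [hr3]
  have hw8 : 8 ≤ w := by
    rw [hw, Nat.le_div_iff_mul_le hl3]
    exact h3
  have hwq : w * l ^ 3 ≤ q := Nat.div_mul_le_self q (l ^ 3)
  have hfit := (sect_fit hj hlg).1.trans hnN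
  have hfit2 := (sect_fit hj hlg).2
  set pos := posG q q r N (j * (n / l)) hfit with hpos
  have hlog := lgc_eq n
  rw [← hl] at hlog
  have hn2 : n + 1 < 2 ^ l := by
    rw [hlog]
    exact Nat.lt_pow_succ_log_self (by norm_num) _
  have hnl : n / l ≤ n := Nat.div_le_self _ _
  have hqr : q * q ^ r ≤ n := hfit2.trans hnl
  have hqq : q * q ≤ n := by
    refine le_trans (Nat.mul_le_mul_left q ?_) hqr
    calc q = q ^ 1 := (pow_one q).symm
      _ ≤ q ^ r := Nat.pow_le_pow_right hp.pos hr1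
  have hqle : q ≤ n := (Nat.le_mul_of_pos_left q hp.pos).trans hqq
  have hqrn : q ^ r ≤ n := (Nat.le_mul_of_pos_left _ hp.pos).trans hqr
  -- powers of l
  have hl2l3 : 2 * l ^ 2 ≤ l ^ 3 := by
    have e : l ^ 3 = l * l ^ 2 := by ring
    rw [e]
    exact Nat.mul_le_mul_right _ (by omega)
  have hl10' : 2 ^ 10 * l ^ 2 ≤ l ^ 3 := by
    have e : l ^ 3 = l * l ^ 2 := by ring
    rw [e]
    exact Nat.mul_le_mul_right _ hl10
  have hll2 : l ≤ l ^ 2 := by
    calc l = l * 1 := (mul_one l).symm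
      _ ≤ l * l := Nat.mul_le_mul_left l hl0
      _ = l ^ 2 := (sq l).symm
  have hwl10 : 2 ^ 10 * (l ^ 2 * w) ≤ q := by
    calc 2 ^ 10 * (l ^ 2 * w) = (2 ^ 10 * l ^ 2) * w := by ring
      _ ≤ l ^ 3 * w := Nat.mul_le_mul_right _ hl10'
      _ = w * l ^ 3 := mul_comm _ _
      _ ≤ q := hwq
  have hw2 : w ≤ l ^ 2 * w := Nat.le_mul_of_pos_left w (by positivity)
  have hwl : w * l ≤ l ^ 2 * w := by
    calc w * l ≤ w * l ^ 2 := Nat.mul_le_mul_left w hll2
      _ = l ^ 2 * w := mul_comm _ _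
  have h2w : 2 * w ≤ q := by omega
  refine ⟨univ.image (xg pos : (Fin (2 * w) → Fin r → ZMod q) → Fin N → Bool), ?_, ?_, ?_⟩
  · exact ⟨_, mem_image_of_mem _ (mem_univ (fun _ _ => 0))⟩
  · intro x hx
    rw [mem_image] at hx
    obtain ⟨y, _, rfl⟩ := hx
    apply sem_of_graph hnN hl hj (by omega) hlg _ y
    intro i
    exact (xg_iff pos _ _).mpr ⟨i, rfl⟩
  · intro C out hC hsz
    have hinj : Function.Injective (xg pos : (Fin (2 * w) → Fin r → ZMod q) → Fin N → Bool) :=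
      xg_inj pos h2w le_rfl
    rw [Finset.filter_image, card_image_of_injective _ hinj, card_image_of_injective _ hinj,
      Finset.card_univ]
    set K := w / 4 / l * q ^ (r - 1) / 2 with hK
    have hmain := few_zeros pos w (2 * (l * (w * (l + 1))) - 1) l (w * (l + 1)) (w / 4 / l) K
      (by omega) h2w le_rfl ?_ ?_ ?_ ?_ ?_ hr1 ?_
      (La := fun x => Sem n (bitsOf n x))
      (fun x hx hs => graph_of_sem hnN hl hj hlg x hx hs) C out hC
    · have hset : (univ : Finset (Fin (2 * w) → Fin r → ZMod q)).filter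
          (fun y => C.AcceptsWithZeros out (xg pos y) (K : ℝ)) =
          (univ : Finset (Fin (2 * w) → Fin r → ZMod q)).filter (fun y =>
          ∃ S0 : Finset (Fin N), S0.card ≤ K ∧
            C.kval (onesAnd (xg pos y) S0) out = some true) := by
        refine Finset.filter_congr fun y _ => ?_
        unfold Circuit.AcceptsWithZeros
        refine exists_congr fun S => ?_
        rw [Nat.cast_le]
      rw [hset]
      have hX1 : ((q * q + 1 : ℕ) : ℝ) ^ (w / 4 / l) ≤ 2 ^ (w / 4) := by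
        have h1 : (q * q + 1) ^ (w / 4 / l) ≤ 2 ^ (w / 4) := by
          calc (q * q + 1) ^ (w / 4 / l) ≤ (2 ^ l) ^ (w / 4 / l) :=
                Nat.pow_le_pow_left (by omega) _
            _ = 2 ^ (l * (w / 4 / l)) := (pow_mul _ _ _).symm
            _ ≤ 2 ^ (w / 4) := Nat.pow_le_pow_right (by norm_num) (Nat.mul_div_le _ _)
        exact_mod_cast h1
      have hYc : Fintype.card (Fin (2 * w) → Fin r → ZMod q) = (q ^ r) ^ (2 * w) := by
        rw [Fintype.card_fun, Fintype.card_fun, ZMod.card, Fintype.card_fin, Fintype.card_fin]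
      have hYle : (q ^ r) ^ (2 * w) * 2 ^ (4 * w) ≤ 2 ^ q := by
        calc (q ^ r) ^ (2 * w) * 2 ^ (4 * w) ≤ (2 ^ l) ^ (2 * w) * 2 ^ (4 * w) := by
              apply Nat.mul_le_mul_right
              exact Nat.pow_le_pow_left (by omega) _
          _ = 2 ^ (2 * (w * l) + 4 * w) := by rw [← pow_mul, ← pow_add]; congr 1; ring
          _ ≤ 2 ^ q := Nat.pow_le_pow_right (by norm_num) (by omega)
      have ha : (Fintype.card (Fin (2 * w) → Fin r → ZMod q) : ℝ) * (1 / 2) ^ q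
          ≤ (1 / 2) ^ (4 * w) := by
        rw [hYc]
        have h1 : (((q ^ r) ^ (2 * w) : ℕ) : ℝ) * 2 ^ (4 * w) ≤ 2 ^ q := by exact_mod_cast hYle
        have h2 : (1 / 2 : ℝ) ^ q = 1 / 2 ^ q := by rw [one_div, inv_pow, one_div]
        have h3 : (1 / 2 : ℝ) ^ (4 * w) = 1 / 2 ^ (4 * w) := by rw [one_div, inv_pow, one_div]
        rw [h2, h3, mul_one_div, div_le_div_iff₀ (by positivity) (by positivity), one_mul]
        exact h1
      have hfin := real_bound w (w / 4) (Nat.mul_div_le w 4) hw8 (by omega)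
        (Fintype.card (Fin (2 * w) → Fin r → ZMod q) : ℝ) (((q * q + 1 : ℕ) : ℝ) ^ (w / 4 / l))
        _ (((2 * C.size : ℕ) : ℝ) * (2 * (1 / 4 : ℝ) ^ w)) (C.size : ℝ) (Nat.cast_nonneg _)
        (by positivity) hX1 ha (by exact_mod_cast hsz)
        (by push_cast; ring)
      have h5 : ((2 ^ w * ((univ : Finset (Fin (2 * w) → Fin r → ZMod q)).filter (fun y =>
          ∃ S0 : Finset (Fin N), S0.card ≤ K ∧
            C.kval (onesAnd (xg pos y) S0) out = some true)).card : ℕ) : ℝ) ≤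
          ((Fintype.card (Fin (2 * w) → Fin r → ZMod q) : ℕ) : ℝ) := by
        push_cast
        refine le_trans ?_ hfin
        rw [mul_comm]
        apply mul_le_mul_of_nonneg_right _ (by positivity)
        convert hmain using 2
      exact_mod_cast h5
    · -- 256 (M + 1) ≤ q
      have e : 2 * (l * (w * (l + 1))) = 2 * (l ^ 2 * w) + 2 * (w * l) := by ring
      have h1 : 1 ≤ l * (w * (l + 1)) := Nat.mul_pos hl0 (Nat.mul_pos (by omega) (by omega))
      rw [Nat.sub_add_cancel (by omega), e]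
      omega
    · -- 2 w < 2 ^ L
      omega
    · exact Nat.mul_pos hl0 (Nat.mul_pos (by omega) (by omega))
    · -- (N p + 1)^(2w) 4^w ≤ 4^k
      calc (q * q + 1) ^ (2 * w) * 4 ^ w ≤ (2 ^ l) ^ (2 * w) * 4 ^ w := by
            apply Nat.mul_le_mul_right
            exact Nat.pow_le_pow_left (by omega) _
        _ = 4 ^ (w * (l + 1)) := by
            have e : (4 : ℕ) = 2 ^ 2 := by norm_num
            rw [e, ← pow_mul, ← pow_mul, ← pow_mul, ← pow_add]
            congr 1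
            ring
    · have h1 : 1 ≤ l * (w * (l + 1)) := Nat.mul_pos hl0 (Nat.mul_pos (by omega) (by omega))
      omega
    · -- the number of zeros
      have h1 : 2 * K ≤ w / 4 / l * q ^ (r - 1) := by
        rw [hK]
        exact Nat.mul_div_le _ _
      have h2 : q ^ (r - 1) * (q - 1) ≤ q ^ r - 1 := by
        have e : q ^ r = q ^ (r - 1) * q := by
          rw [← pow_succ]
          congr 1
          omega
        have h4 : 1 ≤ q ^ (r - 1) := Nat.one_le_pow _ _ hp.pos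
        have h5 : q ^ (r - 1) * (q - 1) = q ^ (r - 1) * q - q ^ (r - 1) := by
          rw [Nat.mul_sub, mul_one]
        rw [h5, e]
        omega
      calc 2 * (K * (q - 1)) = (2 * K) * (q - 1) := by ring
        _ ≤ (w / 4 / l * q ^ (r - 1)) * (q - 1) := Nat.mul_le_mul_right _ h1
        _ = w / 4 / l * (q ^ (r - 1) * (q - 1)) := by ring
        _ ≤ w / 4 / l * (q ^ r - 1) := Nat.mul_le_mul_left _ h2
        _ ≤ (w / 4 / l + 1) * (q ^ r - 1) := Nat.mul_le_mul_right _ (by omega)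

end Pool.Agent.NegLim.Zeros
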