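import Pool.Agent.Zeros.Main

/-!
# Circuits which read few zeros: uniform form
-/

namespace Pool.Agent.NegLim.Zeros

open Finset Pool.Agent.NegLim.Lang
open scoped BigOperators

/-- The choice of the section for given `W` and `K`. -/
lemma pick2 (d n W K : ℕ) (hd : 1 ≤ d) (hl10 : 2 ^ 10 ≤ lgc (n / d)) (hW : 1 ≤ W) (hK : 1 ≤ K)
    (h : K * W ^ 2 * (2 ^ 20 * d * lgc (n / d) ^ 15) ≤ n) :
    ∃ j < lgc (n / d), 8 * lgc (n / d) ^ 3 ≤ prj j ∧ 3 ≤ lgp (prj j) (n / d / lgc (n / d)) ∧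
      W ≤ prj j / lgc (n / d) ^ 3 / 4 ∧
      K ≤ prj j / lgc (n / d) ^ 3 / 4 / lgc (n / d) *
        prj j ^ (lgp (prj j) (n / d / lgc (n / d)) - 3) / 2 := by
  set n' := n / d with hn'
  set l := lgc n' with hl
  set m := n' / l with hmdef
  have hl1 : 1 ≤ l := le_trans (by norm_num) hl10
  have hl4 : 1 ≤ l ^ 4 := Nat.one_le_pow _ _ hl1
  set B := 32 * l ^ 4 * W with hB
  have hB1 : 1 < B := by
    rw [hB]
    have : 1 ≤ l ^ 4 * W := Nat.mul_pos hl4 hW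
    rw [mul_assoc]
    omega
  set j := Nat.clog 2 B with hj
  have hj1 : B ≤ 2 ^ j := Nat.le_pow_clog (by norm_num) B
  have hj2 : 2 ^ j < 2 * B := by
    have h1 := Nat.pow_pred_clog_lt_self (b := 2) (by norm_num) hB1
    have h2 : 1 ≤ j := Nat.clog_pos (by norm_num) hB1
    have h3 : 2 ^ j = 2 * 2 ^ (j - 1) := by
      rw [← pow_succ']
      congr 1
      omega
    rw [h3]
    have h4 : Nat.clog 2 B - 1 = j - 1 := by rw [hj]
    rw [Nat.pred_eq_sub_one, h4] at h1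
    omega
  obtain ⟨hp, hple, hplt⟩ := prj_spec j
  set q := prj j with hq
  have hqlow : B ≤ q := (hj1.trans hplt.le)
  have hqup : q ≤ 128 * (l ^ 4 * W) := by
    rw [pow_succ] at hple
    have e : B = 32 * (l ^ 4 * W) := by rw [hB]; ring
    omega
  have hq2 : q ^ 2 ≤ 2 ^ 14 * (l ^ 8 * W ^ 2) := by
    calc q ^ 2 ≤ (128 * (l ^ 4 * W)) ^ 2 := Nat.pow_le_pow_left hqup 2
      _ = 2 ^ 14 * (l ^ 8 * W ^ 2) := by ring
  -- n < d l (m + 1)
  have hnm : n < d * (l * (m + 1)) := by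
    have h1 : n < d * (n' + 1) := Nat.lt_mul_div_succ n hd
    have h2 : n' + 1 ≤ l * (m + 1) := Nat.lt_mul_div_succ n' hl1
    exact lt_of_lt_of_le h1 (Nat.mul_le_mul_left d h2)
  have hW2 : 1 ≤ W ^ 2 := Nat.one_le_pow _ _ hW
  have hdl : 0 < d * l := Nat.mul_pos hd hl1
  -- cancel d l
  have hc1 : K * W ^ 2 * (2 ^ 20 * l ^ 14) < m + 1 := by
    have h1 : (K * W ^ 2 * (2 ^ 20 * l ^ 14)) * (d * l) < (m + 1) * (d * l) := by
      calc (K * W ^ 2 * (2 ^ 20 * l ^ 14)) * (d * l)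
          = K * W ^ 2 * (2 ^ 20 * d * l ^ 15) := by ring
        _ ≤ n := h
        _ < d * (l * (m + 1)) := hnm
        _ = (m + 1) * (d * l) := by ring
    exact Nat.lt_of_mul_lt_mul_right h1
  have hc2 : K * W ^ 2 * (2 ^ 20 * l ^ 14) ≤ m := by omega
  have hl8 : l ^ 8 ≤ l ^ 14 := Nat.pow_le_pow_right hl1 (by omega)
  have hl12 : l ^ 12 ≤ l ^ 14 := Nat.pow_le_pow_right hl1 (by omega)
  have hqm : q ^ 2 ≤ m := by
    refine hq2.trans (le_trans ?_ hc2)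
    calc 2 ^ 14 * (l ^ 8 * W ^ 2) = W ^ 2 * (2 ^ 14 * l ^ 8) := by ring
      _ ≤ K * W ^ 2 * (2 ^ 20 * l ^ 14) := by
          apply Nat.mul_le_mul (Nat.le_mul_of_pos_left _ hK)
          exact Nat.mul_le_mul (by norm_num) hl8
  have hq0 : 0 < q := hp.pos
  have hm1 : 1 ≤ m := le_trans (Nat.one_le_pow _ _ hq0) hqm
  obtain ⟨_, _, hg2⟩ := lgp_spec hp hm1
  set g := lgp q m with hg
  have hg3 : 3 ≤ g := by
    have h1 : q ^ 2 < q ^ g := lt_of_le_of_lt hqm hg2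
    have := (Nat.pow_lt_pow_iff_right hp.one_lt).mp h1
    omega
  have hmn : m ≤ n' := Nat.div_le_self _ _
  have hnl : n' + 1 < 2 ^ l := by
    rw [hl, lgc_eq]
    exact Nat.lt_pow_succ_log_self (by norm_num) _
  have hjl : j < l := by
    have h1 : q ≤ q ^ 2 := by
      calc q = q ^ 1 := (pow_one q).symm
        _ ≤ q ^ 2 := Nat.pow_le_pow_right hq0 (by omega)
    exact (Nat.pow_lt_pow_iff_right (show 1 < 2 by norm_num)).mp (by omega)
  have hl34 : l ^ 3 ≤ l ^ 4 := Nat.pow_le_pow_right hl1 (by omega)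
  have hl44 : l ^ 4 ≤ l ^ 4 * W := Nat.le_mul_of_pos_right _ hW
  have hBe : B = 32 * (l ^ 4 * W) := by rw [hB]; ring
  refine ⟨j, hjl, by omega, hg3, ?_, ?_⟩
  · -- W ≤ w / 4
    rw [Nat.div_div_eq_div_mul, Nat.le_div_iff_mul_le (by positivity)]
    calc W * (l ^ 3 * 4) = 4 * (l ^ 3 * W) := by ring
      _ ≤ 32 * (l ^ 4 * W) := Nat.mul_le_mul (by norm_num) (Nat.mul_le_mul_right W hl34)
      _ = B := hBe.symm
      _ ≤ q := hqlow
  · -- K ≤ ...
    rw [Nat.div_div_eq_div_mul, Nat.div_div_eq_div_mul]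
    have hden : l ^ 3 * (4 * l) = 4 * l ^ 4 := by ring
    rw [hden, ← hq]
    set a := q / (4 * l ^ 4) with ha
    have ha1 : 1 ≤ a := by
      rw [ha, Nat.one_le_div_iff (by positivity)]
      omega
    have ha2 : q ≤ 8 * l ^ 4 * a := by
      have h1 : q < 4 * l ^ 4 * (a + 1) := Nat.lt_mul_div_succ q (by positivity)
      have h2 : 4 * l ^ 4 * (a + 1) ≤ 4 * l ^ 4 * (2 * a) := Nat.mul_le_mul_left _ (by omega)
      calc q ≤ 4 * l ^ 4 * (a + 1) := h1.le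
        _ ≤ 4 * l ^ 4 * (2 * a) := h2
        _ = 8 * l ^ 4 * a := by ring
    rw [Nat.le_div_iff_mul_le (by norm_num)]
    have hqg : q ^ g = q ^ (g - 3) * q * q ^ 2 := by
      rw [mul_assoc, ← pow_succ', ← pow_add]
      congr 1
      omega
    have h1 : m < (a * q ^ (g - 3)) * (2 ^ 17 * (l ^ 12 * W ^ 2)) := by
      calc m < q ^ g := hg2
        _ = q ^ (g - 3) * q * q ^ 2 := hqg
        _ ≤ q ^ (g - 3) * (8 * l ^ 4 * a) * (2 ^ 14 * (l ^ 8 * W ^ 2)) := by gcongr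
        _ = (a * q ^ (g - 3)) * (2 ^ 17 * (l ^ 12 * W ^ 2)) := by ring
    have h2 : (K * 2) * (2 ^ 17 * (l ^ 12 * W ^ 2)) ≤ m := by
      refine le_trans ?_ hc2
      calc (K * 2) * (2 ^ 17 * (l ^ 12 * W ^ 2)) = K * W ^ 2 * (2 ^ 18 * l ^ 12) := by ring
        _ ≤ K * W ^ 2 * (2 ^ 20 * l ^ 14) :=
            Nat.mul_le_mul_left _ (Nat.mul_le_mul (by norm_num) hl12)
    exact (Nat.lt_of_mul_lt_mul_right (lt_of_le_of_lt h2 h1)).le

open Classical in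
/-- **Circuits which read few zeros**, uniform form. -/
theorem z_unif (d : ℕ) (hd : 1 ≤ d) :
    ∃ n₀ : ℕ, ∀ n ≥ n₀, ∀ W K : ℕ, 1 ≤ W → 1 ≤ K → K * W ^ 2 * Nat.log 2 n ^ 16 ≤ n →
      ∃ A : Finset (Fin n → Bool), A.Nonempty ∧
        (∀ x ∈ A, zlang d (List.ofFn x) = true) ∧
        ∀ (C : Circuit (Fin n)) (out : Wire (Fin n)),
          (∀ x, C.val x out = true → zlang d (List.ofFn x) = true) →
          C.size ≤ 2 ^ W →
          2 ^ W * (A.filter (fun x => C.AcceptsWithZeros out x K)).card ≤ A.card := by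
  obtain ⟨n1, hn1⟩ := lgc_large d (2 ^ 10) hd
  refine ⟨max n1 (2 ^ (2 ^ 35 * d)), fun n hn W K hW hK h => ?_⟩
  have hl10 := hn1 n (le_trans (le_max_left _ _) hn)
  have hn2 : 2 ^ (2 ^ 35 * d) ≤ n := le_trans (le_max_right _ _) hn
  have hn1' : 1 ≤ n := le_trans Nat.one_le_two_pow hn2
  have hlogn : 2 ^ 35 * d ≤ Nat.log 2 n := Nat.le_log_of_pow_le (by norm_num) hn2
  have hlog1 : 1 ≤ Nat.log 2 n := le_trans (Nat.mul_pos (by positivity) hd) hlogn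
  have hle : lgc (n / d) ≤ 2 * Nat.log 2 n + 1 - 1 := by
    have h1 : lgc (n / d) ≤ lgc n := lgc_mono (Nat.div_le_self _ _)
    have h2 : lgc n ≤ Nat.log 2 n + 2 := by
      rw [lgc_eq]
      have h3 : Nat.log 2 (n + 1) ≤ Nat.log 2 (n * 2) := Nat.log_mono_right (by omega)
      have h4 : Nat.log 2 (n * 2) = Nat.log 2 n + 1 :=
        Nat.log_mul_base (by norm_num) (by omega)
      omega
    have h5 : 2 ≤ Nat.log 2 n := by
      have : 2 ^ 35 * 1 ≤ 2 ^ 35 * d := Nat.mul_le_mul_left _ hd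
      omega
    omega
  rw [Nat.add_sub_cancel] at hle
  have hlog16 : 2 ^ 20 * d * lgc (n / d) ^ 15 ≤ Nat.log 2 n ^ 16 := by
    calc 2 ^ 20 * d * lgc (n / d) ^ 15 ≤ 2 ^ 20 * d * (2 * Nat.log 2 n) ^ 15 :=
          Nat.mul_le_mul_left _ (Nat.pow_le_pow_left hle 15)
      _ = (2 ^ 35 * d) * Nat.log 2 n ^ 15 := by rw [mul_pow]; ring
      _ ≤ Nat.log 2 n * Nat.log 2 n ^ 15 := Nat.mul_le_mul_right _ hlogn
      _ = Nat.log 2 n ^ 16 := by rw [pow_succ' _ 15]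
  obtain ⟨j, hj, h3, hg, hW', hK'⟩ := pick2 d n W K hd hl10 hW hK
    ((Nat.mul_le_mul_left _ hlog16).trans h)
  obtain ⟨A, hA, hAL, hmain⟩ := sect_hard n (n / d) (lgc (n / d)) j (Nat.div_le_self _ _) rfl
    hl10 hj h3 hg
  refine ⟨A, hA, fun x hx => (zlang_ofFn d n x).mpr (hAL x hx), ?_⟩
  intro C out hC hsz
  have h1 := hmain C out (fun x hx => (zlang_ofFn d n x).mp (hC x hx))
    (hsz.trans (Nat.pow_le_pow_right (by norm_num) hW'))
  refine le_trans (Nat.mul_le_mul ?_ ?_) h1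
  · exact Nat.pow_le_pow_right (by norm_num) (hW'.trans (Nat.div_le_self _ _))
  · apply card_le_card
    intro x hx
    rw [mem_filter] at hx ⊢
    refine ⟨hx.1, awz_mono ?_ hx.2⟩
    exact_mod_cast hK'

end Pool.Agent.NegLim.Zeros
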