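import Pool.Agent.Zeros.KDefs

/-!
# Negation width of De Morgan circuits
-/

namespace Pool.Agent.NegLim

/-- All NOT gates of the circuit are applied to variables. -/
def Circuit.DeMorgan {V : Type} (C : Circuit V) : Prop :=
  ∀ a : Wire V, Gate.not a ∈ C → ∃ v, a = Wire.var v

/-- The terms produced at a wire, given the terms `ts` produced at the gates. A term is a pair of
sets of variables: those which occur positively and those which occur negated. -/
def Wire.terms {V : Type} (ts : List (Set (Finset V × Finset V))) :
    Wire V → Set (Finset V × Finset V)
  | .var v => {({v}, ∅)}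
  | .const b => if b then {(∅, ∅)} else ∅
  | .gate i => ts.getD i ∅

/-- The terms produced at a gate. The terms of an AND gate are the conjunctions of a term of the
first input and a term of the second input; those of an OR gate are the terms of its inputs; that
of a NOT gate applied to a variable is the negated variable. -/
def Gate.terms {V : Type} [DecidableEq V] (ts : List (Set (Finset V × Finset V))) :
    Gate V → Set (Finset V × Finset V)
  | .and a b => {t | ∃ s ∈ a.terms ts, ∃ s' ∈ b.terms ts, t = (s.1 ∪ s'.1, s.2 ∪ s'.2)}
  | .or a b => a.terms ts ∪ b.terms ts
  | .not (.var v) => {(∅, {v})}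
  | .not (.const b) => if b then ∅ else {(∅, ∅)}
  | .not (.gate _) => ∅

/-- The terms produced at the gates of a circuit. -/
def gateTerms {V : Type} [DecidableEq V] : Circuit V → List (Set (Finset V × Finset V)) →
    List (Set (Finset V × Finset V))
  | [], ts => ts
  | g :: C, ts => gateTerms C (ts ++ [g.terms ts])

/-- Negation width at most `k` (Jukna and Lingas): no nonzero term produced by the circuit
contains more than `k` distinct negated variables. -/
def Circuit.NegWidthLe {V : Type} [DecidableEq V] (C : Circuit V) (out : Wire V) (k : ℝ) : Prop :=
  ∀ t ∈ out.terms (gateTerms C []), Disjoint t.1 t.2 → (t.2.card : ℝ) ≤ k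

end Pool.Agent.NegLim
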