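import Pool.Agent.Zeros.ETime
import Pool.Agent.NegLim.NPSem

/-!
# The language is in NP
-/

namespace Pool.Agent.NegLim.Zeros

open Finset Pool.Agent.PolyTime Pool.Agent.NegLim.Lang

/-- The certificate `wb` shows that the set given by `xb` contains the graph of a polynomial. -/
def VAccV (c N q r S : ℕ) (xb wb : ℕ → Bool) : Prop :=
  ∀ i < N, (∀ t < r, NPL.tval wb q (c * r + i * ((c + 1) * r) + t) = 0) ∧
    (∀ j < c, ∀ t < r, NPL.tval wb q (c * r + i * ((c + 1) * r) + ((j + 1) * r + t))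
      = (NPL.tval wb q (c * r + i * ((c + 1) * r) + (j * r + t)) * i
          + NPL.tval wb q (j * r + t)) % q) ∧
    xb (i * pw q S r +
      ∑ t ∈ range r, NPL.tval wb q (c * r + i * ((c + 1) * r) + (c * r + t)) * pw q S t) = true

lemma vaccV_sound {c N q r S : ℕ} (hq : q.Prime) (hr : q ^ r < S) {xb wb : ℕ → Bool}
    (h : VAccV c N q r S xb wb) : HasGraph c N q r xb := by
  have hpwt : ∀ t ≤ r, pw q S t = q ^ t := by
    intro t ht
    apply pw_eq hq
    exact lt_of_le_of_lt (Nat.pow_le_pow_right hq.pos ht) hr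
  refine ⟨fun t j => NPL.tval wb q (j * r + t), fun t j => NPL.tval_lt _ hq.pos _, ?_⟩
  intro i hi
  obtain ⟨h0, h1, h2⟩ := h i hi
  have key : ∀ j ≤ c, ∀ t < r, NPL.tval wb q (c * r + i * ((c + 1) * r) + (j * r + t)) =
      hor q i (fun j => NPL.tval wb q (j * r + t)) j := by
    intro j
    induction j with
    | zero => intro _ t ht; rw [zero_mul, zero_add, h0 t ht]; rfl
    | succ j ih =>
      intro hj t ht
      rw [h1 j (by omega) t ht, ih (by omega) t ht]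
      rfl
  rw [← h2]
  congr 1
  unfold pcode
  rw [hpwt r le_rfl]
  congr 1
  refine Finset.sum_congr rfl fun t ht => ?_
  beta_reduce
  rw [key c le_rfl t (mem_range.mp ht), hpwt t (mem_range.mp ht).le]

lemma vaccV_complete {c N q r S : ℕ} (hq : q.Prime) (hr : q ^ r < S) (hr0 : 0 < r)
    {xb : ℕ → Bool} (h : HasGraph c N q r xb) :
    ∃ w : List Bool, w.length = (c * r + N * ((c + 1) * r)) * q ∧
      VAccV c N q r S xb (fun i => w.getD i false) := by
  obtain ⟨f, hf, h⟩ := h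
  have hpwt : ∀ t ≤ r, pw q S t = q ^ t := by
    intro t ht
    apply pw_eq hq
    exact lt_of_le_of_lt (Nat.pow_le_pow_right hq.pos ht) hr
  set g : ℕ → ℕ := fun a => if a < c * r then f (a % r) (a / r) else
    hor q ((a - c * r) / ((c + 1) * r)) (f ((a - c * r) % ((c + 1) * r) % r))
      ((a - c * r) % ((c + 1) * r) / r) with hg
  have hgq : ∀ a, g a < q := by
    intro a
    rw [hg]
    simp only
    split_ifs
    · exact hf _ _
    · exact hor_lt hq.one_lt.le _ _ _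
  have hidx1 : ∀ j t, t < r → (j * r + t) % r = t := by
    intro j t ht
    rw [mul_comm, Nat.mul_add_mod, Nat.mod_eq_of_lt ht]
  have hidx2 : ∀ j t, t < r → (j * r + t) / r = j := by
    intro j t ht
    rw [mul_comm, Nat.mul_add_div hr0, Nat.div_eq_of_lt ht, add_zero]
  refine ⟨NPL.encW q (c * r + N * ((c + 1) * r)) g, by unfold NPL.encW; rw [List.length_ofFn], ?_⟩
  have hgu : ∀ j < c, ∀ t < r, g (j * r + t) = f t j := by
    intro j hj t ht
    rw [hg]
    simp only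
    rw [if_pos (idx_lt hj ht), hidx1 j t ht, hidx2 j t ht]
  have hpos : 0 < (c + 1) * r := Nat.mul_pos (Nat.succ_pos c) hr0
  have hgs : ∀ i, ∀ j ≤ c, ∀ t < r, g (c * r + i * ((c + 1) * r) + (j * r + t)) = hor q i (f t) j := by
    intro i j hj t ht
    rw [hg]
    simp only
    rw [if_neg (by omega)]
    have h1 : j * r + t < (c + 1) * r := idx_lt (by omega) ht
    have e1 : c * r + i * ((c + 1) * r) + (j * r + t) - c * r = (c + 1) * r * i + (j * r + t) := by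
      rw [mul_comm i]; omega
    rw [e1, Nat.mul_add_div hpos, Nat.div_eq_of_lt h1, add_zero, Nat.mul_add_mod,
      Nat.mod_eq_of_lt h1, hidx1 j t ht, hidx2 j t ht]
  have hlt : ∀ i < N, ∀ j ≤ c, ∀ t < r,
      c * r + i * ((c + 1) * r) + (j * r + t) < c * r + N * ((c + 1) * r) := by
    intro i hi j hj t ht
    have h1 : j * r + t < (c + 1) * r := idx_lt (by omega) ht
    have h2 : (i + 1) * ((c + 1) * r) ≤ N * ((c + 1) * r) := Nat.mul_le_mul_right _ hi
    have h3 : (i + 1) * ((c + 1) * r) = i * ((c + 1) * r) + (c + 1) * r := by ring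
    omega
  intro i hi
  refine ⟨?_, ?_, ?_⟩
  · intro t ht
    have e : c * r + i * ((c + 1) * r) + t = c * r + i * ((c + 1) * r) + (0 * r + t) := by
      rw [zero_mul, zero_add]
    rw [e, NPL.tval_encW hq.pos hgq (hlt i hi 0 (Nat.zero_le _) t ht),
      hgs i 0 (Nat.zero_le _) t ht]
    rfl
  · intro j hj t ht
    rw [NPL.tval_encW hq.pos hgq (hlt i hi (j + 1) hj t ht),
      NPL.tval_encW hq.pos hgq (hlt i hi j hj.le t ht),
      NPL.tval_encW hq.pos hgq (lt_of_lt_of_le (idx_lt hj ht) (Nat.le_add_right _ _)),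
      hgs i (j + 1) hj t ht, hgs i j hj.le t ht, hgu j hj t ht]
    rfl
  · rw [← h i hi]
    congr 1
    unfold pcode
    rw [hpwt r le_rfl]
    congr 1
    refine Finset.sum_congr rfl fun t ht => ?_
    rw [mem_range] at ht
    beta_reduce
    rw [NPL.tval_encW hq.pos hgq (hlt i hi c le_rfl t ht), hgs i c le_rfl t ht, hpwt t ht.le]

/-- One section, with certificates. -/
def NSect (n l j : ℕ) (xb wb : ℕ → Bool) : Prop :=
  l ^ 3 ≤ gp (pw 2 (2 * n + 3) (j + 1)) ∧ 3 ≤ lgp (gp (pw 2 (2 * n + 3) (j + 1))) (n / l) ∧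
    VAccV (2 * (gp (pw 2 (2 * n + 3) (j + 1)) / l ^ 3)) (gp (pw 2 (2 * n + 3) (j + 1)))
      (gp (pw 2 (2 * n + 3) (j + 1))) (lgp (gp (pw 2 (2 * n + 3) (j + 1))) (n / l) - 2) (n + 1)
      (fun i => xb (j * (n / l) + i)) wb

/-- The verifier. -/
def NVer (d : ℕ) (y : List Bool) : Prop :=
  ∃ j < lgc (NPL.plen y / d), NSect (NPL.plen y / d) (lgc (NPL.plen y / d)) j (NPL.xbit y)
    (NPL.sbit y)

/-! ### The verifier runs in polynomial time -/

variable {α : Type} [Ctx α]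

lemma pd_vaccV {C N Q R S O : List Bool → α → ℕ} (hC : PF C) (hN : PF N) (hQ : PF Q)
    (hR : PF R) (hS : PF S) (hO : PF O) :
    PD (fun y a => VAccV (C y a) (N y a) (Q y a) (R y a) (S y a)
      (fun i => NPL.xbit y (O y a + i)) (NPL.sbit y)) := by
  -- contexts: α, i
  have hi : PF (fun (_ : List Bool) (e : α × ℕ) => e.2) := PF.snd
  have hC1 : PF (fun y (e : α × ℕ) => C y e.1) := hC.fst
  have hQ1 : PF (fun y (e : α × ℕ) => Q y e.1) := hQ.fst
  have hR1 : PF (fun y (e : α × ℕ) => R y e.1) := hR.fst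
  have hS1 : PF (fun y (e : α × ℕ) => S y e.1) := hS.fst
  have hO1 : PF (fun y (e : α × ℕ) => O y e.1) := hO.fst
  have hb : PF (fun y (e : α × ℕ) => C y e.1 * R y e.1 + e.2 * ((C y e.1 + 1) * R y e.1)) :=
    (hC1.mul hR1).add (hi.mul ((hC1.add (PF.const 1)).mul hR1))
  have c1 : PD (fun y (e : α × ℕ) => ∀ t < R y e.1, NPL.tval (NPL.sbit y) (Q y e.1)
      (C y e.1 * R y e.1 + e.2 * ((C y e.1 + 1) * R y e.1) + t) = 0) :=
    PD.forall_lt (P := fun y (d : (α × ℕ) × ℕ) => NPL.tval (NPL.sbit y) (Q y d.1.1)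
      (C y d.1.1 * R y d.1.1 + d.1.2 * ((C y d.1.1 + 1) * R y d.1.1) + d.2) = 0) hR1
      (PD.eq (NPL.pf_tval hQ1.fst (hb.fst.add PF.snd)) (PF.const 0))
  have c2' : PD (fun y (d : (α × ℕ) × ℕ) => ∀ t < R y d.1.1,
      NPL.tval (NPL.sbit y) (Q y d.1.1)
        (C y d.1.1 * R y d.1.1 + d.1.2 * ((C y d.1.1 + 1) * R y d.1.1)
          + ((d.2 + 1) * R y d.1.1 + t))
      = (NPL.tval (NPL.sbit y) (Q y d.1.1)
          (C y d.1.1 * R y d.1.1 + d.1.2 * ((C y d.1.1 + 1) * R y d.1.1)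
            + (d.2 * R y d.1.1 + t)) * d.1.2
          + NPL.tval (NPL.sbit y) (Q y d.1.1) (d.2 * R y d.1.1 + t)) % Q y d.1.1) :=
    PD.forall_lt (P := fun y (b : ((α × ℕ) × ℕ) × ℕ) =>
      NPL.tval (NPL.sbit y) (Q y b.1.1.1)
        (C y b.1.1.1 * R y b.1.1.1 + b.1.1.2 * ((C y b.1.1.1 + 1) * R y b.1.1.1)
          + ((b.1.2 + 1) * R y b.1.1.1 + b.2))
      = (NPL.tval (NPL.sbit y) (Q y b.1.1.1)
          (C y b.1.1.1 * R y b.1.1.1 + b.1.1.2 * ((C y b.1.1.1 + 1) * R y b.1.1.1)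
            + (b.1.2 * R y b.1.1.1 + b.2)) * b.1.1.2
          + NPL.tval (NPL.sbit y) (Q y b.1.1.1) (b.1.2 * R y b.1.1.1 + b.2)) % Q y b.1.1.1)
      hR1.fst
      (PD.eq (NPL.pf_tval hQ1.fst.fst (hb.fst.fst.add
          (((PF.snd.fst.add (PF.const 1)).mul hR1.fst.fst).add PF.snd)))
        ((((NPL.pf_tval hQ1.fst.fst (hb.fst.fst.add
            ((PF.snd.fst.mul hR1.fst.fst).add PF.snd))).mul hi.fst.fst).add
          (NPL.pf_tval hQ1.fst.fst ((PF.snd.fst.mul hR1.fst.fst).add PF.snd))).mod hQ1.fst.fst))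
  have c2 : PD (fun y (e : α × ℕ) => ∀ j < C y e.1, ∀ t < R y e.1,
      NPL.tval (NPL.sbit y) (Q y e.1)
        (C y e.1 * R y e.1 + e.2 * ((C y e.1 + 1) * R y e.1) + ((j + 1) * R y e.1 + t))
      = (NPL.tval (NPL.sbit y) (Q y e.1)
          (C y e.1 * R y e.1 + e.2 * ((C y e.1 + 1) * R y e.1) + (j * R y e.1 + t)) * e.2
          + NPL.tval (NPL.sbit y) (Q y e.1) (j * R y e.1 + t)) % Q y e.1) :=
    PD.forall_lt hC1 c2'
  have c3' : PF (fun y (e : α × ℕ) => ∑ t ∈ range (R y e.1), NPL.tval (NPL.sbit y) (Q y e.1)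
      (C y e.1 * R y e.1 + e.2 * ((C y e.1 + 1) * R y e.1) + (C y e.1 * R y e.1 + t)) *
        pw (Q y e.1) (S y e.1) t) :=
    PF.sum (F := fun y (d : (α × ℕ) × ℕ) => NPL.tval (NPL.sbit y) (Q y d.1.1)
      (C y d.1.1 * R y d.1.1 + d.1.2 * ((C y d.1.1 + 1) * R y d.1.1)
        + (C y d.1.1 * R y d.1.1 + d.2)) * pw (Q y d.1.1) (S y d.1.1) d.2) hR1
      ((NPL.pf_tval hQ1.fst (hb.fst.add ((hC1.fst.mul hR1.fst).add PF.snd))).mul
        (pf_pw hQ1.fst hS1.fst PF.snd))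
  have c3 : PD (fun y (e : α × ℕ) => NPL.xbit y (O y e.1 + (e.2 * pw (Q y e.1) (S y e.1) (R y e.1)
      + ∑ t ∈ range (R y e.1), NPL.tval (NPL.sbit y) (Q y e.1)
      (C y e.1 * R y e.1 + e.2 * ((C y e.1 + 1) * R y e.1) + (C y e.1 * R y e.1 + t)) *
        pw (Q y e.1) (S y e.1) t)) = true) :=
    NPL.pd_xbit (hO1.add ((hi.mul (pf_pw hQ1 hS1 hR1)).add c3'))
  exact PD.forall_lt hN (c1.and (c2.and c3))

theorem pd_nver (d : ℕ) : PD (fun y (_ : α) => NVer d y) := by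
  have hn : ∀ {β : Type} [Ctx β], PF (fun y (_ : β) => NPL.plen y / d) :=
    NPL.pf_plen.div (PF.const d)
  have hl : ∀ {β : Type} [Ctx β], PF (fun y (_ : β) => lgc (NPL.plen y / d)) := pf_lgc hn
  have hq : PF (fun y (e : α × ℕ) => gp (pw 2 (2 * (NPL.plen y / d) + 3) (e.2 + 1))) :=
    pf_gp (pf_pw (PF.const 2) (((PF.const 2).mul hn).add (PF.const 3)) (PF.snd.add (PF.const 1)))
  have hlg : PF (fun y (e : α × ℕ) =>
      lgp (gp (pw 2 (2 * (NPL.plen y / d) + 3) (e.2 + 1)))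
        (NPL.plen y / d / lgc (NPL.plen y / d))) :=
    pf_lgp hq (hn.div hl)
  have h1 : PD (fun y (e : α × ℕ) => NSect (NPL.plen y / d) (lgc (NPL.plen y / d)) e.2
      (NPL.xbit y) (NPL.sbit y)) :=
    (PD.le (hl.pow 3) hq).and ((PD.le (PF.const 3) hlg).and
      (pd_vaccV ((PF.const 2).mul (hq.div (hl.pow 3))) hq hq (hlg.sub (PF.const 2))
        (hn.add (PF.const 1)) (PF.snd.mul (hn.div hl))))
  exact PD.exists_lt hl h1

end Pool.Agent.NegLim.Zeros
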